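import Pool.Agent.AND2B.Env

/-!
# QDU: the fields of AND2B, uniformly in the ratio of the clocks and without a bound for the last clock

`Ev2` is `Ev` without `t₀`, `ε₀`, and uniform in `th ∈ [1 - τ₀, b]`, `b < 1`.
-/

set_option autoImplicit false

open scoped BigOperators NNReal ENNReal Matrix

noncomputable section

namespace Pool.Agent.QDU

open Pool.Agent.AND2B (Env Prd)

/-- EVENTUALLY, UNIFORMLY: for `th ∈ [1 - τ₀, b]`, `b < 1`, small `c₁`, all `C₁`, `α`, `J`, small `β`, `w` (they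
depend on `b`, `c₁`, `C₁`, `α`, `J` only), everything else, small `e₀`. -/
def Ev2 (d : ℕ) (a es c C : ℝ) (P : Env d → Prop) : Prop :=
  ∃ τ₀ k₁ : ℝ, 0 < τ₀ ∧ 0 < k₁ ∧ ∀ (b : ℝ≥0) (c₁ C₁ : ℝ) (α J : ℕ), b < 1 → 0 < c₁ → c₁ ≤ k₁ →
    2 ≤ α → ∃ β₀ w₀ : ℝ, 0 < β₀ ∧ 0 < w₀ ∧ ∀ V : Env d, V.Pre a → 1 - τ₀ ≤ (V.th : ℝ) → V.th ≤ b →
      V.c₁ = c₁ → V.C₁ = C₁ → V.α = α → V.J = J → V.β ≤ β₀ → (V.w : ℝ) ≤ w₀ →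
      ∃ e₁ : ℝ, 0 < e₁ ∧ ∀ (e₀ : ℝ) (m ζ : ℂ), 0 < e₀ → e₀ ≤ e₁ →
        ({ V with e₀ := e₀, m := m, ζ := ζ } : Env d).Good a es c C →
        P { V with e₀ := e₀, m := m, ζ := ζ }

section ev

variable {d : ℕ} {a es c C : ℝ} {P Q : Env d → Prop}

theorem Ev2.and (hP : Ev2 d a es c C P) (hQ : Ev2 d a es c C Q) :
    Ev2 d a es c C fun V => P V ∧ Q V := by
  obtain ⟨τ, k, hτ, hk, hP⟩ := hP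
  obtain ⟨τ', k', hτ', hk', hQ⟩ := hQ
  refine ⟨min τ τ', min k k', lt_min hτ hτ', lt_min hk hk', ?_⟩
  intro b c₁ C₁ α J h1 h2 h3 h4
  have m1 := min_le_left τ τ'
  have m2 := min_le_right τ τ'
  obtain ⟨β, w, hβ, hw, hP⟩ := hP b c₁ C₁ α J h1 h2 (h3.trans (min_le_left _ _)) h4
  obtain ⟨β', w', hβ', hw', hQ⟩ := hQ b c₁ C₁ α J h1 h2 (h3.trans (min_le_right _ _)) h4
  refine ⟨min β β', min w w', lt_min hβ hβ', lt_min hw hw', ?_⟩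
  intro V hV g1 g2 g3 g4 g5 g6 g7 g8
  obtain ⟨e₁, he, hP⟩ := hP V hV (by linarith) g2 g3 g4 g5 g6 (g7.trans (min_le_left _ _))
    (g8.trans (min_le_left _ _))
  obtain ⟨e₁', he', hQ⟩ := hQ V hV (by linarith) g2 g3 g4 g5 g6 (g7.trans (min_le_right _ _))
    (g8.trans (min_le_right _ _))
  refine ⟨min e₁ e₁', lt_min he he', ?_⟩
  intro e₀ m ζ q1 q2 hG
  exact ⟨hP e₀ m ζ q1 (q2.trans (min_le_left _ _)) hG, hQ e₀ m ζ q1 (q2.trans (min_le_right _ _)) hG⟩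

theorem Ev2.imp (h : ∀ V, P V → Q V) (hP : Ev2 d a es c C P) : Ev2 d a es c C Q := by
  obtain ⟨τ, k, hτ, hk, hP⟩ := hP
  refine ⟨τ, k, hτ, hk, ?_⟩
  intro b c₁ C₁ α J h1 h2 h3 h4
  obtain ⟨β, w, hβ, hw, hP⟩ := hP b c₁ C₁ α J h1 h2 h3 h4
  refine ⟨β, w, hβ, hw, ?_⟩
  intro V hV g1 g2 g3 g4 g5 g6 g7 g8
  obtain ⟨e₁, he, hP⟩ := hP V hV g1 g2 g3 g4 g5 g6 g7 g8
  exact ⟨e₁, he, fun e₀ m ζ q1 q2 hG => h _ (hP e₀ m ζ q1 q2 hG)⟩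

/-- HOW TO PROVE `Ev2`: `τ₀`, `k₁` from `a`, `c`, `C`; `β₀`, `w₀` from `b`, `c₁`, `C₁`, `α`, `J`; `e₁` from the
environment (without `e₀`, `m`, `ζ`) -/
theorem Ev2.intro (τ₀ k₁ : ℝ) (hτ : 0 < τ₀) (hk : 0 < k₁)
    (h : ∀ (b : ℝ≥0) (c₁ C₁ : ℝ) (α J : ℕ), b < 1 → 0 < c₁ → c₁ ≤ k₁ → 2 ≤ α →
      ∃ β₀ w₀ : ℝ, 0 < β₀ ∧ 0 < w₀ ∧ ∀ V : Env d, V.Pre a → 1 - τ₀ ≤ (V.th : ℝ) → V.th ≤ b →
        V.c₁ = c₁ → V.C₁ = C₁ → V.α = α → V.J = J → V.β ≤ β₀ → (V.w : ℝ) ≤ w₀ →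
        ∃ e₁ : ℝ, 0 < e₁ ∧ ∀ (e₀ : ℝ) (m ζ : ℂ), 0 < e₀ → e₀ ≤ e₁ →
          ({ V with e₀ := e₀, m := m, ζ := ζ } : Env d).Good a es c C →
          P { V with e₀ := e₀, m := m, ζ := ζ }) : Ev2 d a es c C P :=
  ⟨τ₀, k₁, hτ, hk, h⟩

/-- the same, if `e₁` does not matter -/
theorem Ev2.intro' (τ₀ k₁ : ℝ) (hτ : 0 < τ₀) (hk : 0 < k₁)
    (h : ∀ (b : ℝ≥0) (c₁ C₁ : ℝ) (α J : ℕ), b < 1 → 0 < c₁ → c₁ ≤ k₁ → 2 ≤ α →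
      ∃ β₀ w₀ : ℝ, 0 < β₀ ∧ 0 < w₀ ∧ ∀ V : Env d, V.Good a es c C → 1 - τ₀ ≤ (V.th : ℝ) →
        V.th ≤ b → V.c₁ = c₁ → V.C₁ = C₁ → V.α = α → V.J = J → V.β ≤ β₀ → (V.w : ℝ) ≤ w₀ → P V) :
    Ev2 d a es c C P := by
  refine Ev2.intro τ₀ k₁ hτ hk ?_
  intro b c₁ C₁ α J h1 h2 h3 h4
  obtain ⟨β₀, w₀, b1, b2, h⟩ := h b c₁ C₁ α J h1 h2 h3 h4
  refine ⟨β₀, w₀, b1, b2, ?_⟩
  intro V _ e1 e2 e3 e4 e5 e6 g1 g2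
  exact ⟨1, one_pos, fun e₀ m ζ _ _ hG => h _ hG e1 e2 e3 e4 e5 e6 g1 g2⟩

end ev

/-- the field statement, uniformly -/
def Fld2 (Z : (d : ℕ) → ℝ → ℝ → ℝ → ℝ → Prd d) (es : ℝ)
    (fld : {d : ℕ} → Prd d → Env d → Prop) : Prop :=
  ∀ (d : ℕ) (a c C : ℝ), 3 ≤ d → 0 < a → 0 < c → c ≤ 1 / 2 → 1 ≤ C →
    Ev2 d a es c C fun V => fld (Z d a es c C) V

end Pool.Agent.QDU
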