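import Pool.Agent.AHH.Z
import Pool.Agent.Helper22_QDU.Env2
/-!
# QDU: the fields, uniformly
-/

set_option autoImplicit false

open scoped BigOperators NNReal Matrix

noncomputable section

namespace Pool.Agent.QDU

open Pool.Agent.AHH hiding BegF FinF FloF IniF KilF MmonF OutF RbegF RfinF RmonF ana0

open Pool.Agent.BED (Tor)
open Pool.Agent.AND2B (net kap Viol Prd)
open Pool.Agent.ANP (Cfg Geo Fc)

variable {d : ℕ}

/-! ### The fields -/

def IniF : Prop := Fld2 Z es Prd.Ini
def BegF : Prop := Fld2 Z es Prd.Beg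
def MmonF : Prop := Fld2 Z es Prd.Mmon
def FloF : Prop := Fld2 Z es Prd.Flo
def FinF : Prop := Fld2 Z es Prd.Fin
def RbegF : Prop := Fld2 Z es Prd.Rbeg
def RmonF : Prop := Fld2 Z es Prd.Rmon
def KilF : Prop := Fld2 Z es Prd.Kil
def RfinF : Prop := Fld2 Z es Prd.Rfin
def OutF : Prop := Fld2 Z es Prd.Out

end Pool.Agent.QDU
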