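import Pool.Agent.Helper61_AHH.Num
import Pool.Agent.Helper22_QDU.Zf
/-!
# AND2B (MP_1906c1_mp): the numbers of the budget
-/

set_option autoImplicit false

open scoped BigOperators NNReal

noncomputable section

namespace Pool.Agent.QDU.H61

open Pool.Agent.AHH hiding BegF FinF FloF IniF KilF MmonF OutF RbegF RfinF RmonF ana0
open Pool.Agent.AHH.H61 hiding budOk ev_be ev_c1 ev_e0 ev_good ev_small ev_small_be ev_th

open Pool.Agent.BED (Tor)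
open Pool.Agent.AND.Num
open Pool.Agent.AHH.H16 (BudOk)

/-! ### How to prove `Ev2` for facts about small powers -/

section ev

variable {d : ℕ} {a es c C : ℝ}

/-- a fact about all small `s` holds for all `s ≤ w` -/
theorem ev_smallu (P : ℝ≥0 → ℝ → ℝ → ℕ → ℕ → ℝ → Prop)
    (h : ∀ (b : ℝ≥0) (c₁ C₁ : ℝ) (α J : ℕ), 1 / 2 ≤ b → b < 1 → 0 < c₁ → 2 ≤ α →
      Small fun s => ∀ th : ℝ≥0, 1 / 2 ≤ th → th ≤ b → P th c₁ C₁ α J s) :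
    Ev2 d a es c C fun V => ∀ s : ℝ, 0 < s → s ≤ V.w → P V.th V.c₁ V.C₁ V.α V.J s := by
  refine Ev2.intro' 1 1 one_pos one_pos fun b c₁ C₁ α J hb h3 _ hα => ?_
  by_cases h1 : 1 / 2 ≤ b
  · obtain ⟨s₀, hs, -, hP⟩ := (h b c₁ C₁ α J h1 hb h3 hα).ex
    refine ⟨1, s₀, one_pos, hs, fun V hV _ e1 e2 e3 e4 e5 _ hw s h5 h6 => ?_⟩
    rw [e2, e3, e4, e5]
    exact hP s h5 (h6.trans hw) V.th hV.th.1 e1
  · refine ⟨1, 1, one_pos, one_pos, fun V hV _ e1 _ _ _ _ _ _ _ _ _ => ?_⟩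
    exact absurd (hV.th.1.trans e1) h1

/-- the same for a fact which is the stronger the larger the ratio of the clocks is -/
theorem ev_smallm (P : ℝ≥0 → ℝ → ℝ → ℕ → ℕ → ℝ → Prop)
    (hm : ∀ (th b : ℝ≥0) (c₁ C₁ : ℝ) (α J : ℕ) (s : ℝ), 1 / 2 ≤ th → th ≤ b → b < 1 → 0 < s →
      P b c₁ C₁ α J s → P th c₁ C₁ α J s)
    (h : ∀ (th : ℝ≥0) (c₁ C₁ : ℝ) (α J : ℕ), 1 / 2 ≤ th → th < 1 → 0 < c₁ → 2 ≤ α →
      Small (P th c₁ C₁ α J)) :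
    Ev2 d a es c C fun V => ∀ s : ℝ, 0 < s → s ≤ V.w → P V.th V.c₁ V.C₁ V.α V.J s :=
  ev_smallu P fun b c₁ C₁ α J h1 h2 h3 h4 =>
    (h b c₁ C₁ α J h1 h2 h3 h4).mono fun s hs hP th h5 h6 => hm th b c₁ C₁ α J s h5 h6 h2 hs hP

/-- the same for a fact which does not contain the ratio of the clocks -/
theorem ev_small (P : ℝ → ℝ → ℕ → ℕ → ℝ → Prop)
    (h : ∀ (th : ℝ≥0) (c₁ C₁ : ℝ) (α J : ℕ), 1 / 2 ≤ th → th < 1 → 0 < c₁ → 2 ≤ α →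
      Small (P c₁ C₁ α J)) :
    Ev2 d a es c C fun V => ∀ s : ℝ, 0 < s → s ≤ V.w → P V.c₁ V.C₁ V.α V.J s :=
  ev_smallm (fun _ => P) (fun _ _ _ _ _ _ _ _ _ _ _ h => h) h

/-- `β` is small -/
theorem ev_be (f : ℝ → ℝ → ℕ → ℕ → ℝ) (hf : ∀ c₁ C₁ α J, 0 < c₁ → 2 ≤ α → 0 < f c₁ C₁ α J) :
    Ev2 d a es c C fun V => V.β ≤ f V.c₁ V.C₁ V.α V.J := by
  refine Ev2.intro' 1 1 one_pos one_pos fun b c₁ C₁ α J _ h3 _ hα => ?_
  refine ⟨f c₁ C₁ α J, 1, hf c₁ C₁ α J h3 hα, one_pos, ?_⟩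
  intro V _ _ _ e2 e3 e4 e5 hb _
  rw [e2, e3, e4, e5]
  exact hb

/-- `th` is close to one -/
theorem ev_th (τ : ℝ) (hτ : 0 < τ) : Ev2 d a es c C fun V => 1 - τ ≤ (V.th : ℝ) := by
  refine Ev2.intro' τ 1 hτ one_pos fun b c₁ C₁ α J _ _ _ _ => ?_
  exact ⟨1, 1, one_pos, one_pos, fun V _ h _ _ _ _ _ _ _ => h⟩

/-- `c₁` is small -/
theorem ev_c1 (κ : ℝ) (hκ : 0 < κ) : Ev2 d a es c C fun V => V.c₁ ≤ κ := by
  refine Ev2.intro' 1 κ one_pos hκ fun b c₁ C₁ α J _ _ h5 _ => ?_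
  refine ⟨1, 1, one_pos, one_pos, ?_⟩
  intro V _ _ _ e2 _ _ _ _ _
  rw [e2]
  exact h5

/-- `e₀` is smaller than any positive function of the data which come before -/
theorem ev_e0 (f : AND2B.Env d → ℝ) (hf : ∀ V : AND2B.Env d, V.Pre a → 0 < f V)
    (hi : ∀ (V : AND2B.Env d) (e₀ : ℝ) (m ζ : ℂ), f { V with e₀ := e₀, m := m, ζ := ζ } = f V) :
    Ev2 d a es c C fun V => V.e₀ ≤ f V := by
  refine Ev2.intro 1 1 one_pos one_pos fun b c₁ C₁ α J _ _ _ _ => ?_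
  refine ⟨1, 1, one_pos, one_pos, ?_⟩
  intro V hV _ _ _ _ _ _ _ _
  refine ⟨f V, hf V hV, fun e₀ m ζ _ h _ => ?_⟩
  rw [hi]
  exact h

/-- every environment is good -/
theorem ev_good : Ev2 d a es c C fun V => V.Good a es c C :=
  Ev2.intro' 1 1 one_pos one_pos fun b c₁ C₁ α J _ _ _ _ =>
    ⟨1, 1, one_pos, one_pos, fun V hV _ _ _ _ _ _ _ _ => hV⟩

end ev

/-! ### Monotonicity in the ratio of the clocks -/

theorem gapm {th b : ℝ≥0} (h : th ≤ b) {p : ℝ} (hp : 0 ≤ p) :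
    1 - (b : ℝ) ^ p ≤ 1 - (th : ℝ) ^ p := by
  have h1 : (th : ℝ) ^ p ≤ (b : ℝ) ^ p :=
    Real.rpow_le_rpow (NNReal.coe_nonneg _) (by exact_mod_cast h) hp
  linarith

/-- `C * x ≤ (1 - b^p) * y` is preserved when `b` decreases -/
theorem gap_le {th b : ℝ≥0} (h : th ≤ b) {p x y : ℝ} (hp : 0 ≤ p) (hy : 0 ≤ y)
    (hx : x ≤ (1 - (b : ℝ) ^ p) * y) : x ≤ (1 - (th : ℝ) ^ p) * y :=
  hx.trans (mul_le_mul_of_nonneg_right (gapm h hp) hy)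

theorem gapi {th b : ℝ≥0} (h : th ≤ b) (hb : b < 1) {K : ℝ} (hK : 0 ≤ K) :
    K / (1 - (th : ℝ)) ≤ K / (1 - (b : ℝ)) := by
  have h1 : (th : ℝ) ≤ b := by exact_mod_cast h
  have h2 : (b : ℝ) < 1 := by exact_mod_cast hb
  exact div_le_div_of_nonneg_left hK (by linarith) (by linarith)

theorem gapip {th b : ℝ≥0} (h : th ≤ b) (hb : b < 1) {K p : ℝ} (hK : 0 ≤ K) (hp : 0 < p) :
    K / (1 - (th : ℝ) ^ p) ≤ K / (1 - (b : ℝ) ^ p) := by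
  have h2 : (b : ℝ) ^ p < 1 := Real.rpow_lt_one (NNReal.coe_nonneg _) (by exact_mod_cast hb) hp
  exact div_le_div_of_nonneg_left hK (by linarith) (gapm h hp.le)

/-! ### The conditions of the fields `beg`, `mmon`, `rbeg`, `rmon` -/

/-- the conditions of helper16 -/
theorem budOk (d : ℕ) (a c C : ℝ) (hc : 0 < c) (hC : 1 ≤ C) :
    Ev2 d a es c C fun V => BudOk (toE V c C) (bud V) := by
  have hcp := one_le_cpd d
  -- the small powers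
  have h1 : Ev2 d a es c C fun V => ∀ s : ℝ, 0 < s → s ≤ V.w →
      (s ≤ 1 ∧ 2 * s ^ (kaf V.α / 2) ≤ s ^ (kaf V.α / 4)) ∧
      (1 * s ^ (1 / 8 : ℝ) ≤ c / 8 * s ^ (0 : ℝ) ∧
        cpd d * s ^ (1 / 8 - 1 / 200 : ℝ) ≤ c / 8 * s ^ (0 : ℝ)) ∧
      (8 / c * s ^ (1 / 8 : ℝ) ≤ s ^ (1 / 16 : ℝ) ∧ 1 * s ^ (1 / 400 : ℝ) ≤ 1 / 3 * s ^ (0 : ℝ)) := by
    refine ev_small (fun _ _ α _ s =>
      (s ≤ 1 ∧ 2 * s ^ (kaf α / 2) ≤ s ^ (kaf α / 4)) ∧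
      (1 * s ^ (1 / 8 : ℝ) ≤ c / 8 * s ^ (0 : ℝ) ∧
        cpd d * s ^ (1 / 8 - 1 / 200 : ℝ) ≤ c / 8 * s ^ (0 : ℝ)) ∧
      (8 / c * s ^ (1 / 8 : ℝ) ≤ s ^ (1 / 16 : ℝ) ∧
        1 * s ^ (1 / 400 : ℝ) ≤ 1 / 3 * s ^ (0 : ℝ))) ?_
    intro th c₁ C₁ α J _ _ _ _
    have hk := kaf_pos α
    exact (((small_le 1 one_pos).and (small_pow 2 (kaf α / 2) (kaf α / 4) (by linarith))).and
      (((small_pow' 1 (c / 8) (1 / 8) 0 (by positivity) (by norm_num)).and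
        (small_pow' (cpd d) (c / 8) (1 / 8 - 1 / 200) 0 (by positivity) (by norm_num))).and
      ((small_pow (8 / c) (1 / 8) (1 / 16) (by norm_num)).and
        (small_pow' 1 (1 / 3) (1 / 400) 0 (by norm_num) (by norm_num)))))
  refine (ev_good.and h1).imp fun V hV => ?_
  obtain ⟨hG, hV⟩ := hV
  have hP : V.Pre a := hG.toPre
  have hth : V.th ≤ 1 := hP.th.2.le
  have hw := w_pos hP
  obtain ⟨⟨w1, w2⟩, _, _, w5⟩ := hV V.w hw le_rfl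
  rw [Real.rpow_zero, one_mul, mul_one] at w5
  have hcl : ∀ k, (0 : ℝ) ≤ V.cl k := fun k => (cl_pos' hP k).le
  have hsg : ∀ n, (0 : ℝ) ≤ V.sg n := fun n => (sg_pos hP n).le
  have hgr : ∀ {p : ℝ}, 0 < p → ∀ n k, 0 ≤ gr V p n k := fun hp n k =>
    (Real.rpow_nonneg hw.le _).trans (gr_bd V hth hp n k).1
  have hsp : ∀ {p : ℝ}, 0 < p → ∀ n, V.sg n ^ p ≤ 1 := fun hp n =>
    Real.rpow_le_one (hsg n) ((sg_le hP n).trans w1) hp.le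
  have hka : 0 < ka V := ka_pos
  refine
    { c0 := by
        show 0 < c / 2
        linarith
      e0 := hG.e0
      D0 := mul_nonneg hc.le (Real.rpow_nonneg hw.le _)
      D1 := by
        show 0 ≤ 4 * C ^ 3 / (V.w : ℝ)
        positivity
      th := ⟨by exact_mod_cast hP.th.1, by exact_mod_cast hth⟩
      cl := fun k => ⟨cl_succ V k, cl_pos V hP.w (th_pos hP) k⟩
      inc := fun n k => ⟨Real.rpow_nonneg (hcl k) _, ?_, Real.rpow_nonneg (hcl k) _,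
        Real.rpow_nonneg (hcl k) _⟩
      icR := fun n => ⟨Real.rpow_nonneg (hsg _) _, Real.rpow_nonneg (hsg _) _,
        Real.rpow_nonneg (hsg _) _, Real.rpow_nonneg (hsg _) _, Real.rpow_nonneg (hsg _) _⟩
      q := fun n k => ⟨Real.rpow_nonneg (hcl k) _, ?_, hgr (by norm_num) n k, ?_, ?_⟩
      psi := fun n P x => Psi_le_Gt d V.μ V.J V.N V.l V.r n P x
      half := fun n k _ => ?_
      thm := fun n k _ => ?_ }
  · show 0 ≤ (1 - (V.th : ℝ)) / (8 * cpd d)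
    have h2 : (V.th : ℝ) ≤ 1 := by exact_mod_cast hth
    exact div_nonneg (by linarith) (by linarith)
  · show 0 ≤ 1 / 4 * (V.cl k : ℝ) ^ (-(3 / 4) : ℝ) * (2 - V.sg n ^ (1 / 400 : ℝ))
    have h2 := hsp (p := 1 / 400) (by norm_num) n
    have h3 : 0 ≤ (V.cl k : ℝ) ^ (-(3 / 4) : ℝ) := Real.rpow_nonneg (hcl k) _
    exact mul_nonneg (mul_nonneg (by norm_num) h3) (by linarith)
  · show 0 ≤ (V.cl k : ℝ) ^ (ka V / 2) * (2 - V.sg n ^ ka V)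
    have h2 := hsp hka n
    exact mul_nonneg (Real.rpow_nonneg (hcl k) _) (by linarith)
  · show (V.cl k : ℝ) ^ (ka V / 2) * (2 - V.sg n ^ ka V) ≤ gr V (ka V / 4) n k
    have h2 := (gr_bd V hth (p := ka V / 4) (by linarith) n k).1
    have h3 : (V.cl k : ℝ) ^ (ka V / 2) ≤ (V.w : ℝ) ^ (ka V / 2) :=
      Real.rpow_le_rpow (hcl k) (cl_le' hP k) (by linarith)
    have h4 : 0 ≤ (V.cl k : ℝ) ^ (ka V / 2) := Real.rpow_nonneg (hcl k) _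
    have h5 : 0 ≤ V.sg n ^ ka V := Real.rpow_nonneg (hsg n) _
    have h6 : (V.cl k : ℝ) ^ (ka V / 2) * (2 - V.sg n ^ ka V) ≤ (V.cl k : ℝ) ^ (ka V / 2) * 2 :=
      mul_le_mul_of_nonneg_left (by linarith) h4
    rw [← ka_eq] at w2
    linarith
  · show (V.cl k : ℝ) ^ (1 / 8 : ℝ) + (V.cl k : ℝ) ^ (1 / 8 - 1 / 200 : ℝ) * cpd d ≤ c / 2 / 2
    obtain ⟨_, ⟨g1, g2⟩, _⟩ := hV (V.cl k) (cl_pos' hP k) (cl_le' hP k)
    rw [Real.rpow_zero] at g1 g2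
    linarith
  · show (1 + gr V (1 / 400) n k) / (1 - (V.cl k : ℝ) ^ (1 / 8 : ℝ) / (c / 2)) ≤
      1 + (gr V (1 / 400) n k + (V.cl k : ℝ) ^ (1 / 16 : ℝ))
    obtain ⟨_, ⟨g1, _⟩, g3, _⟩ := hV (V.cl k) (cl_pos' hP k) (cl_le' hP k)
    rw [Real.rpow_zero] at g1
    have g4 := (gr_bd V hth (p := 1 / 400) (by norm_num) n k).2
    have g5 : gr V (1 / 400) n k ≤ 1 := by linarith
    have g6 := hgr (p := 1 / 400) (by norm_num) n k
    set x : ℝ := (V.cl k : ℝ) ^ (1 / 8 : ℝ) with hx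
    set y : ℝ := (V.cl k : ℝ) ^ (1 / 16 : ℝ) with hy
    have hx0 : 0 ≤ x := Real.rpow_nonneg (hcl k) _
    have hy0 : 0 ≤ y := Real.rpow_nonneg (hcl k) _
    have hy1 : y ≤ 1 := Real.rpow_le_one (hcl k) ((cl_le' hP k).trans w1) (by norm_num)
    have h3 : x / (c / 2) = 2 / c * x := by
      field_simp
    have h4 : 2 / c * x ≤ 1 / 4 := by
      rw [div_mul_eq_mul_div, div_le_iff₀ hc]
      linarith
    have h5 : 8 / c * x = 4 * (2 / c * x) := by ring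
    rw [h3, div_le_iff₀ (by linarith)]
    set z : ℝ := 2 / c * x with hz
    have hz0 : 0 ≤ z := by positivity
    nlinarith

end Pool.Agent.QDU.H61
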