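import Pool.Agent.Helper38_AHH.KPhi
import Pool.Agent.Helper22_QDU.Zf
import Pool.Agent.Helper22_QDU.H61Num
/-!
# AND2B, field kil: the potential of the processed clusters, the first resolvent
-/

set_option autoImplicit false

open scoped BigOperators NNReal

noncomputable section

namespace Pool.Agent.QDU.H38

open Pool.Agent.AHH hiding BegF FinF FloF IniF KilF MmonF OutF RbegF RfinF RmonF ana0
open Pool.Agent.AHH.H38 hiding ev_g0 ev_phi

open Pool.Agent.BED (Tor)

open Pool.Agent.AND.Num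
open Pool.Agent.AND2B.H28 (KH)

variable {d : ℕ} {a e c C : ℝ}

/-- (b1) -/
theorem ev_phi : Ev2 d a e c C fun V => ∀ n ≤ V.N, ∀ (P : Finset V.X) (x : V.X),
    Phi V.G ((bud V).tau n) n P x ≤ 2 := by
  refine ((H61.ev_good (d := d) (a := a) (es := e) (c := c) (C := C)).and
    (H61.ev_small (fun _ _ _ _ s => 12 * ((d : ℝ) + 1) * s ≤ 1) fun _ _ _ _ _ _ _ _ _ => ?_)).imp
    fun V hV n hn P x => ?_
  · refine (small_le (1 / (12 * ((d : ℝ) + 1))) (by positivity)).mono fun s _ h => ?_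
    rwa [le_div_iff₀ (by positivity), mul_comm] at h
  · have hP : V.Pre a := hV.1.toPre
    exact phi_le hP hn (hV.2 _ (H61.sg_pos hP _) (H61.sg_le hP _)) P x

theorem ev_g0 : Ev2 d a e c C fun V => ∀ x y : V.X, ‖(toE V c C).G₀ x y‖ ≤ C :=
  H61.ev_good.imp fun _ hV x y => g0_le hV x y

end Pool.Agent.QDU.H38
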