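import Pool.Agent.Helper28_AHH.Kil
import Pool.Agent.Helper22_QDU.Zf
import Pool.Agent.Helper22_QDU.H28KilH
import Pool.Agent.Helper22_QDU.H38KPhi
import Pool.Agent.Helper22_QDU.H61Num
/-!
# AND2B (helper28): THE FIELD `kil`, from its second half
-/

set_option autoImplicit false
set_option linter.unusedSectionVars false

open scoped BigOperators NNReal ENNReal

noncomputable section

namespace Pool.Agent.QDU.H28

open Pool.Agent.AND2B
open Pool.Agent.AND2B.H28 hiding KilSStmt fhalf kilF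

open Pool.Agent.ANP (Cfg Att)
open Pool.Agent.AHH (toE bud Rl)
open Pool.Agent.KL2 (Fin1)

/-- THE SECOND HALF: after a successful attempt the invariant of the release phase holds -/
def KilSStmt : Prop := ∀ (d : ℕ) (a c C : ℝ), 3 ≤ d → 0 < a → 0 < c → c ≤ 1 / 2 → 1 ≤ C →
  Ev2 d a AHH.es c C fun V => ∀ (n : ℕ) (T₀ T : Cfg V.X) (run₀ run P Q : Finset V.X)
    (v : V.X → ℝ) (T' : Cfg V.X), KH V c C n T₀ run₀ P T run Q →
      Fin1 (toE V c C) n T T' run Q v (rkn (V.sg (n + 1))) (V.Kn n)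
        (V.sg (n + 1) ^ (3 / 25 : ℝ)) (V.sg (n + 1) ^ (1 / 30 : ℝ))
        (V.sg (n + 1) ^ (-(1 / 5) : ℝ)) (V.sg (n + 1) ^ (1 / 10 : ℝ)) →
      ¬ V.Vi T' →
      Rl (toE V c C) (bud V) n T₀ run₀ (P ∪ V.G.nbh Q (V.G.ρ n)) T' {x ∈ run | T'.s x ≠ 0}

/-- THE FIELD -/
theorem kilF (h2 : KilSStmt) : KilF := by
  intro d a c C hd ha hc hc' hC
  refine ((fhalf (by omega : 0 < d) a AHH.es c C hc (by linarith) hC).and
    (h2 d a c C hd ha hc hc' hC)).imp ?_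
  rintro V ⟨hf, hs⟩ n T₀ run₀ P T run Q v hn hn1 hv₀ hv hst hfc₀ hfc hrl hne hpen hdia hcard
    hiso hfar
  have hK : KH V c C n T₀ run₀ P T run Q :=
    ⟨hn, hn1, hv₀, hv, hst, hfc₀, hfc, hrl, hne, hpen, hdia, hcard, hiso, hfar⟩
  refine hf n T₀ T run₀ run P Q v hK _ fun T' hF => ⟨hF.app, hF.num, ?_⟩
  by_cases hVi : V.Vi T'
  · exact Or.inl hVi
  · exact Or.inr (hs n T₀ T run₀ run P Q v T' hK hF hVi)

end Pool.Agent.QDU.H28
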