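import Pool.Agent.Helper30_AHH.Dat
import Pool.Agent.Helper22_QDU.Zf
import Pool.Agent.Helper22_QDU.H38KPhi
import Pool.Agent.Helper22_QDU.H61Num
/-!
# AND2B, field kil, second half: the data of the numeric lemmas from the environment (helper30)
-/

set_option autoImplicit false
set_option linter.unusedSectionVars false

open scoped BigOperators NNReal

noncomputable section

namespace Pool.Agent.QDU.H30

open Pool.Agent.AHH hiding BegF FinF FloF IniF KilF MmonF OutF RbegF RfinF RmonF ana0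
open Pool.Agent.AHH.H30 hiding ev_side

open Pool.Agent.AND.Num
open Pool.Agent.AHH.H41
open Pool.Agent.ANP (Cfg)

open Pool.Agent.AND2B.H28 (Kd sum_Dn sg_geo rkn KH)
open Pool.Agent.KL2

variable {d : ℕ}

theorem ev_side (d : ℕ) (a c C : ℝ) (hc : 0 < c) (hC : 1 ≤ C) :
    Ev2 d a es c C fun V => ∀ n, 1 ≤ n → n ≤ V.N → ∃ k, Side V c C n k := by
  -- the small powers
  have h1 : Ev2 d a es c C fun V => ∀ s : ℝ, 0 < s → s ≤ V.w →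
      (s ≤ 1 / 2 ∧ 8 * 3 ^ d * s ^ (15 / 4 : ℝ) ≤ (1 - (V.th : ℝ) ^ (15 / 4 : ℝ)) * s ^ (0 : ℝ)) ∧
      (1 * s ^ (-(8 / 5) : ℝ) ≤ 1 / 8 * s ^ (-(3 : ℝ)) ∧
        Kz d V.th * s ^ (-(5 / 4) : ℝ) ≤ 1 / 8 * s ^ (-(3 : ℝ))) ∧
      (2 * s ^ (1 / 200 : ℝ) ≤ s ^ (0 : ℝ) ∧ 2 * s ^ (-(4 : ℝ)) ≤ s ^ (-(5 : ℝ))) := by
    refine H61.ev_smallm (fun th _ _ _ _ s =>
      (s ≤ 1 / 2 ∧ 8 * 3 ^ d * s ^ (15 / 4 : ℝ) ≤ (1 - (th : ℝ) ^ (15 / 4 : ℝ)) * s ^ (0 : ℝ)) ∧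
      (1 * s ^ (-(8 / 5) : ℝ) ≤ 1 / 8 * s ^ (-(3 : ℝ)) ∧
        Kz d th * s ^ (-(5 / 4) : ℝ) ≤ 1 / 8 * s ^ (-(3 : ℝ))) ∧
      (2 * s ^ (1 / 200 : ℝ) ≤ s ^ (0 : ℝ) ∧ 2 * s ^ (-(4 : ℝ)) ≤ s ^ (-(5 : ℝ)))) ?_ ?_
    · rintro th b _ _ _ _ s _ g2 g3 g4 ⟨⟨x1, x2⟩, ⟨x3, x4⟩, x5⟩
      refine ⟨⟨x1, H61.gap_le g2 (by norm_num) (Real.rpow_nonneg g4.le _) x2⟩, ⟨x3, ?_⟩, x5⟩
      refine (mul_le_mul_of_nonneg_right ?_ (Real.rpow_nonneg g4.le _)).trans x4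
      unfold Kz Kd
      have := H61.gapip g2 g3 (K := 3 ^ d) (p := 5 / 4) (by positivity) (by norm_num)
      linarith
    intro th c₁ C₁ α J hth hth1 _ _
    have ht : 0 < 1 - (th : ℝ) ^ (15 / 4 : ℝ) := by
      have := Real.rpow_lt_one (NNReal.coe_nonneg th) (show (th : ℝ) < 1 by exact_mod_cast hth1)
        (show (0 : ℝ) < 15 / 4 by norm_num)
      linarith
    exact (((small_le (1 / 2) (by norm_num)).and
      (small_pow' (8 * 3 ^ d) _ (15 / 4) 0 ht (by norm_num))).and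
      (((small_pow' 1 (1 / 8) _ _ (by norm_num) (by norm_num)).and
        (small_pow' (Kz d th) (1 / 8) _ _ (by norm_num) (by norm_num))).and
      ((small_pow 2 (1 / 200) 0 (by norm_num)).and
        (small_pow 2 _ _ (by norm_num)))))
  have h2 : Ev2 d a es c C fun V => V.e₀ ≤ V.sg (V.N + 1) :=
    H61.ev_e0 (fun V => V.sg (V.N + 1)) (fun V hV => H61.sg_pos hV _) (fun _ _ _ _ => rfl)
  refine ((((H61.ev_good.and h1).and h2).and (H61.budOk d a c C hc hC)).and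
    (H38.ev_phi (d := d) (a := a) (e := es) (c := c) (C := C))).imp ?_
  rintro V ⟨⟨⟨⟨hG, hV⟩, he⟩, hB⟩, hphi⟩ n hn1 hn
  have hP : V.Pre a := hG.toPre
  have hw := H61.w_pos hP
  obtain ⟨⟨w1, w2⟩, -, -⟩ := hV V.w hw le_rfl
  rw [Real.rpow_zero, mul_one] at w2
  have hz := Sz.of_pre hP (show (V.w : ℝ) ≤ 1 by linarith) hn
  set s := V.sg (n + 1) with hs
  obtain ⟨⟨s1, -⟩, ⟨s2, s3⟩, s4, s5⟩ := hV s hz.pos hz.le_w
  rw [Real.rpow_zero] at s4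
  have hsp := hz.pos
  -- the radius
  have hr3 : s ^ (-(3 : ℝ)) ≤ (2 : ℝ) ^ V.r n := hz.r_lo
  have hr1 : (8 : ℝ) ≤ s ^ (-(3 : ℝ)) := by
    have e1 : ((2 : ℝ)⁻¹) ^ (-(3 : ℝ)) = 8 := by
      rw [show (-(3 : ℝ)) = ((-3 : ℤ) : ℝ) by norm_num, Real.rpow_intCast]
      norm_num
    rw [← e1]
    exact Real.rpow_le_rpow_of_nonpos hsp (by linarith) (by norm_num)
  have hr2 : 2 ≤ V.r n := by
    by_contra hcon
    have e1 : V.r n ≤ 1 := by omega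
    have e2 : (2 : ℝ) ^ V.r n ≤ 2 ^ 1 := pow_le_pow_right₀ (by norm_num) e1
    linarith
  obtain ⟨k, hk⟩ : ∃ k, V.r n = k + 2 := ⟨V.r n - 2, by omega⟩
  have hrμ : V.r n ≤ V.μ := by
    have e1 : (2 : ℝ) ^ V.r n ≤ s ^ (-(4 : ℝ)) := hz.r_up.le
    have e2 : s ^ (-(5 : ℝ)) ≤ (2 : ℝ) ^ V.l n := hz.L_lo
    have e3 : 0 < s ^ (-(4 : ℝ)) := Real.rpow_pos_of_pos hsp _
    have e4 : (2 : ℝ) ^ V.r n < 2 ^ V.l n := by linarith
    have e5 : V.r n < V.l n := (pow_lt_pow_iff_right₀ (by norm_num)).1 e4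
    have e6 := hP.sc.lm hn
    have e7 := hP.sc.lN
    omega
  have hclu : (clu V n : ℝ) ≤ s ^ (-V.c₁) := by
    refine le_trans (le_of_eq ?_) (hz.clu hn1).le
    unfold clu
    push_cast
    rfl
  have hkn : (V.Kn n : ℝ) ≤ s ^ (-(6 / 5) : ℝ) := hz.kn.le
  have he0 : V.e₀ ≤ s := he.trans (H61.sg_anti hP (by omega))
  refine ⟨k, hk, fun J mm MM hK j1 j2 m1 m2 M1 k1 k2 =>
    { he := ⟨hG.e0, he0⟩
      lam := ⟨lam_lo hz, lam_up hz⟩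
      hM := by omega
      rho := by
        rw [← hk]
        exact hr3
      clu := hclu
      kn := hkn
      zc := zc_le hP hn (by linarith)
      J := ⟨j1, j2⟩
      mm := ⟨m1, m2⟩
      MM := M1
      hK := ⟨k1, k2⟩ }, sum2 hP hn w2, ?_, ?_, (hB.icR n).1, ⟨(hB.icR n).2.1, s4⟩,
    (hB.icR n).2.2.1, (hB.icR n).2.2.2.1, (hB.q n _).2.2.2.2, hphi n hn, hclu, hkn, ?_, hsp, s1,
    by linarith, hG.e0, he0⟩
  · have e1 : (rkn s : ℝ) ≤ s ^ (-(8 / 5 : ℝ)) := Nat.floor_le (Real.rpow_nonneg hsp.le _)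
    have e2 := zc_le' hP hn (by linarith : V.sg (n + 1) ≤ 1)
    have e3 : ((V.G.ρ n : ℕ) : ℝ) = 2 ^ V.r n := by
      rw [gt_r]
      push_cast
      rfl
    have e4 : 0 ≤ s ^ (-(8 / 5 : ℝ)) := Real.rpow_nonneg hsp.le _
    have e5 : 0 ≤ s ^ (-(3 : ℝ)) := Real.rpow_nonneg hsp.le _
    rw [e3]
    rw [one_mul] at s2
    linarith
  · show 2 * C + (V.cl (V.kk (n + 1)) : ℝ) ^ (1 / 8 : ℝ) + 2 * s ^ (1 / 10 : ℝ) ≤ 2 * C + 3
    have e1 : (V.cl (V.kk (n + 1)) : ℝ) ^ (1 / 8 : ℝ) ≤ 1 :=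
      Real.rpow_le_one (NNReal.coe_nonneg _) (by
        have : (V.cl (V.kk (n + 1)) : ℝ) = s := rfl
        linarith) (by norm_num)
    have e2 : s ^ (1 / 10 : ℝ) ≤ 1 := Real.rpow_le_one hsp.le (by linarith) (by norm_num)
    linarith
  · have e1 := hP.sc.dn n hn1
    have e2 : 1 ≤ 3 ^ d * V.J := Nat.mul_pos (by positivity) hP.sc.scl.J1
    refine le_trans ?_ e1
    unfold clu
    have e3 : V.Kn n + 3 ^ d * V.J * (6 * 2 ^ V.l (n - 1) + 1) ^ d ≤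
        3 ^ d * V.J * (V.Kn n + 3 ^ d * V.J * (6 * 2 ^ V.l (n - 1) + 1) ^ d) :=
      Nat.le_mul_of_pos_left _ e2
    omega

/-! ### the cluster -/

section clus

variable {V : AND2B.Env d} {c C a : ℝ} {n k : ℕ} {T₀ T T' : Cfg V.X} {run₀ run P Q : Finset V.X}
  {v : V.X → ℝ} {rk : ℕ} {J mm MM hK : ℝ}

end clus

end Pool.Agent.QDU.H30
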