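import Pool.Agent.Helper61_AHH.Zn
import Pool.Agent.Helper22_QDU.Zf
import Pool.Agent.Helper22_QDU.H61Num
/-!
# AND2B (MP_1906c1_mp): the numbers of `MID`
-/

set_option autoImplicit false

open scoped BigOperators NNReal

noncomputable section

namespace Pool.Agent.QDU.H61

open Pool.Agent.AHH hiding BegF FinF FloF IniF KilF MmonF OutF RbegF RfinF RmonF ana0
open Pool.Agent.AHH.H61 hiding budOk ev_be ev_c1 ev_e0 ev_good ev_small ev_small_be ev_th ev_thr nm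

open Pool.Agent.BED (Tor)

open Pool.Agent.AND.Num
open Pool.Agent.AHH.H16 (BudOk)
open Pool.Agent.AHH.H28 (Nm)

/-- all the small thresholds are at most `δ`, with every constant `K` -/
theorem ev_thr (d : ℕ) (a c C : ℝ) (K δ : ℝ) (hδ : 0 < δ) :
    Ev2 d a es c C fun V => ∀ n k, (qq V n k).eps + K * (bud V).nn n k ≤ δ ∧
      (qq V n k).rho + K * (bud V).nn n k ≤ δ ∧ (qq V n k).del ≤ δ ∧ (qq V n k).mis ≤ δ ∧
      (qq V n k).tht ≤ δ ∧ (bud V).thm n k ≤ δ ∧ K * (bud V).inc n k ≤ δ ∧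
      K * (bud V).inY n k ≤ δ := by
  have h1 : Ev2 d a es c C fun V => ∀ s : ℝ, 0 < s → s ≤ V.w →
      s ≤ 1 ∧ (2 * s ^ (kaf V.α / 2) ≤ δ / 2 * s ^ (0 : ℝ) ∧
      |K| * s ^ kaf V.α ≤ δ / 2 * s ^ (0 : ℝ) ∧ 3 * s ^ (kaf V.α / 4) ≤ δ / 2 * s ^ (0 : ℝ)) ∧
      (3 * s ^ (1 / 20 : ℝ) ≤ δ * s ^ (0 : ℝ) ∧ 1 * s ^ (1 / 8 : ℝ) ≤ δ * s ^ (0 : ℝ) ∧
      3 * s ^ (1 / 400 : ℝ) ≤ δ / 2 * s ^ (0 : ℝ)) ∧ (1 * s ^ (1 / 16 : ℝ) ≤ δ / 2 * s ^ (0 : ℝ) ∧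
      |K| * s ^ (1 / 8 - 1 / 200 : ℝ) ≤ δ * s ^ (0 : ℝ) ∧
      |K| * s ^ (1 / 16 - 1 / 100 : ℝ) ≤ δ * s ^ (0 : ℝ)) := by
    refine ev_small (fun _ _ α _ s =>
      s ≤ 1 ∧ (2 * s ^ (kaf α / 2) ≤ δ / 2 * s ^ (0 : ℝ) ∧
      |K| * s ^ kaf α ≤ δ / 2 * s ^ (0 : ℝ) ∧ 3 * s ^ (kaf α / 4) ≤ δ / 2 * s ^ (0 : ℝ)) ∧
      (3 * s ^ (1 / 20 : ℝ) ≤ δ * s ^ (0 : ℝ) ∧ 1 * s ^ (1 / 8 : ℝ) ≤ δ * s ^ (0 : ℝ) ∧
      3 * s ^ (1 / 400 : ℝ) ≤ δ / 2 * s ^ (0 : ℝ)) ∧ (1 * s ^ (1 / 16 : ℝ) ≤ δ / 2 * s ^ (0 : ℝ) ∧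
      |K| * s ^ (1 / 8 - 1 / 200 : ℝ) ≤ δ * s ^ (0 : ℝ) ∧
      |K| * s ^ (1 / 16 - 1 / 100 : ℝ) ≤ δ * s ^ (0 : ℝ))) ?_
    intro th c₁ C₁ α J _ _ _ _
    have hk := kaf_pos α
    have hδ2 : 0 < δ / 2 := by positivity
    exact (small_le 1 one_pos).and (((small_pow' 2 (δ / 2) _ _ hδ2 (by linarith)).and
      ((small_pow' |K| (δ / 2) _ _ hδ2 hk).and
        (small_pow' 3 (δ / 2) _ _ hδ2 (by linarith)))).and
      (((small_pow' 3 δ _ _ hδ (by norm_num)).and ((small_pow' 1 δ _ _ hδ (by norm_num)).and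
        (small_pow' 3 (δ / 2) _ _ hδ2 (by norm_num)))).and
      ((small_pow' 1 (δ / 2) _ _ hδ2 (by norm_num)).and
        ((small_pow' |K| δ _ _ hδ (by norm_num)).and
          (small_pow' |K| δ _ _ hδ (by norm_num))))))
  refine (ev_good.and h1).imp fun V hV => ?_
  obtain ⟨hG, hV⟩ := hV
  have hP : V.Pre a := hG.toPre
  have hth : V.th ≤ 1 := hP.th.2.le
  have hw := w_pos hP
  obtain ⟨w0, ⟨w1, w2, w3⟩, ⟨w4, w5, w6⟩, w7, w8, w9⟩ := hV V.w hw le_rfl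
  rw [Real.rpow_zero] at *
  intro n k
  have hcl : (0 : ℝ) ≤ V.cl k := (cl_pos' hP k).le
  have hsg : (0 : ℝ) ≤ V.sg n := (sg_pos hP n).le
  have hka : 0 < ka V := ka_pos
  have hmono : ∀ {p : ℝ}, 0 < p → (V.cl k : ℝ) ^ p ≤ (V.w : ℝ) ^ p := fun hp =>
    Real.rpow_le_rpow hcl (cl_le' hP k) hp.le
  have hKs : ∀ p : ℝ, 0 < p → K * (V.cl k : ℝ) ^ p ≤ |K| * (V.w : ℝ) ^ p := by
    intro p hp
    calc K * (V.cl k : ℝ) ^ p ≤ |K| * (V.cl k : ℝ) ^ p :=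
          mul_le_mul_of_nonneg_right (le_abs_self K) (Real.rpow_nonneg hcl _)
      _ ≤ _ := mul_le_mul_of_nonneg_left (hmono hp) (abs_nonneg K)
  have hnn : K * (bud V).nn n k ≤ δ / 2 := by
    show K * (V.cl k : ℝ) ^ ka V ≤ δ / 2
    have h2 := hKs (ka V) hka
    rw [ka_eq] at h2 ⊢
    linarith
  have heps : (qq V n k).eps ≤ δ / 2 := by
    show (V.cl k : ℝ) ^ (ka V / 2) * (2 - V.sg n ^ ka V) ≤ δ / 2
    have h2 := hmono (p := ka V / 2) (by linarith)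
    have h3 : 0 ≤ V.sg n ^ ka V := Real.rpow_nonneg hsg _
    have h4 : (V.cl k : ℝ) ^ (ka V / 2) * (2 - V.sg n ^ ka V) ≤ (V.cl k : ℝ) ^ (ka V / 2) * 2 :=
      mul_le_mul_of_nonneg_left (by linarith) (Real.rpow_nonneg hcl _)
    rw [← ka_eq] at w1
    linarith
  have hrho : (qq V n k).rho ≤ δ / 2 := by
    show gr V (ka V / 4) n k ≤ δ / 2
    have h2 := (gr_bd V hth (p := ka V / 4) (by linarith) n k).2
    rw [← ka_eq] at w3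
    linarith
  have htht : (qq V n k).tht ≤ δ / 2 := by
    show gr V (1 / 400) n k ≤ δ / 2
    have h2 := (gr_bd V hth (p := 1 / 400) (by norm_num) n k).2
    linarith
  refine ⟨by linarith, by linarith, ?_, ?_, by linarith, ?_, ?_, ?_⟩
  · show gr V (1 / 20) n k ≤ δ
    have h2 := (gr_bd V hth (p := 1 / 20) (by norm_num) n k).2
    linarith
  · show (V.cl k : ℝ) ^ (1 / 8 : ℝ) ≤ δ
    have h2 := hmono (p := 1 / 8) (by norm_num)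
    linarith
  · show gr V (1 / 400) n k + (V.cl k : ℝ) ^ (1 / 16 : ℝ) ≤ δ
    have h2 := hmono (p := 1 / 16) (by norm_num)
    have h3 : gr V (1 / 400) n k ≤ δ / 2 := htht
    linarith
  · have h2 := hKs (1 / 8 - 1 / 200) (by norm_num)
    show K * (V.cl k : ℝ) ^ (1 / 8 - 1 / 200 : ℝ) ≤ δ
    linarith
  · have h2 := hKs (1 / 16 - 1 / 100) (by norm_num)
    show K * (V.cl k : ℝ) ^ (1 / 16 - 1 / 100 : ℝ) ≤ δ
    linarith

/-- the numbers of helper28 -/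
theorem nm (d : ℕ) (a c C : ℝ) (hc : 0 < c) (hC : 1 ≤ C) :
    Ev2 d a es c C fun V => ∀ n k, Nm (toE V c C) (bud V) n k := by
  have h1 := ev_thr d a c C (cpd d) (min (1 / 8) (1 / (4 * C))) (lt_min (by norm_num)
    (by positivity))
  refine (((budOk d a c C hc hC).and h1).and ev_good).imp fun V hV n k => ?_
  obtain ⟨⟨hB, h1⟩, hG⟩ := hV
  obtain ⟨h2, h3, _⟩ := h1 n k
  have m1 := min_le_left (1 / 8 : ℝ) (1 / (4 * C))
  have m2 := min_le_right (1 / 8 : ℝ) (1 / (4 * C))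
  obtain ⟨q1, q2, q3, q4, q5⟩ := hB.q n k
  refine
    { th := ⟨th_pos hG.toPre, by exact_mod_cast hB.th.2⟩
      c0 := hB.c0
      e0 := hB.e0
      D := ⟨hB.D0, hB.D1⟩
      inc := hB.inc n k
      q := ⟨q4, q4.trans q5, q2⟩
      sm := ⟨?_, ?_, ?_⟩ }
  · show (qq V n k).eps + (bud V).nn n k * cpd d ≤ 1 / 8
    rw [mul_comm]
    linarith
  · show (qq V n k).rho + (bud V).nn n k * cpd d ≤ 1 / 8
    rw [mul_comm]
    linarith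
  · show (qq V n k).rho + (bud V).nn n k * cpd d ≤ (1 - (1 - 1 / (2 * C))) / 2
    have h4 : (1 - (1 - 1 / (2 * C))) / 2 = 1 / (4 * C) := by
      field_simp
      ring
    rw [mul_comm, h4]
    linarith

end Pool.Agent.QDU.H61
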