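import Pool.Agent.Helper28_AHH.KilT
import Pool.Agent.Helper22_QDU.Zf
import Pool.Agent.Helper22_QDU.H28Kil
import Pool.Agent.Helper22_QDU.H28KilH
import Pool.Agent.Helper22_QDU.H30Dat
import Pool.Agent.Helper22_QDU.H38KPhi
import Pool.Agent.Helper22_QDU.H61Num
import Pool.Agent.Helper22_QDU.H61Zn
/-!
# AND2B (helper28): THE FIELD `kil`
-/

set_option autoImplicit false
set_option linter.unusedSectionVars false

open scoped BigOperators NNReal ENNReal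

noncomputable section

namespace Pool.Agent.QDU.H28

open Pool.Agent.AND2B
open Pool.Agent.AND2B.H28 hiding KilSStmt fhalf kilF kilST kilT

open Pool.Agent.AND.Num
open Pool.Agent.ANP (Cfg Att)
open Pool.Agent.AHH (toE bud Rl)
open Pool.Agent.AHH.H30 (clu Side cards cx Kz card_Q)
open Pool.Agent.QDU.H30 (ev_side)
open Pool.Agent.KL2

theorem dat_mono {d n μ k clu kn : ℕ} {c₁ K K' s e₀ lam J mm MM hK : ℝ} {Dn : ℕ → ℕ} (h : K ≤ K')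
    (hs : 0 < s) (H : AHH.H41.Dat d c₁ K s n Dn μ k clu kn e₀ lam J mm MM hK) :
    AHH.H41.Dat d c₁ K' s n Dn μ k clu kn e₀ lam J mm MM hK :=
  { he := H.he
    lam := H.lam
    hM := H.hM
    rho := H.rho
    clu := H.clu
    kn := H.kn
    zc := H.zc.trans (mul_le_mul_of_nonneg_right h (Real.rpow_nonneg hs.le _))
    J := H.J
    mm := H.mm
    MM := H.MM
    hK := H.hK }

theorem Kz_mono {d : ℕ} {th b : ℝ≥0} (h : th ≤ b) (hb : b < 1) : Kz d th ≤ Kz d b := by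
  unfold Kz Kd
  have := H61.gapip h hb (K := 3 ^ d) (p := 5 / 4) (by positivity) (by norm_num)
  linarith

/-- THE SECOND HALF -/
theorem kilST : KilSStmt := by
  intro d a c C hd ha hc hc' hC
  have hd0 : 0 < d := by omega
  have e1 := H61.ev_good (d := d) (a := a) (es := AHH.es) (c := c) (C := C)
  have e2 := H61.ev_c1 (d := d) (a := a) (es := AHH.es) (c := c) (C := C) (1 / 1000)
    (by norm_num)
  have e3 := H61.ev_thr d a c C 0 (1 / (8 * C)) (by positivity)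
  have e4 := ev_side d a c C hc hC
  have e5 := H61.ev_smallm (d := d) (a := a) (es := AHH.es) (c := c) (C := C)
    (fun th c₁ _ _ _ s => ∀ (n : ℕ) (Dn : ℕ → ℕ) (μ k clu kn : ℕ) (e₀ lam J mm MM hK : ℝ),
      AHH.H41.Dat d c₁ (Kz d th) s n Dn μ k clu kn e₀ lam J mm MM hK →
      KN1 (s * (c / 2)) (c / 2) lam (s ^ (1 / 10 : ℝ)) (s ^ (1 / 200 : ℝ)) (s ^ (1 / 100 : ℝ))
        (s ^ (5 * (d : ℝ))) (2 * C + 3)
        (J + 4 / (s * (c / 2)) *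
          Real.exp (-(s * (c / 2) / (8 * d) / 4 * ((2 ^ (k + 2) : ℕ) : ℝ))))
        (mm + 8 / (s * (c / 2)) *
          Real.exp (-(s * (c / 2) / (8 * d) / 4 * ((2 ^ (k + 2) : ℕ) : ℝ))))
        (8 / (s * (c / 2))) (s * (c / 2) / (8 * d) / 4) (s ^ (10 : ℝ)) (2 ^ (k + 2)))
    (fun th b _ _ _ _ s _ g2 g3 g4 h n Dn μ k clu kn e₀ lam J mm MM hK hD =>
      h n Dn μ k clu kn e₀ lam J mm MM hK (dat_mono (Kz_mono g2 g3) g4 hD))
    fun th c₁ _ _ _ _ _ _ _ => AHH.H41.kn1 d (c / 2) (2 * C + 3) c₁ (Kz d th) hd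
      (by positivity) (by positivity)
  have e6 := H61.ev_smallm (d := d) (a := a) (es := AHH.es) (c := c) (C := C)
    (fun th c₁ _ _ _ s => c₁ ≤ 1 / 1000 → ∀ (n : ℕ) (Dn : ℕ → ℕ) (μ k clu kn : ℕ)
      (e₀ lam J mm MM hK : ℝ),
      AHH.H41.Dat d c₁ (Kz d th) s n Dn μ k clu kn e₀ lam J mm MM hK →
      ∀ nQ nK : ℝ, 0 ≤ nQ → nQ ≤ s ^ (-(1 / 1000) : ℝ) → 0 ≤ nK → nK ≤ s ^ (-(6 / 5) : ℝ) →
      KN2 d n Dn μ k ⌊s ^ (-(8 / 5) : ℝ)⌋₊ ⌊s ^ (-(8 / 5) : ℝ)⌋₊ (clu + kn)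
        s (c / 2) (2 * C) e₀ lam (2 * C + 3) (s * (c / 2)) (s * (c / 2) / (8 * d))
        (s * (2 * C + 1)) nQ nK
        (16 * Real.exp (2 * (s * (c / 2) / (8 * d)) * Zc d n fun j => 2 * Dn j))
        (Real.exp (-(s ^ (-(1 / 2) : ℝ)))) mm MM hK
        (s ^ (1033 / 1000 : ℝ)) (s ^ (33 / 1000 : ℝ)) (s ^ (-(1 / 5) : ℝ))
        (s ^ (1024 / 1000 : ℝ)) (s ^ (24 / 1000 : ℝ)) (s ^ (-(201 / 1000) : ℝ)))
    (fun th b _ _ _ _ s _ g2 g3 g4 h h' n Dn μ k clu kn e₀ lam J mm MM hK hD =>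
      h h' n Dn μ k clu kn e₀ lam J mm MM hK (dat_mono (Kz_mono g2 g3) g4 hD))
    fun th c₁ _ _ _ _ _ _ _ => by
      by_cases h : c₁ ≤ 1 / 1000
      · exact (AHH.H41.kn2 d (c / 2) (2 * C) (2 * C + 3) c₁ (Kz d th) hd (by positivity)
          (by positivity) (by positivity) h).mono fun s _ h _ => h
      · exact (small_le 1 one_pos).mono fun s _ _ h' => absurd h' h
  have e7 := H61.ev_small (d := d) (a := a) (es := AHH.es) (c := c) (C := C)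
    (fun _ _ _ _ s => ∀ (w rho : ℝ) (k clu kn rk : ℕ), s ≤ w → w ≤ 1 → 0 ≤ rho →
      rho ≤ 1 / 8 → rho ≤ 1 / (8 * C) → (clu : ℝ) ≤ s ^ (-(1 / 1000) : ℝ) →
      (kn : ℝ) ≤ s ^ (-(6 / 5) : ℝ) → (rk : ℝ) ≤ s ^ (-(8 / 5) : ℝ) →
      s ^ (-3 : ℝ) ≤ ((2 ^ (k + 2) : ℕ) : ℝ) → ∃ Jc Jr : ℕ,
        KN3 d (clu + kn) Jc Jr (2 ^ (k + 2)) rk (c / 2) (1 - 1 / (2 * C))
          (c * w ^ (8 * AHH.es - 1)) (4 * C ^ 3 / w) rho (s ^ (1 / 100 : ℝ))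
          (s ^ (5 * (d : ℝ)))
          (s * (c / 2)) (s * (c / 2) / (8 * d)) (Real.exp (-(s ^ (-(1 / 2) : ℝ)))) clu
          (s ^ (1033 / 1000 : ℝ)) (s ^ (33 / 1000 : ℝ)) (s ^ (-(1 / 5) : ℝ))
          (s ^ (1024 / 1000 : ℝ)) (s ^ (24 / 1000 : ℝ)) (s ^ (-(201 / 1000) : ℝ))
          (s ^ (33 / 2000 : ℝ)) (s ^ (31 / 2000 : ℝ)))
    fun _ _ _ _ _ _ _ _ _ => (AHH.H61.kn3 d c C hd hc hc' hC).mono
      fun s _ h w rho k clu kn rk h1 h2 h3 h4 h5 h6 h7 h8 h9 =>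
        h w rho clu (2 ^ (k + 2)) clu kn rk h1 h2 h3 h4 h5 (Nat.cast_nonneg _) h6 h6 h7 h8 h9
  refine ((((((e1.and e2).and e3).and e4).and e5).and e6).and e7).imp ?_
  rintro V ⟨⟨⟨⟨⟨⟨hG, hc₁⟩, e3⟩, e4⟩, e5⟩, e6⟩, e7⟩ n T₀ T run₀ run P Q v T' hK hF -
  have hV : V.Pre a := hG.toPre
  obtain ⟨k, hS⟩ := e4 n hK.n1 hK.nN
  obtain ⟨c1, c2, c3, c4⟩ := cards hS hK hF
  have hs := hS.s0
  have hs1 := hS.s1
  have hD := hS.dat (V.sg (n + 1) ^ (3 / 25 : ℝ)) (V.sg (n + 1) ^ (1 / 30 : ℝ))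
    (V.sg (n + 1) ^ (-(1 / 5) : ℝ)) (V.sg (n + 1) ^ (1 / 10 : ℝ)) (by positivity) le_rfl
    (by positivity) le_rfl le_rfl (by positivity) le_rfl
  have hρ : V.G.ρ n = 2 ^ (k + 2) := by
    show 2 ^ V.r n = _
    rw [hS.hr]
  have hN1 := e5 (V.sg (n + 1)) hs (AHH.H61.sg_le hV _) n V.Dn V.μ k (clu V n) (V.Kn n) V.e₀
    ((bud V).q n (V.kk (n + 1))).lam _ _ _ _ hD
  have hcl : (clu V n : ℝ) ≤ V.sg (n + 1) ^ (-(1 / 1000) : ℝ) :=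
    hS.hclu.trans (Real.rpow_le_rpow_of_exponent_ge hs (by linarith) (by linarith))
  have hN2 := e6 (V.sg (n + 1)) hs (AHH.H61.sg_le hV _) hc₁ n V.Dn V.μ k (clu V n) (V.Kn n)
    V.e₀ ((bud V).q n (V.kk (n + 1))).lam _ _ _ _ hD (clu V n)
    (V.sg (n + 1) ^ (-(6 / 5) : ℝ)) (Nat.cast_nonneg _) hcl (by positivity) le_rfl
  have hrho := (e3 n (V.kk (n + 1))).2.1
  rw [zero_mul, add_zero] at hrho
  have hrho0 : 0 ≤ (AHH.qq V n (V.kk (n + 1))).rho := by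
    refine le_trans ?_ (AHH.gr_bd V hV.th.2.le (p := AHH.ka V / 4)
      (by have := AHH.H61.ka_pos (V := V); positivity) n (V.kk (n + 1))).1
    positivity
  have hrho8 : (AHH.qq V n (V.kk (n + 1))).rho ≤ 1 / 8 := by
    refine hrho.trans ?_
    rw [one_div_le_one_div (by positivity) (by norm_num)]
    linarith
  have hdr : V.sg (n + 1) ^ (-3 : ℝ) ≤ ((2 ^ (k + 2) : ℕ) : ℝ) := by
    push_cast
    exact hD.rho
  obtain ⟨Jc, Jr, hN3⟩ := e7 (V.sg (n + 1)) hs (AHH.H61.sg_le hV _) V.w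
    ((bud V).q n (V.kk (n + 1))).rho k (clu V n) (V.Kn n) (rkn (V.sg (n + 1)))
    (AHH.H61.sg_le hV _) hS.w1 hrho0 hrho8 hrho hcl hS.hkn
    (Nat.floor_le (by positivity)) hdr
  rw [← hρ] at hN1 hN3
  exact Cx.kil2 (V := toE V c C) (b := bud V) hd (cx hV hG.e0 hc hK hF) (k := k)
    (t := rkn (V.sg (n + 1))) (nS := clu V n + V.Kn n) (Jc := Jc) (Jr := Jr) hN1 hN2 hN3
    (by positivity) hS.hr hS.eps c1 c2 (by exact_mod_cast card_Q hK) c4 hS.sum hS.hZ hS.hCg hS.icR hS.lR hS.yR hS.phi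

/-- THE FIELD `kil` -/
theorem kilT : KilF := kilF kilST

end Pool.Agent.QDU.H28
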