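import Pool.Agent.Helper54_AHH.IniF
import Pool.Agent.Helper22_QDU.Zf

/-!
# QDU: the field `ini`, uniformly
-/

set_option autoImplicit false

open scoped BigOperators NNReal Matrix

noncomputable section

namespace Pool.Agent.QDU.H54

open Pool.Agent.AHH hiding BegF FinF FloF IniF KilF MmonF OutF RbegF RfinF RmonF ana0
open Pool.Agent.AHH.H54 hiding ini
open Pool.Agent.BED (Tor)
open Pool.Agent.AND2B (Prd)

/-- field INI -/
theorem ini : IniF := by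
  intro d a c C hd ha hc hc' hC
  have e1 : (0 : ℝ) < es := by unfold es; norm_num
  have e2 : es < 1 / 12 := by unfold es; norm_num
  have e3 : (1 : ℝ) / 18000 < es := by unfold es; norm_num
  refine Ev2.intro 1 1 one_pos one_pos ?_
  intro b c₁ C₁ α J hb hc₁ hc₁' hα
  obtain ⟨w₁, hw₁, hw₁'⟩ := exists_small 2 es e1
  obtain ⟨w₂, hw₂, hw₂'⟩ := exists_small 4 (1 / 12 - es) (by linarith only [e2])
  obtain ⟨w₃, hw₃, hw₃'⟩ := exists_small 2 (es - 1 / 18000) (by linarith only [e3])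
  refine ⟨1, min 1 (min w₁ (min w₂ w₃)), one_pos, by positivity, ?_⟩
  intro V hV _ _ hVc₁ hVC₁ hVα hVJ hVβ hVw
  have hw0 : 0 < V.w := hV.w
  have hw0' : (0 : ℝ) < V.w := by exact_mod_cast hw0
  have g1 : (V.w : ℝ) ≤ 1 := hVw.trans (min_le_left _ _)
  have g2 : (V.w : ℝ) ≤ w₁ := hVw.trans ((min_le_right _ _).trans (min_le_left _ _))
  have g3 : (V.w : ℝ) ≤ w₂ :=
    hVw.trans ((min_le_right _ _).trans ((min_le_right _ _).trans (min_le_left _ _)))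
  have g4 : (V.w : ℝ) ≤ w₃ :=
    hVw.trans ((min_le_right _ _).trans ((min_le_right _ _).trans (min_le_right _ _)))
  refine ⟨c * V.w, by positivity, ?_⟩
  intro e₀ m ζ he₀ he₀' hG
  have hst := hG.st
  have hth1' : V.th ≤ 1 := hV.th.2.le
  obtain ⟨U, hU⟩ : ∃ U : AND2B.Env d, U = { V with e₀ := e₀, m := m, ζ := ζ } := ⟨_, rfl⟩
  rw [← hU] at hst ⊢
  have hUw : U.w = V.w := by rw [hU]
  have hUth : U.th ≤ 1 := by rw [hU]; exact hth1'
  have hUα : U.α = α := by rw [hU]; exact hVα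
  have hUe : U.e₀ = e₀ := by rw [hU]
  have hUe0 : 0 < U.e₀ := by rw [hUe]; exact he₀
  have hUkk : U.kk 0 = 0 := by rw [hU]; exact hV.sc.k0
  have hsg : U.sg 0 = (U.w : ℝ) := by
    rw [sg_eq, hUkk, cl_zero]
  have hw : 0 < U.w := by rw [hUw]; exact hw0
  rw [← hUw] at hw0' g1 g2 g3 g4 he₀'
  rw [← hUe] at he₀'
  have hrp : ∀ p : ℝ, 0 ≤ p → (U.w : ℝ) ^ p ≤ 1 := fun p hp =>
    Real.rpow_le_one hw0'.le g1 hp
  have hgr : ∀ p : ℝ, 0 < p → (U.w : ℝ) ^ p ≤ gr U p 0 0 := fun p hp => (gr_bd U hUth hp 0 0).1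
  have hgr0 : ∀ p : ℝ, 0 < p → 0 ≤ gr U p 0 0 := fun p hp =>
    (Real.rpow_nonneg hw0'.le p).trans (hgr p hp)
  have hka0 : 0 < ka U := by unfold ka; positivity
  have hka : ka U ≤ 1 / 9000 := by
    unfold ka
    rw [hUα]
    have h2 : (2 : ℝ) ≤ α := by exact_mod_cast hα
    apply one_div_le_one_div_of_le (by norm_num)
    nlinarith only [h2]
  have hlam : (U.w : ℝ) ^ (-(2 / 3 + es)) ≤ (qq U 0 0).lam := by
    show (U.w : ℝ) ^ (-(2 / 3 + es)) ≤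
      1 / 4 * (U.cl 0 : ℝ) ^ (-(3 / 4) : ℝ) * (2 - U.sg 0 ^ (1 / 400 : ℝ))
    rw [cl_zero, hsg]
    have h1 := hw₂' _ hw0' g3
    have h2 : (U.w : ℝ) ^ (-(2 / 3 + es)) = (U.w : ℝ) ^ (1 / 12 - es) * (U.w : ℝ) ^ (-(3 / 4) : ℝ) := by
      rw [← Real.rpow_add hw0']
      congr 1
      ring
    have h3 := hrp (1 / 400) (by norm_num)
    have h4 : 0 < (U.w : ℝ) ^ (-(3 / 4) : ℝ) := Real.rpow_pos_of_pos hw0' _
    rw [h2]
    calc (U.w : ℝ) ^ (1 / 12 - es) * (U.w : ℝ) ^ (-(3 / 4) : ℝ)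
        ≤ 1 / 4 * (U.w : ℝ) ^ (-(3 / 4) : ℝ) :=
          mul_le_mul_of_nonneg_right (by linarith only [h1]) h4.le
      _ = 1 / 4 * (U.w : ℝ) ^ (-(3 / 4) : ℝ) * 1 := by ring
      _ ≤ _ := mul_le_mul_of_nonneg_left (by linarith only [h3]) (by positivity)
  have htht : (U.w : ℝ) ^ (1 / 2 - es) ≤ (qq U 0 0).tht := by
    show (U.w : ℝ) ^ (1 / 2 - es) ≤ gr U (1 / 400) 0 0
    refine le_trans ?_ (hgr (1 / 400) (by norm_num))
    exact Real.rpow_le_rpow_of_exponent_ge hw0' g1 (by linarith only [e2])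
  have heps : 2 * (U.w : ℝ) ^ es ≤ (qq U 0 0).eps := by
    show 2 * (U.w : ℝ) ^ es ≤ (U.cl 0 : ℝ) ^ (ka U / 2) * (2 - U.sg 0 ^ ka U)
    rw [cl_zero, hsg]
    have h1 := hw₃' _ hw0' g4
    have h2 : (U.w : ℝ) ^ es = (U.w : ℝ) ^ (es - 1 / 18000) * (U.w : ℝ) ^ ((1 : ℝ) / 18000) := by
      rw [← Real.rpow_add hw0']
      congr 1
      ring
    have h3 : (U.w : ℝ) ^ ((1 : ℝ) / 18000) ≤ (U.w : ℝ) ^ (ka U / 2) :=
      Real.rpow_le_rpow_of_exponent_ge hw0' g1 (by linarith only [hka])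
    have h4 := hrp (ka U) hka0.le
    have h5 : 0 < (U.w : ℝ) ^ (ka U / 2) := Real.rpow_pos_of_pos hw0' _
    have h6 : 0 < (U.w : ℝ) ^ ((1 : ℝ) / 18000) := Real.rpow_pos_of_pos hw0' _
    calc 2 * (U.w : ℝ) ^ es
        = 2 * (U.w : ℝ) ^ (es - 1 / 18000) * (U.w : ℝ) ^ ((1 : ℝ) / 18000) := by rw [h2]; ring
      _ ≤ 1 * (U.w : ℝ) ^ ((1 : ℝ) / 18000) := mul_le_mul_of_nonneg_right h1 h6.le
      _ ≤ (U.w : ℝ) ^ (ka U / 2) * 1 := by linarith only [h3]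
      _ ≤ _ := mul_le_mul_of_nonneg_left (by linarith only [h4]) h5.le
  have hws : (U.w : ℝ) ^ es ≤ 1 / 2 := by
    have h1 := hw₁' _ hw0' g2
    linarith only [h1]
  have key := ini_st (V := toE U c C) (qq U 0 0) (w := U.w) (es := es) (c := c) (C := C) (ζ := U.ζ)
    (by rw [hU] at hst ⊢; exact hst) hw hUe0 he₀' hc hc' hC hws rfl
    (by show c / 2 ≤ c; linarith only [hc]) (by show C ≤ 2 * C; linarith only [hC])
    (by show 0 ≤ c * (U.w : ℝ) ^ (8 * es - 1); positivity) le_rfl le_rfl le_rfl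
    (hgr0 _ (by norm_num)) (Real.rpow_nonneg (NNReal.coe_nonneg _) _) hlam htht heps
    (hgr0 _ (by positivity))
  show St (toE U c C) (bud U) 0 0 ⟨fun _ => 0, fun _ => U.cl 0, fun _ => U.m⟩ Finset.univ
  refine ⟨?_, ?_, ?_⟩
  · show StN (toE U c C) (qq U 0 0) (U.cl 0) ⟨fun _ => 0, fun _ => U.cl 0, fun _ => U.m⟩
      Finset.univ
    rw [cl_zero]
    exact key
  · intro m hm
    omega
  · refine ⟨fun _ => ∅, fun x hx => ?_, fun j B => ?_⟩
    · have hx' : U.cl 0 = 0 := hx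
      rw [cl_zero] at hx'
      exact absurd hx' hw.ne'
    · rw [Finset.empty_inter, Finset.card_empty]
      exact Nat.zero_le _

end Pool.Agent.QDU.H54
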