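import Pool.Agent.Helper54_AHH.IniV
import Pool.Agent.Helper22_QDU.H54IniF

/-!
# QDU: the start with a revealed potential, uniformly
-/

set_option autoImplicit false
set_option linter.unusedSectionVars false

open scoped BigOperators NNReal Matrix

noncomputable section

namespace Pool.Agent.QDU.H54

open Pool.Agent.AHH hiding BegF FinF FloF IniF KilF MmonF OutF RbegF RfinF RmonF ana0
open Pool.Agent.AHH.H54 hiding ini iniV
open Pool.Agent.BED (Tor)
open Pool.Agent.AND2B (Prd net kap Vef)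
open Pool.Agent.ANP (Cfg)
open Pool.Agent.LE.QD (rs)
open Pool.Agent.LTG (Fm sT tT qd)
open Pool.Agent.AFJ (EE)
open Pool.Agent.ABY (vir)

theorem iniV : Fld2 Z es IniVP := by
  intro d a c C hd ha hc hc' hC
  have hg : Ev2 d a es c C fun V => V.Good a es c C ∧ (V.w : ℝ) ≤ 1 := by
    refine Ev2.intro' 1 1 one_pos one_pos ?_
    intro b c₁ C₁ α J _ _ _ _
    exact ⟨1, 1, one_pos, one_pos, fun V hV _ _ _ _ _ _ _ hw => ⟨hV, hw⟩⟩
  refine ((ini d a c C hd ha hc hc' hC).and hg).imp ?_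
  rintro V ⟨hini, hV, hw1⟩ V₀ hV₀
  have hini' : St (toE V c C) (bud V) 0 0 ⟨fun _ => 0, fun _ => V.cl 0, fun _ => V.m⟩
      Finset.univ := hini
  obtain ⟨k1, k2, k3⟩ := hini'
  have hw : 0 < V.w := hV.w
  have hw0 : (0 : ℝ) < V.w := by exact_mod_cast hw
  have hth1 : V.th ≤ 1 := hV.th.2.le
  have hst := hV.st
  rw [show (toE V c C).cl 0 = V.w from cl_zero V] at k1
  have k1' : StN (toE V c C) (qq V 0 0) V.w (T0 V.w V.m) Finset.univ := by
    have h1 : (fun _ : V.X => V.cl 0) = fun _ => V.w := by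
      funext _
      exact cl_zero V
    have h2 : (T0 V.w V.m : Cfg V.X) = ⟨fun _ => 0, fun _ => V.cl 0, fun _ => V.m⟩ := by
      rw [h1]
      rfl
    rw [h2]
    exact k1
  have key := stN_shift (toE V c C) (qq V 0 0) hw hV₀
    (fun x => by
      show net V.E V.e₀ (T0 V.w V.m) x x = V.m
      rw [net0 V.E V.e₀ V.w V.m V.ζ hst.hz, hst.hm x])
    (by
      show (V.w : ℝ) ≤ gr V (1 / 20) 0 0
      refine le_trans ?_ (gr_bd V hth1 (by norm_num) 0 0).1
      conv_lhs => rw [← Real.rpow_one (V.w : ℝ)]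
      exact Real.rpow_le_rpow_of_exponent_ge hw0 hw1 (by norm_num))
    (by
      show (V.w : ℝ) ≤ (V.cl 0 : ℝ) ^ (1 / 8 : ℝ)
      rw [cl_zero]
      conv_lhs => rw [← Real.rpow_one (V.w : ℝ)]
      exact Real.rpow_le_rpow_of_exponent_ge hw0 hw1 (by norm_num))
    (by
      show ‖V.m‖ + V.w ≤ 2 * C
      have h1 := hst.hc.2
      linarith only [h1, hw1, hC]) k1'
  have h3 : (⟨V₀, fun _ => V.cl 0, fun x => V.m + ((V₀ x / V.w : ℝ) : ℂ)⟩ : Cfg V.X) =
      TV V.w V.m V₀ := by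
    unfold TV
    rw [cl_zero]
  show St (toE V c C) (bud V) 0 0
    ⟨V₀, fun _ => V.cl 0, fun x => V.m + ((V₀ x / V.w : ℝ) : ℂ)⟩ Finset.univ
  rw [h3]
  refine ⟨?_, ?_, ?_⟩
  · rw [show (toE V c C).cl 0 = V.w from cl_zero V]
    exact key
  · intro m hm
    omega
  · refine ⟨fun _ => ∅, fun x hx => ?_, fun j B => ?_⟩
    · have hx' : V.w = 0 := hx
      exact absurd hx' hw.ne'
    · rw [Finset.empty_inter, Finset.card_empty]
      exact Nat.zero_le _

end Pool.Agent.QDU.H54
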