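import Pool.Agent.Helper54_AHH.Sums
import Pool.Agent.Helper22_QDU.Zf
import Pool.Agent.Helper22_QDU.H61Num
import Pool.Agent.Helper22_QDU.H61Zn
/-!
# AND2B (MP_1906c1_mp): the sums of the numbers of dead sites (fields `fin` and `rfin`)
-/

set_option autoImplicit false

open scoped BigOperators NNReal

noncomputable section

namespace Pool.Agent.QDU.H54

open Pool.Agent.AHH hiding BegF FinF FloF IniF KilF MmonF OutF RbegF RfinF RmonF ana0
open Pool.Agent.AHH.H54 hiding sums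

open Finset

open Pool.Agent.AND.Num
open Pool.Agent.AHH.H61 hiding budOk ev_be ev_c1 ev_e0 ev_good ev_small ev_small_be ev_th ev_thr nm
open Pool.Agent.QDU.H61

/-- THE TWO SUMS OF `WtsStmt` -/
theorem sums (d : ℕ) (a c C : ℝ) :
    Ev2 d a es c C fun V => ∀ m ≤ V.N + 1,
      ∑ j ∈ range m, (3 ^ d * V.Dn j : ℝ) / 2 ^ V.l j ≤ 1 / 4 ∧
      ∀ s : ℝ, 0 < s → s ≤ V.sg m →
        2 + 4 * ∑ j ∈ range m, (3 ^ d * V.Dn j : ℝ) ≤ s ^ (-2 : ℝ) := by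
  have h1 : Ev2 d a es c C fun V => ∀ s : ℝ, 0 < s → s ≤ V.w →
      (2 * s ^ (0 : ℝ) ≤ 1 / 2 * s ^ (-2 : ℝ) ∧
      4 * (3 ^ d / (1 - (V.th : ℝ))) * s ^ (-(5 / 4) : ℝ) ≤ 1 / 2 * s ^ (-2 : ℝ)) :=
    ev_smallm (fun th _ _ _ _ s => 2 * s ^ (0 : ℝ) ≤ 1 / 2 * s ^ (-2 : ℝ) ∧
      4 * (3 ^ d / (1 - (th : ℝ))) * s ^ (-(5 / 4) : ℝ) ≤ 1 / 2 * s ^ (-2 : ℝ))
      (fun th b _ _ _ _ s _ h2 h3 h4 h => ⟨h.1, (mul_le_mul_of_nonneg_right
        (mul_le_mul_of_nonneg_left (gapi h2 h3 (by positivity)) (by norm_num))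
        (Real.rpow_nonneg h4.le _)).trans h.2⟩)
      fun th _ _ _ _ _ _ _ _ =>
        (small_pow' 2 (1 / 2) _ _ (by norm_num) (by norm_num)).and
          (small_pow' (4 * (3 ^ d / (1 - (th : ℝ)))) (1 / 2) _ _ (by norm_num) (by norm_num))
  refine (h1.and ev_good).imp fun V hV m hm => ?_
  obtain ⟨h1, hG⟩ := hV
  have hP : V.Pre a := hG.toPre
  refine ⟨?_, fun s hs hsm => ?_⟩
  · refine (sum_le_sum_of_subset_of_nonneg (range_mono (show m ≤ V.N + 2 by omega))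
      fun i _ _ => by positivity).trans hP.sc.ds
  · obtain ⟨g1, g2⟩ := h1 s hs (hsm.trans (sg_le hP m))
    rw [Real.rpow_zero] at g1
    have h2 := dsum hP m hm
    have hth1 : (V.th : ℝ) < 1 := by exact_mod_cast hP.th.2
    have h1th : 0 < 1 - (V.th : ℝ) := by linarith only [hth1]
    have h3 : V.sg m ^ (-(5 / 4) : ℝ) ≤ s ^ (-(5 / 4) : ℝ) :=
      Real.rpow_le_rpow_of_nonpos hs hsm (by norm_num)
    have h4 := mul_le_mul_of_nonneg_left h3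
      (show (0 : ℝ) ≤ 3 ^ d / (1 - (V.th : ℝ)) by positivity)
    linarith only [g1, g2, h2, h4]

end Pool.Agent.QDU.H54
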