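import Pool.Agent.Helper54_AHH.Rfin
import Pool.Agent.Helper22_QDU.Zf
import Pool.Agent.Helper22_QDU.H54Sums
import Pool.Agent.Helper22_QDU.H61Num
import Pool.Agent.Helper22_QDU.H61RegN
import Pool.Agent.Helper22_QDU.H61Zn
/-!
# AND2B (MP_1906c1_mp): the field `rfin`
-/

set_option autoImplicit false

open scoped BigOperators NNReal Matrix

noncomputable section

namespace Pool.Agent.QDU.H54

open Pool.Agent.AHH hiding BegF FinF FloF IniF KilF MmonF OutF RbegF RfinF RmonF ana0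
open Pool.Agent.AHH.H54 hiding StpR ev_phi rfin sums

open Pool.Agent.BED (Tor)
open Pool.Agent.AND2B (net kap Viol Prd)
open Pool.Agent.ANP (Cfg Geo Fc)
open Pool.Agent.AND.Num
open Pool.Agent.AHH.H61 hiding bse_f bse_r budOk ev_be ev_c1 ev_e0 ev_good ev_small ev_small_be ev_th ev_thr im_G0 nm ratio regH
open Pool.Agent.QDU.H61

open Pool.Agent.ABY (CmpStmt VexStmt VfrStmt)

/-- the step inequalities of the release phases -/
def StpR : Prop :=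
  ∀ (d : ℕ) (a c C : ℝ), 3 ≤ d → 0 < a → 0 < c → c ≤ 1 / 2 → 1 ≤ C → ∀ Cr Cw : ℝ, 1 ≤ Cr →
    1 ≤ Cw → Ev2 d a es c C fun V => ∀ n ≤ V.N,
      Stp (q1r V n) (qq V (n + 1) (V.kk (n + 1))) (V.cl (V.kk (n + 1)))
        (Cr * (1 + Real.log (Cw * (V.cl (V.kk (n + 1)) : ℝ) ^ (-Cw))) * (q1r V n).mis)

/-- the potentials of the clusters are at most `2` -/
theorem ev_phi (d : ℕ) (a c C : ℝ) :
    Ev2 d a es c C fun V => ∀ n ≤ V.N, ∀ P x, Phi V.G ((bud V).tau n) n P x ≤ 2 := by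
  have h1 : Ev2 d a es c C fun V => ∀ s : ℝ, 0 < s → s ≤ V.w →
      12 * ((d : ℝ) + 1) * s ^ (-(4 : ℝ)) ≤ s ^ (-(5 : ℝ)) :=
    ev_small (fun _ _ _ _ s => 12 * ((d : ℝ) + 1) * s ^ (-(4 : ℝ)) ≤ s ^ (-(5 : ℝ)))
      fun th _ _ _ _ _ _ _ _ => small_pow (12 * ((d : ℝ) + 1)) _ _ (by norm_num)
  refine (h1.and ev_good).imp fun V hV n hn P x => ?_
  obtain ⟨h1, hG⟩ := hV
  have hP : V.Pre a := hG.toPre
  have hs := sg_pos hP (n + 1)
  have h2 := h1 _ hs (sg_le hP (n + 1))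
  refine Phi_le_Gt d V.μ V.J V.N V.l V.r n ((bud V).tau n) (Real.rpow_nonneg hs.le _) ?_ P x
  have h3 : (2 ^ V.r n : ℝ) ≤ V.sg (n + 1) ^ (-(4 : ℝ)) := hP.sc.rup n hn
  have h4 : 12 * ((d : ℝ) + 1) * 2 ^ V.r n ≤ V.sg (n + 1) ^ (-(5 : ℝ)) :=
    (mul_le_mul_of_nonneg_left h3 (by positivity)).trans h2
  have h5 : (12 * ((d : ℝ) + 1) * 2 ^ V.r n) ^ d ≤ (V.sg (n + 1) ^ (-(5 : ℝ))) ^ d :=
    pow_le_pow_left₀ (by positivity) h4 d
  have h6 : (V.sg (n + 1) ^ (-(5 : ℝ))) ^ d = V.sg (n + 1) ^ (-(5 * (d : ℝ))) := by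
    rw [← Real.rpow_natCast, ← Real.rpow_mul hs.le]
    congr 1
    ring
  have h7 : (bud V).tau n = V.sg (n + 1) ^ (5 * (d : ℝ)) := rfl
  rw [h7]
  rw [h6] at h5
  calc V.sg (n + 1) ^ (5 * (d : ℝ)) * (12 * ((d : ℝ) + 1) * 2 ^ V.r n) ^ d
      ≤ V.sg (n + 1) ^ (5 * (d : ℝ)) * V.sg (n + 1) ^ (-(5 * (d : ℝ))) :=
        mul_le_mul_of_nonneg_left h5 (Real.rpow_nonneg hs.le _)
    _ = 1 := by
        rw [← Real.rpow_add hs]
        simp

/-- THE FIELD `rfin` -/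
theorem rfin (hW : WtsStmt) (hSt : StpR) : RfinF := by
  intro d a c C hd ha hc hc2 hC
  have hC0 : 0 < C := by linarith only [hC]
  obtain ⟨Cr, hCr, hreg⟩ := H72.regT (c / 2) (2 * C) (by positivity) (by linarith only [hc2])
    (by linarith only [hC])
  obtain ⟨Cw, hCw, hwts⟩ := hW d (c / 2) (2 * C) hd (by positivity) (by linarith only [hc2])
    (by linarith only [hC])
  have h2 : Ev2 d a es c C fun V => ∀ s : ℝ, 0 < s → s ≤ V.w → s ≤ 1 :=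
    ev_small (fun _ _ _ _ s => s ≤ 1) fun _ _ _ _ _ _ _ _ _ => small_le 1 one_pos
  refine (((((ev_good.and h2).and ((budOk d a c C hc hC).and (ev_phi d a c C))).and
    ((bse_r d a c C hc hc2 hC).and (regH d a c C hc hc2 hC))).and
    ((hSt d a c C hd ha hc hc2 hC Cr Cw hCr hCw).and (sums d a c C))).and
    (im_G0 d a c C hC)).imp fun V hV => ?_
  obtain ⟨⟨⟨⟨⟨hG, hw1⟩, hB, hphi⟩, hbse, hregh⟩, hstp, hsum⟩, him⟩ := hV
  have hP : V.Pre a := hG.toPre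
  have hclA : Antitone V.cl := fun j k hjk => cl_anti V hP.th.2.le hjk
  intro n T₀ run₀ P T run run' hn _ _ hS₀ hF₀ hF hR hsub hF'
  have hS₀' : St (toE V c C) (bud V) n (V.kk (n + 1)) T₀ run₀ := hS₀
  have hR' : Rl (toE V c C) (bud V) n T₀ run₀ P T run := hR
  -- fewer running sites
  have hFn : Fc V.G V.kk V.cl V.Dn n (V.kk (n + 1)) ∅ T run' :=
    fc_sub hclA (fun m hm => (kk_mono hP (by omega))) hF hsub
  have hR1 : Rl (toE V c C) (bud V) n T₀ run₀ P T run' :=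
    H16.rmon_field ABY.H10.cmp ABY.H82.vex ABY.H13.vfr hB n T₀ run₀ P P T run run' le_rfl hsub
      hF hFn hR'
  obtain ⟨i1, i2, i3, i4, _⟩ := hB.icR n
  have hS1 : StN (toE V c C) (q1r V n) ((toE V c C).cl ((toE V c C).kk (n + 1))) T run' :=
    H28.rfa hB.c0 ⟨hB.D0, hB.D1⟩ ⟨i1, i2, i3, i4⟩ (hB.q n _).2.1 (fun x => hphi n hn P x) hR1
      le_rfl le_rfl le_rfl le_rfl le_rfl le_rfl
  -- the clock
  obtain ⟨s, hs⟩ : ∃ s : ℝ, s = (V.cl (V.kk (n + 1)) : ℝ) := ⟨_, rfl⟩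
  have hs0 : 0 < s := by
    rw [hs]
    exact sg_pos hP (n + 1)
  have hs1 : s ≤ 1 := by
    refine hw1 s hs0 ?_
    rw [hs]
    exact sg_le hP (n + 1)
  have hS2 : StN (toE V c C) (q1r V n) s T run' := by
    rw [hs]
    exact hS1
  have hrs : ∀ x ∈ run', (T.s x : ℝ) = s := fun x hx => by
    have := hF'.runs x hx
    rw [if_neg (Finset.notMem_empty x)] at this
    rw [this, hs]
  have hall : ∀ x, T.s x = 0 ∨ s ≤ T.s x := fun x => by
    by_cases hx : x ∈ run'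
    · exact Or.inr (hrs x hx).ge
    · rcases hF'.rest x hx with h | ⟨h, _⟩
      · exact Or.inl h
      · rw [if_neg (Finset.notMem_empty x)] at h
        refine Or.inr ?_
        rw [hs]
        exact_mod_cast h
  obtain ⟨dd, hdd, hcard⟩ := hF.dens
  have hdd' : ∀ x, T.s x = 0 → ∃ j < n + 1, x ∈ dd j := fun x hx => by
    obtain ⟨j, hj, hxj⟩ := hdd x hx
    exact ⟨j, Nat.lt_succ_of_le hj, hxj⟩
  obtain ⟨s1, s2⟩ := hsum (n + 1) (by omega)
  have hb := hbse n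
  have hstp' := hstp n hn
  rw [← hs] at hstp'
  have hrh := hregh (n + 1) (V.kk (n + 1)) (q1r V n) s _ hs0 hb hstp'
  have hwt : Wts (toE V c C) T run' s (1 / 16) (Cw * s ^ (-Cw)) :=
    hwts V (toE V c C) hP.sc.lm rfl hG.e0 rfl rfl T run' s (q1r V n).del (n + 1) dd hs0 hs1 hrs
      hall hS2.gau (fun x hx => (hS2.mis x hx).trans hrh.mis0.2) hdd' hcard s1
      (s2 s hs0 hs.le)
  have hN1 : 1 ≤ Cw * s ^ (-Cw) := by
    have h3 : 1 ≤ s ^ (-Cw) := Real.one_le_rpow_of_pos_of_le_one_of_nonpos hs0 hs1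
      (by linarith only [hCw])
    calc (1 : ℝ) = 1 * 1 := by ring
      _ ≤ Cw * s ^ (-Cw) := mul_le_mul hCw h3 zero_le_one (by linarith only [hCw])
  obtain ⟨m, hm⟩ := hreg d (2 ^ V.μ) (toE V c C) (q1r V n) (qq V (n + 1) (V.kk (n + 1))) s
    (Cw * s ^ (-Cw)) T run' rfl rfl hN1 hrh hS2 hrs (fun x _ => him x) hwt
  refine ⟨m, ?_⟩
  show St (toE V c C) (bud V) (n + 1) (V.kk (n + 1)) (T.rg m) run'
  refine ⟨?_, ?_, ?_⟩
  · rw [hs] at hm
    exact hm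
  · intro m' _ x _ y _
    rcases hall y with h | h
    · exact Or.inl h
    · refine Or.inr ?_
      rw [hs] at h
      exact_mod_cast h
  · exact ⟨dd, hdd', hcard⟩

end Pool.Agent.QDU.H54
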