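import Pool.Agent.Helper61_AHH.StpR
import Pool.Agent.Helper22_QDU.Zf
import Pool.Agent.Helper22_QDU.H61Num
import Pool.Agent.Helper22_QDU.H61RegN
import Pool.Agent.Helper22_QDU.H61Zn
/-!
# AND2B (MP_1906c1_mp): the release step of the budget
-/

set_option autoImplicit false

open scoped BigOperators NNReal

noncomputable section

namespace Pool.Agent.QDU.H61

open Pool.Agent.AHH hiding BegF FinF FloF IniF KilF MmonF OutF RbegF RfinF RmonF ana0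
open Pool.Agent.AHH.H61 hiding bse_f bse_r budOk ev_be ev_c1 ev_e0 ev_good ev_small ev_small_be ev_th ev_thr im_G0 nm ratio regH stp_r

open Pool.Agent.BED (Tor)

open Pool.Agent.AND.Num

/-- THE RELEASE STEP -/
theorem stp_r (d : ℕ) (a c C : ℝ) (Cr Cw : ℝ) (hCr : 0 ≤ Cr) (hCw : 1 ≤ Cw) :
    Ev2 d a es c C fun V => ∀ n : ℕ, Stp (q1r V n) (qq V (n + 1) (V.kk (n + 1)))
      (V.cl (V.kk (n + 1)) : ℝ)
      (Cr * (1 + Real.log (Cw * (V.cl (V.kk (n + 1)) : ℝ) ^ (-Cw))) * (q1r V n).mis) := by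
  -- the small facts about `s = sg (n + 1)`
  have h1 : Ev2 d a es c C fun V => ∀ s : ℝ, 0 < s → s ≤ V.w →
      (s ≤ 1 ∧ Cr * (1 + Real.log (Cw * s ^ (-Cw))) * (3 * s ^ (1 / 10 : ℝ)) ≤ s ^ (1 / 11 : ℝ)) ∧
      (3 * s ^ (1 / 11 : ℝ) ≤ (1 - (V.th : ℝ) ^ (1 / 20 : ℝ)) * s ^ (1 / 20 : ℝ) ∧
      3 * s ^ (1 / 100 : ℝ) ≤ (1 - (V.th : ℝ) ^ (1 / 400 : ℝ)) * s ^ (1 / 400 : ℝ)) ∧
      (3 * s ^ (1 / 100 : ℝ) ≤ (1 - (V.th : ℝ) ^ kaf V.α) * s ^ (3 / 2 * kaf V.α) ∧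
      3 * s ^ (1 / 100 : ℝ) ≤ (1 - (V.th : ℝ) ^ (kaf V.α / 4)) * s ^ (kaf V.α / 4)) ∧
      (45 * s ^ (1 / 11 - 1 / 16 : ℝ) ≤ s ^ (1 / 200 : ℝ) ∧
      5 * s ^ (1 / 200 : ℝ) ≤ (1 - (V.th : ℝ) ^ (1 / 400 : ℝ)) / 2 * s ^ (1 / 400 : ℝ) ∧
      3 * s ^ (1 / 200 : ℝ) ≤ 1 / 2 * s ^ (0 : ℝ)) := by
    refine ev_smallm (fun th _ _ α _ s =>
      (s ≤ 1 ∧ Cr * (1 + Real.log (Cw * s ^ (-Cw))) * (3 * s ^ (1 / 10 : ℝ)) ≤ s ^ (1 / 11 : ℝ)) ∧
      (3 * s ^ (1 / 11 : ℝ) ≤ (1 - (th : ℝ) ^ (1 / 20 : ℝ)) * s ^ (1 / 20 : ℝ) ∧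
      3 * s ^ (1 / 100 : ℝ) ≤ (1 - (th : ℝ) ^ (1 / 400 : ℝ)) * s ^ (1 / 400 : ℝ)) ∧
      (3 * s ^ (1 / 100 : ℝ) ≤ (1 - (th : ℝ) ^ kaf α) * s ^ (3 / 2 * kaf α) ∧
      3 * s ^ (1 / 100 : ℝ) ≤ (1 - (th : ℝ) ^ (kaf α / 4)) * s ^ (kaf α / 4)) ∧
      (45 * s ^ (1 / 11 - 1 / 16 : ℝ) ≤ s ^ (1 / 200 : ℝ) ∧
      5 * s ^ (1 / 200 : ℝ) ≤ (1 - (th : ℝ) ^ (1 / 400 : ℝ)) / 2 * s ^ (1 / 400 : ℝ) ∧
      3 * s ^ (1 / 200 : ℝ) ≤ 1 / 2 * s ^ (0 : ℝ))) ?_ ?_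
    · rintro th b _ _ α _ s _ h2 _ h4 ⟨⟨x1, x2⟩, ⟨x3, x4⟩, ⟨x5, x6⟩, x7, x8, x9⟩
      have hk := kaf_pos α
      have hp : ∀ {p : ℝ}, 0 ≤ s ^ p := Real.rpow_nonneg h4.le _
      refine ⟨⟨x1, x2⟩, ⟨gap_le h2 (by norm_num) hp x3, gap_le h2 (by norm_num) hp x4⟩,
        ⟨gap_le h2 hk.le hp x5, gap_le h2 (by linarith) hp x6⟩, x7, ?_, x9⟩
      refine x8.trans (mul_le_mul_of_nonneg_right ?_ hp)
      have := gapm h2 (p := 1 / 400) (by norm_num)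
      linarith
    intro th c₁ C₁ α J _ h3 _ hα
    have hk := kaf_pos α
    have hk2 := kaf_le hα
    have hth : ∀ {p : ℝ}, 0 < p → 0 < 1 - (th : ℝ) ^ p := fun hp => by
      have := Real.rpow_lt_one (NNReal.coe_nonneg th) (by exact_mod_cast h3) hp
      linarith
    exact ((small_le 1 one_pos).and (small_reg Cr Cw 3 _ _ hCr hCw (by norm_num)
      (by norm_num))).and (((small_pow' 3 _ _ _ (hth (by norm_num)) (by norm_num)).and
      (small_pow' 3 _ _ _ (hth (by norm_num)) (by norm_num))).and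
      (((small_pow' 3 _ _ _ (hth hk) (by linarith)).and
      (small_pow' 3 _ _ _ (hth (by linarith)) (by linarith))).and
      ((small_pow 45 _ _ (by norm_num)).and
      ((small_pow' 5 _ _ _ (half_pos (hth (by norm_num))) (by norm_num)).and
      (small_pow' 3 _ _ _ (by norm_num) (by norm_num))))))
  refine (h1.and ev_good).imp fun V hV n => ?_
  obtain ⟨h1, hG⟩ := hV
  have hP : V.Pre a := hG.toPre
  set s : ℝ := (V.cl (V.kk (n + 1)) : ℝ) with hs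
  have hs0 : 0 < s := cl_pos' hP _
  have hsg : V.sg (n + 1) = s := rfl
  obtain ⟨⟨s1, x1⟩, ⟨g1, g2⟩, ⟨g3, g4⟩, g5, g6, g7⟩ := h1 s hs0 (cl_le' hP _)
  rw [Real.rpow_zero] at g7
  have hσ0 : 0 < V.sg n := sg_pos hP n
  have hth1 : (V.th : ℝ) ≤ 1 := by exact_mod_cast hP.th.2.le
  have hsσ : s ≤ V.sg n := by
    have h2 := sg_succ hP n
    rw [hsg] at h2
    nlinarith
  -- the gains
  have gain : ∀ {p : ℝ}, 0 < p → (1 - (V.th : ℝ) ^ p) * s ^ p ≤ V.sg n ^ p - s ^ p := by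
    intro p hp
    have h2 := gr_rel' hP hp n
    rw [hsg] at h2
    have h3 := Real.rpow_le_rpow hs0.le hsσ hp.le
    have h4 := th_rpow_lt hP hp
    nlinarith
  have pw : ∀ {p q : ℝ}, q ≤ p → s ^ p ≤ s ^ q := fun h => rpow_anti hs0 s1 h
  set x : ℝ := Cr * (1 + Real.log (Cw * s ^ (-Cw))) * (q1r V n).mis with hx
  have hmis : (q1r V n).mis ≤ 3 * s ^ (1 / 10 : ℝ) := by
    show s ^ (1 / 8 : ℝ) + 2 * s ^ (1 / 10 : ℝ) ≤ 3 * s ^ (1 / 10 : ℝ)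
    have := pw (p := 1 / 8) (q := 1 / 10) (by norm_num)
    linarith
  have hmis0 : 0 ≤ (q1r V n).mis := by
    show 0 ≤ s ^ (1 / 8 : ℝ) + 2 * s ^ (1 / 10 : ℝ)
    positivity
  have hlog : 0 ≤ 1 + Real.log (Cw * s ^ (-Cw)) := by
    have h2 : 1 ≤ Cw * s ^ (-Cw) := by
      have h3 : 1 ≤ s ^ (-Cw) := Real.one_le_rpow_of_pos_of_le_one_of_nonpos hs0 s1 (by linarith)
      nlinarith
    have := Real.log_nonneg h2
    linarith
  have hx0 : 0 ≤ x := by positivity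
  have hx1 : x ≤ s ^ (1 / 11 : ℝ) := by
    refine le_trans ?_ x1
    exact mul_le_mul_of_nonneg_left hmis (mul_nonneg hCr hlog)
  have hx100 : x ≤ s ^ (1 / 100 : ℝ) := hx1.trans (pw (by norm_num))
  refine
    { x1 := hx1.trans (Real.rpow_le_one hs0.le s1 (by norm_num))
      del := ?_
      mis := ?_
      lam := ?_
      tht := ?_
      eps := ?_
      rho := ?_ }
  · show gr V (1 / 20) n (V.kk (n + 1)) + 2 * s ^ (1 / 10 : ℝ) + x ≤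
      gr V (1 / 20) (n + 1) (V.kk (n + 1))
    rw [gr_rel, hsg]
    have h2 := gain (p := 1 / 20) (by norm_num)
    have h3 := pw (p := 1 / 10) (q := 1 / 11) (by norm_num)
    linarith
  · show x ^ 2 ≤ s ^ (1 / 8 : ℝ)
    calc x ^ 2 ≤ (s ^ (1 / 11 : ℝ)) ^ 2 := by gcongr
      _ = s ^ (2 / 11 : ℝ) := by
          rw [← Real.rpow_natCast, ← Real.rpow_mul hs0.le]
          norm_num
      _ ≤ s ^ (1 / 8 : ℝ) := pw (by norm_num)
  · set A0 : ℝ := 1 / 4 * s ^ (-(3 / 4) : ℝ) with hA0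
    have hA0p : 0 < A0 := by positivity
    have hq : (q1r V n).lam = A0 * (2 - V.sg n ^ (1 / 400 : ℝ)) * (1 + 2 * s ^ (1 / 200 : ℝ)) := rfl
    have hq' : (qq V (n + 1) (V.kk (n + 1))).lam = A0 * (2 - s ^ (1 / 400 : ℝ)) := rfl
    rw [hq, hq']
    set u : ℝ := V.sg n ^ (1 / 400 : ℝ) with hu
    set v : ℝ := s ^ (1 / 200 : ℝ) with hv
    set y : ℝ := s ^ (1 / 400 : ℝ) with hy
    have hu1 : u ≤ 1 := by
      refine Real.rpow_le_one hσ0.le ?_ (by norm_num)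
      have hw1 : (V.w : ℝ) ≤ 1 := (h1 V.w (w_pos hP) le_rfl).1.1
      exact (sg_le hP n).trans hw1
    have hu0 : 0 ≤ u := Real.rpow_nonneg hσ0.le _
    have hv0 : 0 ≤ v := Real.rpow_nonneg hs0.le _
    have hA : A0 ≤ A0 * (2 - u) * (1 + 2 * v) := by
      have : 1 ≤ (2 - u) * (1 + 2 * v) := by nlinarith
      nlinarith
    have hxs : x * s ^ (-(1 / 16) : ℝ) ≤ s ^ (1 / 11 - 1 / 16 : ℝ) := by
      have h2 : s ^ (1 / 11 - 1 / 16 : ℝ) = s ^ (1 / 11 : ℝ) * s ^ (-(1 / 16) : ℝ) := by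
        rw [← Real.rpow_add hs0]
        congr 1
      rw [h2]
      exact mul_le_mul_of_nonneg_right hx1 (Real.rpow_nonneg hs0.le _)
    have hx45 : 45 * (x * s ^ (-(1 / 16) : ℝ)) ≤ v := by linarith
    have hv1 : v ≤ 1 / 6 := by linarith
    have h3 := four_le hs0 hA hx0 (by
      have : 0 ≤ x * s ^ (-(1 / 16) : ℝ) := mul_nonneg hx0 (Real.rpow_nonneg hs0.le _)
      linarith)
    refine h3.trans ?_
    have h4 : A0 * (2 - u) * (1 + 2 * v) * (1 + 45 * (x * s ^ (-(1 / 16) : ℝ))) ≤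
        A0 * (2 - u) * (1 + 2 * v) * (1 + v) := by
      have h5 : 0 ≤ A0 * (2 - u) * (1 + 2 * v) := hA0p.le.trans hA
      exact mul_le_mul_of_nonneg_left (by linarith) h5
    refine h4.trans ?_
    have h5 := gain (p := 1 / 400) (by norm_num)
    have h6 : (2 - u) * (1 + 2 * v) * (1 + v) ≤ 2 - y := by
      have h7 : (1 + 2 * v) * (1 + v) ≤ 1 + 5 * v := by nlinarith
      have h8 : (2 - u) * ((1 + 2 * v) * (1 + v)) ≤ (2 - u) * (1 + 5 * v) :=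
        mul_le_mul_of_nonneg_left h7 (by linarith)
      have h9 : (2 - u) * (1 + 5 * v) ≤ 2 - u + 10 * v := by nlinarith
      have h10 : 10 * v ≤ u - y := by linarith
      nlinarith
    have h7 : A0 * (2 - u) * (1 + 2 * v) * (1 + v) = A0 * ((2 - u) * (1 + 2 * v) * (1 + v)) := by
      ring
    rw [h7]
    exact mul_le_mul_of_nonneg_left h6 hA0p.le
  · show gr V (1 / 400) n (V.kk (n + 1)) + 2 * s ^ (1 / 100 : ℝ) + x ≤
      gr V (1 / 400) (n + 1) (V.kk (n + 1))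
    rw [gr_rel, hsg]
    have h2 := gain (p := 1 / 400) (by norm_num)
    linarith
  · show s ^ (ka V / 2) * (2 - V.sg n ^ ka V) + 2 * s ^ (1 / 100 : ℝ) + x ≤
      s ^ (ka V / 2) * (2 - V.sg (n + 1) ^ ka V)
    rw [hsg]
    have hka : 0 < ka V := ka_pos
    have h2 := gain hka
    have h3 : 0 < s ^ (ka V / 2) := Real.rpow_pos_of_pos hs0 _
    have h4 := mul_le_mul_of_nonneg_left h2 h3.le
    have h5 : s ^ (3 / 2 * kaf V.α) = s ^ (ka V / 2) * s ^ ka V := by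
      rw [← Real.rpow_add hs0, ← ka_eq]
      congr 1
      ring
    rw [h5, ← ka_eq] at g3
    nlinarith
  · show gr V (ka V / 4) n (V.kk (n + 1)) + 2 * s ^ (1 / 100 : ℝ) + x ≤
      gr V (ka V / 4) (n + 1) (V.kk (n + 1))
    rw [gr_rel, hsg]
    have hka : 0 < ka V := ka_pos
    have h2 := gain (p := ka V / 4) (by linarith)
    rw [← ka_eq] at g4
    linarith

end Pool.Agent.QDU.H61
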