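import Pool.Agent.Helper54_AHH.RfinT
import Pool.Agent.Helper22_QDU.Zf
import Pool.Agent.Helper22_QDU.H54Rfin
import Pool.Agent.Helper22_QDU.H54Sums
import Pool.Agent.Helper22_QDU.H61Num
import Pool.Agent.Helper22_QDU.H61RegN
import Pool.Agent.Helper22_QDU.H61StpR
import Pool.Agent.Helper22_QDU.H61Zn
/-!
# AND2B (MP_1906c1_mp): the field `rfin` without hypotheses
-/

set_option autoImplicit false

noncomputable section

namespace Pool.Agent.QDU.H54

open Pool.Agent.AHH hiding BegF FinF FloF IniF KilF MmonF OutF RbegF RfinF RmonF ana0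
open Pool.Agent.AHH.H54 hiding StpR ev_phi rfin rfinT sums

/-- THE FIELD `rfin`, no hypotheses -/
theorem rfinT : RfinF :=
  rfin H72.wtsT fun d a c C _ _ hc _ hC Cr Cw hCr hCw =>
    (H61.stp_r d a c C Cr Cw (by linarith only [hCr]) hCw).imp fun V hV n _ => hV n

end Pool.Agent.QDU.H54
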