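import Pool.Agent.Helper17_AHH.NumZ
import Pool.Agent.Helper22_QDU.Zf
import Pool.Agent.Helper22_QDU.H61Num
/-!
# AND2B: the numbers of the block lemma for the concrete budget, in the form `Ev2`

`numZ`: eventually, for all stages, `EOk`, `BNum` and the bound `V.p n` of the probability.
-/

set_option autoImplicit false

open scoped BigOperators NNReal

noncomputable section

namespace Pool.Agent.QDU.H17

open Pool.Agent.AHH hiding BegF FinF FloF IniF KilF MmonF OutF RbegF RfinF RmonF ana0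
open Pool.Agent.AHH.H17 hiding numZ

open Pool.Agent.BED (Tor)

open Pool.Agent.ANP (Cfg)
open Pool.Agent.AND.Num
open Pool.Agent.AHH.H61 hiding budOk ev_be ev_c1 ev_e0 ev_good ev_small ev_small_be ev_th
open Pool.Agent.QDU.H61

open Pool.Agent.AHH.H67 (Par flOf BNum EOk CF one_le_CF)
open Pool.Agent.AFL (Fl)
open Pool.Agent.AFL.H17 (Pq Cs Out rp_mul rp_sq prn_of KL_le exp_sg)

variable {d : ℕ}

section

variable {V : AND2B.Env d} {a c C Cf : ℝ} {n k : ℕ}

end

/-- the constants, uniformly in `th`; `KL` is fixed -/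
theorem cs_u (d : ℕ) {c C Cf : ℝ} (hc : 0 < c) (hC : 1 ≤ C) (hCf : 0 ≤ Cf) {C₁ : ℝ} {α : ℕ}
    (hα : 2 ≤ α) {ω : ℝ} (hω : 0 < ω) :
    Cs (c / 2) (2 * C) Cf (c / 4) (T1 d C) 1 2 ω (4 * C) (2 + cpd d) (1 / 200)
      (kaf α / 4) (Kcf d α C₁) (kaf α / 64) := by
  have hcp := one_le_cpd d
  have hT0 := T1_pos d hC
  have hka := kaf_pos α
  have hka1 := kaf_le hα
  have a1 : T1 d C ≤ 1 / (8 * C) := min_le_left _ _
  have a2 : T1 d C ≤ Real.log 2 / (3 * (4 * ((2 + cpd d) + 1) * (4 * C) + 32 * (4 * C))) :=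
    min_le_right _ _
  rw [le_div_iff₀ (by positivity)] at a1 a2
  exact
    { c0 := by positivity
      C0 := by positivity
      C := hCf
      k := by positivity
      t := hT0.le
      cL := one_pos
      CL := by norm_num
      om := hω
      r := by positivity
      N := by positivity
      tC := by nlinarith
      tr := by nlinarith
      ex := by
        have h3 : 3 * AFL.H17.a0 (T1 d C) (4 * C) (2 + cpd d) ≤ Real.log 2 := by
          unfold AFL.H17.a0
          calc _ = T1 d C * (3 * (4 * ((2 + cpd d) + 1) * (4 * C) + 32 * (4 * C))) := by ring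
            _ ≤ _ := a2
        calc Real.exp (3 * AFL.H17.a0 (T1 d C) (4 * C) (2 + cpd d)) ≤ Real.exp (Real.log 2) :=
              Real.exp_le_exp.2 h3
          _ = 2 := Real.exp_log (by norm_num)
      e0 := by norm_num
      e1 := by norm_num
      c6 := by positivity
      c61 := by linarith
      Kc := by unfold Kcf; positivity
      g := by positivity
      ge := by linarith
      gc := by linarith }

theorem KL_u {K : ℕ} (h : 1 ≤ K) : (1 / (1 + 3 / (K : ℝ))) ^ K ≤ 1 / 4 := by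
  have hK : (0 : ℝ) < K := by exact_mod_cast h
  have h3 : 1 + (K : ℝ) * (3 / K) ≤ (1 + 3 / (K : ℝ)) ^ K :=
    one_add_mul_le_pow (by have : (0 : ℝ) < 3 / K := by positivity
                           linarith) K
  have h4 : (K : ℝ) * (3 / K) = 3 := by field_simp
  rw [h4] at h3
  rw [one_div, inv_pow, one_div]
  exact inv_anti₀ (by norm_num) (by linarith)

/-- all the conditions on small clocks, uniformly in `th` -/
theorem smZ_u (d : ℕ) {c C Cf : ℝ} (hc : 0 < c) (hC : 1 ≤ C) (hCf : 0 ≤ Cf) {b : ℝ≥0}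
    {C₁ : ℝ} {α : ℕ} (hb1 : b < 1) (hα : 2 ≤ α) :
    Small fun s => ∀ th : ℝ≥0, 1 / 2 ≤ th → th ≤ b → SmZ d c C Cf th C₁ α s := by
  have hT0 := T1_pos d hC
  have hcp := one_le_cpd d
  have h1 := smP d α
  have h2 : Small fun s => 3 * s ^ (1 / 20 : ℝ) ≤ 1 / 4 := by
    refine (small_pow' 3 (1 / 4) (1 / 20) 0 (by norm_num) (by norm_num)).mono ?_
    intro s _ hh
    simpa using hh
  have h3 : Small fun s => (2 + cpd d) * s ^ (1 / 8 - 1 / 200 : ℝ) ≤ 1 / 4 := by
    refine (small_pow' (2 + cpd d) (1 / 4) (1 / 8 - 1 / 200) 0 (by norm_num)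
      (by norm_num)).mono ?_
    intro s _ hh
    simpa using hh
  have h4 : ∀ K : Fin (⌈3 / w0f d b⌉₊ + 1), Small fun s => 1 ≤ (K : ℕ) →
      ∀ (X : Type) [Fintype X] [DecidableEq X] (F : Fl X),
        Pq F (c / 4) (T1 d C) 1 2 (3 / ((K : ℕ) : ℝ)) (4 * C) (2 + cpd d) (1 / 200) (kaf α / 4)
          (Kcf d α C₁) (kaf α / 64) K s → Out F (c / 2) (2 * C) Cf (kaf α / 64) s := by
    intro K
    by_cases hK : 1 ≤ (K : ℕ)
    · have hK0 : (0 : ℝ) < ((K : ℕ) : ℝ) := by exact_mod_cast hK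
      exact (prn_of (cs_u d (C₁ := C₁) hc hC hCf hα (div_pos (by norm_num) hK0)) K hK
        (KL_u hK)).mono fun s _ h _ => h
    · exact small_le 1 one_pos |>.mono fun s _ _ h => absurd h hK
  refine ((((h1.and h2).and h3).and (Small.all h4))).mono ?_
  rintro s hs ⟨⟨⟨a1, a2⟩, a3⟩, a4⟩ th hth hthb
  refine ⟨a1, a2, a3, fun hT X _ _ F hF => ?_⟩
  have g1 : (1 / 2 : ℝ) ≤ th := by exact_mod_cast hth
  have g2 : (th : ℝ) ≤ b := by exact_mod_cast hthb
  have g3 : (b : ℝ) < 1 := by exact_mod_cast hb1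
  have hw : w0f d b ≤ w0f d th := by
    unfold w0f
    exact div_le_div_of_nonneg_right (by linarith) (by positivity)
  have hw0 : 0 < w0f d b := by unfold w0f; exact div_pos (by linarith) (by positivity)
  have hK1 : ⌈3 / w0f d th⌉₊ ≤ ⌈3 / w0f d b⌉₊ :=
    Nat.ceil_mono (div_le_div_of_nonneg_left (by norm_num) hw0 hw)
  have hK2 : 1 ≤ ⌈3 / w0f d th⌉₊ := by
    have : 0 < 3 / w0f d th := div_pos (by norm_num) (lt_of_lt_of_le hw0 hw)
    exact Nat.one_le_iff_ne_zero.2 (Nat.ceil_pos.2 this).ne'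
  refine a4 ⟨⌈3 / w0f d th⌉₊, by omega⟩ hK2 X F ?_
  have ht : t1f c th ≤ T1 d C := t1f_le hc hT0.le hth hT
  have hκ : 0 ≤ F.κv := by
    have h5 := hF.k0
    have h6 : 0 ≤ k0f c th * s := by unfold k0f; positivity
    linarith
  exact
    { T0 := hF.T0
      Tk := hF.Tk.trans (mul_le_mul_of_nonneg_right ht hκ)
      k0 := by
        refine le_trans (mul_le_mul_of_nonneg_right ?_ hs.le) hF.k0
        unfold k0f
        nlinarith
      k1 := hF.k1
      r0 := hF.r0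
      r1 := hF.r1
      N0 := hF.N0
      N1 := hF.N1
      dl := hF.dl
      dy := hF.dy
      L0 := hF.L0
      L1 := hF.L1
      om := by
        refine le_trans ?_ hF.om
        have h6 : 3 / w0f d th ≤ ((⌈3 / w0f d th⌉₊ : ℕ) : ℝ) := Nat.le_ceil _
        have h7 : 0 < w0f d th := lt_of_lt_of_le hw0 hw
        have h8 : (0 : ℝ) < ((⌈3 / w0f d th⌉₊ : ℕ) : ℝ) := by exact_mod_cast hK2
        show 3 / ((⌈3 / w0f d th⌉₊ : ℕ) : ℝ) ≤ w0f d th
        rw [div_le_iff₀ h7] at h6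
        rw [div_le_iff₀ h8]
        linarith
      ep := hF.ep
      ep1 := hF.ep1
      e1 := hF.e1
      e11 := hF.e11
      s1 := hF.s1
      s8 := hF.s8
      s3 := hF.s3
      s2n := hF.s2n
      s2 := hF.s2
      q1 := hF.q1
      q := hF.q
      n := hF.n
      nL := hF.nL
      z := hF.z
      l0 := hF.l0 }

/-- THE NUMBERS: eventually, for all stages -/
theorem numZ (d : ℕ) {a c C Cf : ℝ} (hc : 0 < c) (hc1 : c ≤ 1 / 2) (hC : 1 ≤ C)
    (hCf : 0 ≤ Cf) : Ev2 d a es c C fun V => ∀ n k, n ≤ V.N → V.kk n ≤ k → k < V.kk (n + 1) →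
      EOk (toE V c C) k ∧
      (∀ rG : ℝ, rG ≤ 3 * C → BNum (toE V c C) (bud V) n k rG (parZ V c C n k)) ∧
      ∀ (T : Cfg (Tor d (2 ^ V.μ))) (b Q Q1 run U Yg : Finset (Tor d (2 ^ V.μ))),
        (Q1.card : ℝ) ≤ ((2 : ℝ) ^ (V.l n + 4)) ^ d →
        (Q.card : ℝ) ≤ ((2 : ℝ) ^ (V.l n + 4)) ^ d →
        (flOf (toE V c C) T b Q Q1 run U Yg k (parZ V c C n k)).pr (c / 2) (2 * C) Cf ≤
          V.p n := by
  have hT1 := T1_pos d hC
  have h1 : Ev2 d a es c C fun V => ∀ s : ℝ, 0 < s → s ≤ V.w →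
      SmZ d c C Cf V.th V.C₁ V.α s :=
    ev_smallu (fun th _ C₁ α _ s => SmZ d c C Cf th C₁ α s)
      fun b _ C₁ α _ _ h2 _ h3 => smZ_u d hc hC hCf h2 h3
  have h2 : Ev2 d a es c C fun V => V.β ≤ kaf V.α / 128 :=
    ev_be (fun _ _ α _ => kaf α / 128) fun _ _ α _ _ _ => by
      have := kaf_pos α
      positivity
  have h3 : Ev2 d a es c C fun V => 1 - c * T1 d C / 4 ≤ (V.th : ℝ) :=
    ev_th (c * T1 d C / 4) (by positivity)
  have h4 : Ev2 d a es c C fun V => 1 - 1 / 3 ≤ (V.th : ℝ) := ev_th (1 / 3) (by norm_num)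
  have h5 : Ev2 d a es c C fun V => V.e₀ ≤ e0f c V := by
    refine ev_e0 (fun V => e0f c V) (fun V hV => ?_) fun _ _ _ _ => rfl
    have hCF := one_le_CF d
    have hL := hV.hL
    have hs := sg_pos hV (V.N + 1)
    unfold e0f
    exact lt_min (by positivity) (by positivity)
  refine (((((ev_good.and h1).and h2).and h3).and h4).and h5).imp fun V hV => ?_
  obtain ⟨⟨⟨⟨⟨hG, g1⟩, g2⟩, g3⟩, g4⟩, g5⟩ := hV
  intro n k hn hk hk'
  have hP := hG.toPre
  have hth : 2 / 3 ≤ (V.th : ℝ) := by linarith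
  have hW := g1 V.w (w_pos hP) le_rfl
  have hS := g1 (V.cl k) (cl_pos' hP k) (cl_le' hP k)
  exact ⟨eOk hG hth hc hc1 hC k,
    fun rG hr => bnum hG hth hc hc1 hC hn hk hk' g3 g5 hW hS hr,
    fun T b Q Q1 run U Yg hQ1 hQ => prZ hG hc hc1 hC hn hk g3 g2 hW hS T b Q Q1 run U Yg hQ1 hQ⟩

end Pool.Agent.QDU.H17
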