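import Pool.Agent.Helper67_AHH.FNz
import Pool.Agent.Helper22_QDU.Zf
import Pool.Agent.Helper22_QDU.H61Num
import Pool.Agent.Helper22_QDU.H61Zn
/-!
# AND2B: the numbers of the form for the concrete budget (helper67)
-/

set_option autoImplicit false

open scoped BigOperators NNReal

noncomputable section

namespace Pool.Agent.QDU.H67

open Pool.Agent.AHH hiding BegF FinF FloF IniF KilF MmonF OutF RbegF RfinF RmonF ana0
open Pool.Agent.AHH.H67 hiding fnum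

open Pool.Agent.BED (Tor)

open Pool.Agent.AND.Num
open Pool.Agent.AHH.H61 hiding budOk ev_be ev_c1 ev_e0 ev_good ev_small ev_small_be ev_th ev_thr nm
open Pool.Agent.QDU.H61

open Pool.Agent.AHH.H17 (parZ kg)
open Pool.Agent.NAS (CS)
open Pool.Agent.MAJ (S0 S2)

section

variable {d : ℕ} {V : AND2B.Env d} {a : ℝ}

end

/-- THE NUMBERS OF THE FORM -/
theorem fnum (d : ℕ) (a c C : ℝ) (hd : 3 ≤ d) (hc : 0 < c) (hC : 1 ≤ C) :
    Ev2 d a es c C fun V => ∀ n k, n ≤ V.N → V.kk n ≤ k → k < V.kk (n + 1) →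
      ∃ J1 J2 : ℕ, FNum (toE V c C) (bud V) n k (V.l n + 4) J1 J2 (parZ V c C n k) := by
  have hCS : 0 < CS d := MAJ.CS_pos hd
  have h1 : Ev2 d a es c C fun V => ∀ s : ℝ, 0 < s → s ≤ V.w → FP (CS d) (cpd d) c C V.α s :=
    ev_small (fun _ _ α _ s => FP (CS d) (cpd d) c C α s)
      fun _ _ _ α _ _ _ _ hα => fp_small _ _ _ _ α hα
  have h2 := ev_thr d a c C (cpd d) (1 / 2) (by norm_num)
  have h3 : Ev2 d a es c C fun V => V.e₀ ≤ V.sg (V.N + 1) :=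
    ev_e0 (fun V => V.sg (V.N + 1)) (fun V hV => sg_pos hV _) (fun V _ _ _ => rfl)
  refine (((h1.and h2).and h3).and ev_good).imp fun V hV n k hn hk1 hk2 => ?_
  obtain ⟨⟨⟨hF, hthr⟩, he⟩, hG⟩ := hV
  have hP : V.Pre a := hG.toPre
  have hw := w_pos hP
  have hka : 0 < ka V := ka_pos
  have hkal := ka_le hP
  obtain ⟨w1, _, _, _, _, w6, _, _, _, _⟩ := hF V.w hw le_rfl
  -- the clock of the stage
  obtain ⟨s, hs⟩ : ∃ s : ℝ, s = V.cl k := ⟨_, rfl⟩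
  have hs0 : 0 < s := by rw [hs]; exact cl_pos' hP k
  have hsw : s ≤ V.w := by rw [hs]; exact cl_le' hP k
  have hs1 : s ≤ 1 := hsw.trans w1
  obtain ⟨-, s2, s3, s4, -, -, s7, s8, s9, s10⟩ := hF s hs0 hsw
  have r14 : s ^ (14 : ℝ) = s ^ 14 := by exact_mod_cast Real.rpow_natCast s 14
  have r5 : s ^ (5 : ℝ) = s ^ 5 := by exact_mod_cast Real.rpow_natCast s 5
  rw [r14, Real.rpow_one] at s7
  rw [r5, Real.rpow_one] at s8
  rw [Real.rpow_zero, mul_one] at s9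
  -- the young clock
  obtain ⟨y, hy⟩ : ∃ y : ℝ, y = V.cl (V.kk (n - 1)) := ⟨_, rfl⟩
  have hy0 : 0 < y := by rw [hy]; exact cl_pos' hP _
  have hyw : y ≤ V.w := by rw [hy]; exact cl_le' hP _
  have hy1 : y ≤ 1 := hyw.trans w1
  have hsy : s ≤ y := by
    rw [hs, hy]
    exact cl_anti' hP ((kk_mono hP (Nat.sub_le n 1)).trans hk1)
  obtain ⟨-, -, -, -, y5, -, -, -, -, -⟩ := hF y hy0 hyw
  rw [Real.rpow_zero, mul_one] at y5
  have hyka : y ^ (9 / 20 : ℝ) ≤ s ^ (450 * ka V) := by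
    rw [hs, hy]
    exact young_rpow hP w1 hn hk2
  -- floor
  have hes : V.e₀ ≤ s := by
    rw [hs]
    exact he.trans (sg_last hP (hk2.le.trans (kk_mono hP (by omega))))
  -- levels
  obtain ⟨J1, j1, j1'⟩ := exJ hy0 hy1
  obtain ⟨J2, j2, j2'⟩ := exJ hs0 hs1
  -- weights
  have hwt : ∀ x : ℝ, s ≤ x → 0 < x → (V.e₀ + x * (2 * C)) * (2 * C) ≤ 6 * C ^ 2 * x := by
    intro x hx hx0
    have h3 : 1 * x ≤ C * x := mul_le_mul_of_nonneg_right hC hx0.le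
    have h4 : V.e₀ + x * (2 * C) ≤ 3 * C * x := by linarith
    calc (V.e₀ + x * (2 * C)) * (2 * C) ≤ 3 * C * x * (2 * C) :=
          mul_le_mul_of_nonneg_right h4 (by linarith)
      _ = 6 * C ^ 2 * x := by ring
  -- the bond weight
  obtain ⟨D, hD⟩ : ∃ D : ℝ, D = c * (V.w : ℝ) ^ (8 * es - 1) := ⟨_, rfl⟩
  have hwe : 1 ≤ (V.w : ℝ) ^ (8 * es - 1) :=
    Real.one_le_rpow_of_pos_of_le_one_of_nonpos hw w1 (by unfold es; norm_num)
  have hDc : c ≤ D := by rw [hD]; exact le_mul_of_one_le_right hc.le hwe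
  have hD0 : 0 < D := by linarith
  have hDinv : 1 / D = 1 / c * (V.w : ℝ) ^ (1 - 8 * es) := by
    rw [hD]
    have h4 : (V.w : ℝ) ^ (8 * es - 1) * (V.w : ℝ) ^ (1 - 8 * es) = 1 := by
      rw [← Real.rpow_add hw]
      have : 8 * es - 1 + (1 - 8 * es) = 0 := by ring
      rw [this, Real.rpow_zero]
    have hne : (V.w : ℝ) ^ (8 * es - 1) ≠ 0 := (Real.rpow_pos_of_pos hw _).ne'
    field_simp
    linarith
  have hlev : ∀ (x : ℝ) (J : ℕ), 0 < x → (4 : ℝ) ^ J ≤ x ^ (-(9 / 10) : ℝ) →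
      (4 : ℝ) ^ J * x ≤ x ^ (1 / 10 : ℝ) := by
    intro x J hx hJ
    have h4 : x ^ (1 / 10 : ℝ) = x ^ (-(9 / 10) : ℝ) * x := by
      have : (1 / 10 : ℝ) = -(9 / 10) + 1 := by norm_num
      rw [this, Real.rpow_add hx, Real.rpow_one]
    rw [h4]
    exact mul_le_mul_of_nonneg_right hJ hx.le
  -- the cube
  have hX : s ^ (-(5 : ℝ)) ≤ (2 : ℝ) ^ (V.l n + 4) := by
    have h4 : V.sg (n + 1) ^ (-(5 : ℝ)) ≤ 2 ^ V.l n := hP.sc.llow n hn
    have h5 : s ^ (-(5 : ℝ)) ≤ V.sg (n + 1) ^ (-(5 : ℝ)) :=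
      Real.rpow_le_rpow_of_nonpos (sg_pos hP _) (by rw [hs]; exact cl_anti' hP hk2.le)
        (by norm_num)
    refine h5.trans (h4.trans ?_)
    exact pow_le_pow_right₀ (by norm_num) (by omega)
  have hm : c ^ 2 / 16 * s ≤ (c / 2) ^ 2 * V.cl (k + 1) / 2 := by
    have h4 : (V.cl (k + 1) : ℝ) = V.th * V.cl k := by
      rw [cl_succ]
      push_cast
      rfl
    have h5 : (1 / 2 : ℝ) ≤ V.th := by exact_mod_cast hP.th.1
    rw [h4, ← hs]
    have h6 : 1 / 2 * s ≤ V.th * s := mul_le_mul_of_nonneg_right h5 hs0.le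
    have h7 : 0 ≤ c ^ 2 / 8 := by positivity
    have h8 := mul_le_mul_of_nonneg_left h6 h7
    calc c ^ 2 / 16 * s = c ^ 2 / 8 * (1 / 2 * s) := by ring
      _ ≤ c ^ 2 / 8 * (V.th * s) := h8
      _ = _ := by ring
  obtain ⟨g1, -⟩ := S2_le (J := J1) hd hc hs0 (by linarith : 0 < D / 2) (by linarith) hm hX
  obtain ⟨g3, -⟩ := S2_le (J := 0) hd hc hs0 (by linarith : 0 < D / 2) (by linarith) hm hX
  obtain ⟨-, g2⟩ := S2_le (J := J2) hd hc hs0 (by linarith : 0 < D / 2) (by linarith) hm hX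
  obtain ⟨e1, e2, -⟩ := hthr n k
  -- the thresholds of the form
  have heps : (qq V n k).eps + (bud V).nn n k * cpd d ≤ 1 / 2 * s ^ kg V := by
    have h4 : (qq V n k).eps ≤ 2 * s ^ (ka V / 2) := by
      show (V.cl k : ℝ) ^ (ka V / 2) * (2 - V.sg n ^ ka V) ≤ 2 * s ^ (ka V / 2)
      rw [hs]
      have h5 : 0 ≤ V.sg n ^ ka V := Real.rpow_nonneg (sg_pos hP n).le _
      have h6 : 0 ≤ (V.cl k : ℝ) ^ (ka V / 2) := Real.rpow_nonneg (cl_pos' hP k).le _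
      calc (V.cl k : ℝ) ^ (ka V / 2) * (2 - V.sg n ^ ka V) ≤ (V.cl k : ℝ) ^ (ka V / 2) * 2 :=
            mul_le_mul_of_nonneg_left (by linarith) h6
        _ = _ := by ring
    have h5 : (bud V).nn n k * cpd d = cpd d * s ^ ka V := by
      show (V.cl k : ℝ) ^ ka V * cpd d = cpd d * s ^ ka V
      rw [hs]
      ring
    have h6 : 2 * s ^ (ka V / 2) ≤ 1 / 4 * s ^ (ka V / 4) := s2
    have h7 : cpd d * s ^ ka V ≤ 1 / 4 * s ^ (ka V / 4) := s3
    rw [h5]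
    unfold kg
    linarith
  refine ⟨J1, J2, ?_⟩
  refine
    { D₀ := ?_
      nn := Real.rpow_nonneg (cl_pos' hP k).le _
      eps := ?_
      r2 := ?_
      e2 := ?_
      run := ?_
      yng := ?_
      old := ?_
      s1 := ?_
      s3 := ?_
      s2 := ?_ }
  · show 0 < c * (V.w : ℝ) ^ (8 * es - 1)
    rw [← hD]
    exact hD0
  · show 0 ≤ (V.cl k : ℝ) ^ (ka V / 2) * (2 - V.sg n ^ ka V)
    have h5 : V.sg n ^ ka V ≤ 1 :=
      Real.rpow_le_one (sg_pos hP n).le ((sg_le hP n).trans w1) hka.le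
    exact mul_nonneg (Real.rpow_nonneg (cl_pos' hP k).le _) (by linarith)
  · show (qq V n k).rho + (bud V).nn n k * cpd d ≤ 1 / 2
    rw [mul_comm]
    exact e2
  · show (qq V n k).eps + (bud V).nn n k * cpd d ≤ 1 / 2
    rw [mul_comm]
    exact e1
  · -- running
    show (qq V n k).eps + (bud V).nn n k * cpd d + 2 * CS d * 4 ^ J2 /
      (c * (V.w : ℝ) ^ (8 * es - 1) / 2) * ((V.e₀ + V.cl k * (2 * C)) * (2 * C)) ≤
        (V.cl k : ℝ) ^ kg V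
    rw [← hD, ← hs]
    have h4 := hwt s le_rfl hs0
    have h5 : 2 * CS d * 4 ^ J2 / (D / 2) * ((V.e₀ + s * (2 * C)) * (2 * C)) ≤
        24 * CS d * C ^ 2 / c * s ^ (1 / 10 : ℝ) := by
      have h6 : 2 * CS d * 4 ^ J2 / (D / 2) ≤ 2 * (2 * CS d * 4 ^ J2) / c :=
        div2 (by positivity) hc hDc
      calc 2 * CS d * 4 ^ J2 / (D / 2) * ((V.e₀ + s * (2 * C)) * (2 * C)) ≤
          2 * (2 * CS d * 4 ^ J2) / c * (6 * C ^ 2 * s) := by
            refine mul_le_mul h6 h4 ?_ (by positivity)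
            have := hG.e0
            positivity
        _ = 24 * CS d * C ^ 2 / c * (4 ^ J2 * s) := by ring
        _ ≤ _ := mul_le_mul_of_nonneg_left (hlev s J2 hs0 j2) (by positivity)
    have h6 : 24 * CS d * C ^ 2 / c * s ^ (1 / 10 : ℝ) ≤ 1 / 2 * s ^ kg V := s4
    linarith
  · -- young
    show 4 * CS d * 4 ^ J1 / (c * (V.w : ℝ) ^ (8 * es - 1) / 2) *
      ((V.e₀ + max (V.cl k : ℝ) (V.cl (V.kk (n - 1))) * (2 * C)) * (2 * C)) ≤ 1 / 2
    rw [← hD, ← hs, ← hy, max_eq_right hsy]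
    have h4 := hwt y hsy hy0
    have h6 : 4 * CS d * 4 ^ J1 / (D / 2) ≤ 2 * (4 * CS d * 4 ^ J1) / c :=
      div2 (by positivity) hc hDc
    calc 4 * CS d * 4 ^ J1 / (D / 2) * ((V.e₀ + y * (2 * C)) * (2 * C)) ≤
        2 * (4 * CS d * 4 ^ J1) / c * (6 * C ^ 2 * y) := by
          refine mul_le_mul h6 h4 ?_ (by positivity)
          have := hG.e0
          positivity
      _ = 48 * CS d * C ^ 2 / c * (4 ^ J1 * y) := by ring
      _ ≤ 48 * CS d * C ^ 2 / c * y ^ (1 / 10 : ℝ) :=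
        mul_le_mul_of_nonneg_left (hlev y J1 hy0 j1) (by positivity)
      _ ≤ 1 / 2 := y5
  · -- old
    show 4 * CS d * 4 ^ 0 / (c * (V.w : ℝ) ^ (8 * es - 1) / 2) *
      ((V.e₀ + max (V.cl k : ℝ) (V.cl 0) * (2 * C)) * (2 * C)) ≤ 1 / 2
    have hw0 : (V.cl 0 : ℝ) = V.w := by rw [cl_zero]
    rw [← hD, ← hs, hw0, max_eq_right hsw]
    obtain ⟨-, -, -, -, w5, -, -, -, -, -⟩ := hF V.w hw le_rfl
    rw [Real.rpow_zero, mul_one] at w5
    have h4 := hwt V.w hsw hw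
    have h6 : 4 * CS d * 4 ^ 0 / (D / 2) ≤ 2 * (4 * CS d * 4 ^ 0) / c :=
      div2 (by positivity) hc hDc
    have h7 : (V.w : ℝ) ≤ (V.w : ℝ) ^ (1 / 10 : ℝ) := by
      have := rpow_anti hw w1 (by norm_num : (1 / 10 : ℝ) ≤ 1)
      rwa [Real.rpow_one] at this
    calc 4 * CS d * 4 ^ 0 / (D / 2) * ((V.e₀ + V.w * (2 * C)) * (2 * C)) ≤
        2 * (4 * CS d * 4 ^ 0) / c * (6 * C ^ 2 * V.w) := by
          refine mul_le_mul h6 h4 ?_ (by positivity)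
          have := hG.e0
          positivity
      _ = 48 * CS d * C ^ 2 / c * V.w := by ring
      _ ≤ 48 * CS d * C ^ 2 / c * (V.w : ℝ) ^ (1 / 10 : ℝ) :=
        mul_le_mul_of_nonneg_left h7 (by positivity)
      _ ≤ 1 / 2 := w5
  · -- s1
    show S2 d (V.l n + 4) J1 (c * (V.w : ℝ) ^ (8 * es - 1) / 2) ((c / 2) ^ 2 * V.cl (k + 1) / 2) ≤
      (V.cl k : ℝ) ^ kg V * ((V.w : ℝ) ^ (1 / 50 : ℝ) * (V.cl k : ℝ) ^ (2 * ka V)) ^ 2
    rw [← hD, ← hs]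
    refine g1.trans ?_
    have q0 : 0 < s ^ kg V := Real.rpow_pos_of_pos hs0 _
    have hR : s ^ kg V * ((V.w : ℝ) ^ (1 / 50 : ℝ) * s ^ (2 * ka V)) ^ 2 =
        (V.w : ℝ) ^ (1 / 25 : ℝ) * s ^ (kg V + 4 * ka V) := by
      rw [mul_pow, ← Real.rpow_natCast, ← Real.rpow_natCast, ← Real.rpow_mul hw.le,
        ← Real.rpow_mul hs0.le, Real.rpow_add hs0]
      push_cast
      rw [show (1 / 50 : ℝ) * 2 = 1 / 25 by norm_num, show 2 * ka V * 2 = 4 * ka V by ring]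
      ring
    rw [hR]
    have h5 : s ≤ (V.w : ℝ) ^ (1 / 25 : ℝ) * s ^ (kg V + 4 * ka V) := by
      have h6 : s ^ (1 / 25 : ℝ) ≤ (V.w : ℝ) ^ (1 / 25 : ℝ) :=
        Real.rpow_le_rpow hs0.le hsw (by norm_num)
      have h7 : s ^ (1 : ℝ) ≤ s ^ (1 / 25 + (kg V + 4 * ka V)) :=
        rpow_anti hs0 hs1 (by unfold kg; linarith)
      rw [Real.rpow_one, Real.rpow_add hs0] at h7
      exact h7.trans (mul_le_mul_of_nonneg_right h6 (Real.rpow_nonneg hs0.le _))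
    have h6 : 4 * CS d / (D / 2) * (1 / 2 : ℝ) ^ J1 ≤
        1 / 3 * ((V.w : ℝ) ^ (1 / 25 : ℝ) * s ^ (kg V + 4 * ka V)) := by
      have h7 : 4 * CS d / (D / 2) = 8 * CS d * (1 / D) := by
        field_simp
        norm_num
      rw [h7, hDinv]
      have h8 : (1 / 2 : ℝ) ^ J1 ≤ 2 * s ^ (kg V + 4 * ka V) := by
        refine j1'.trans (mul_le_mul_of_nonneg_left (hyka.trans ?_) (by norm_num))
        exact rpow_anti hs0 hs1 (by unfold kg; linarith)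
      have h9 : 48 * CS d / c * (V.w : ℝ) ^ (1 - 8 * es) ≤ (V.w : ℝ) ^ (1 / 25 : ℝ) := by
        rw [one_mul] at w6
        exact w6
      have h10 : 0 ≤ 8 * CS d * (1 / c * (V.w : ℝ) ^ (1 - 8 * es)) := by
        have := Real.rpow_nonneg hw.le (1 - 8 * es)
        positivity
      calc 8 * CS d * (1 / c * (V.w : ℝ) ^ (1 - 8 * es)) * (1 / 2 : ℝ) ^ J1 ≤
          8 * CS d * (1 / c * (V.w : ℝ) ^ (1 - 8 * es)) * (2 * s ^ (kg V + 4 * ka V)) :=
            mul_le_mul_of_nonneg_left h8 h10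
        _ = 1 / 3 * ((48 * CS d / c * (V.w : ℝ) ^ (1 - 8 * es)) * s ^ (kg V + 4 * ka V)) := by ring
        _ ≤ _ := mul_le_mul_of_nonneg_left
            (mul_le_mul_of_nonneg_right h9 (Real.rpow_nonneg hs0.le _)) (by norm_num)
    linarith
  · -- s3
    show S2 d (V.l n + 4) 0 (c * (V.w : ℝ) ^ (8 * es - 1) / 2) ((c / 2) ^ 2 * V.cl (k + 1) / 2) ≤
      (V.cl k : ℝ) ^ (-1 : ℝ)
    rw [← hD, ← hs]
    refine g3.trans ?_
    have h5 : 4 * CS d / (D / 2) * (1 / 2 : ℝ) ^ 0 ≤ 8 * CS d / c := by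
      rw [pow_zero, mul_one]
      refine (div2 (by positivity) hc hDc).trans (le_of_eq ?_)
      ring
    have h6 : s ≤ s ^ (-1 : ℝ) := by
      have := rpow_anti hs0 hs1 (by norm_num : (-1 : ℝ) ≤ 1)
      rwa [Real.rpow_one] at this
    linarith
  · -- s2
    show S0 d (V.l n + 4) J2 (c * (V.w : ℝ) ^ (8 * es - 1) / 2) ((c / 2) ^ 2 * V.cl (k + 1) / 2) ≤
      (V.cl k : ℝ) ^ (1 / 4 + kg V)
    rw [← hD, ← hs]
    refine g2.trans ?_
    have h5 : 2 * CS d / (D / 2) * (1 / 2 : ℝ) ^ J2 ≤ 8 * CS d / c * s ^ (9 / 20 : ℝ) := by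
      have h6 : 2 * CS d / (D / 2) ≤ 2 * (2 * CS d) / c := div2 (by positivity) hc hDc
      calc 2 * CS d / (D / 2) * (1 / 2 : ℝ) ^ J2 ≤ 2 * (2 * CS d) / c * (2 * s ^ (9 / 20 : ℝ)) :=
            mul_le_mul h6 j2' (by positivity) (by positivity)
        _ = _ := by ring
    have h6 : s ≤ s ^ (1 / 4 + kg V) := by
      have := rpow_anti hs0 hs1 (by unfold kg; linarith : 1 / 4 + kg V ≤ 1)
      rwa [Real.rpow_one] at this
    have h7 : 8 * CS d / c * s ^ (9 / 20 : ℝ) ≤ 1 / 3 * s ^ (1 / 4 + kg V) := s10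
    linarith

end Pool.Agent.QDU.H67
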