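import Pool.Agent.Helper89_FAR.LclZ
import Pool.Agent.Helper22_QDU.Zf
import Pool.Agent.Helper22_QDU.H61Num
/-!
# FAR: the numbers of the concrete environment
-/

set_option autoImplicit false

open scoped BigOperators Matrix NNReal

noncomputable section

namespace Pool.Agent.QDU.H89

open Pool.Agent.ANR
open Pool.Agent.ANR.H89 hiding ev_cI ev_dn ev_w1 lclZ

open Pool.Agent.ANR
open Pool.Agent.BED (Tor adj ev)
open Pool.Agent.ANP (Cfg Geo Fc)
open Pool.Agent.AND2B (Gt)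
open Pool.Agent.AND.Num
open Pool.Agent.AHH (toE Al gg Old Ded)
open Pool.Agent.AHH.H61 hiding budOk ev_be ev_c1 ev_e0 ev_good ev_small ev_small_be ev_th
open Pool.Agent.QDU.H61

variable {d : ℕ}

/-! ### The numbers of the dead sites -/

variable {a es c C : ℝ}

/-- `w ≤ 1` -/
theorem ev_w1 : Ev2 d a es c C fun V => (V.w : ℝ) ≤ 1 := by
  refine Ev2.imp (fun V h => ?_) (ev_good.and (ev_small (fun _ _ _ _ s => s ≤ 1)
    fun _ _ _ _ _ _ _ _ _ => small_le 1 one_pos))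
  exact h.2 V.w (by exact_mod_cast h.1.w) le_rfl

/-- the number of the dead sites is small against the scales -/
theorem ev_dn (K p : ℝ) (hp : 9 / 4 < p) :
    Ev2 d a es c C fun V => ∀ n ≤ V.N,
      K * (1 + ∑ i ∈ Finset.range (n + 1), (3 ^ d * V.Dn i : ℝ)) ≤ V.sg (n + 1) ^ (-p) := by
  refine Ev2.imp (fun V h => ?_) ((ev_good.and ev_w1).and (ev_smallm (fun th _ _ _ _ s =>
    max K 0 * (1 + 3 ^ d / (1 - (th : ℝ))) * s ^ (-(9 / 4) : ℝ) ≤ s ^ (-p))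
    (fun th b _ _ _ _ s _ g2 g3 g4 h => (mul_le_mul_of_nonneg_right (mul_le_mul_of_nonneg_left
      (by have := gapi g2 g3 (K := 3 ^ d) (by positivity); linarith) (le_max_right _ _))
      (Real.rpow_nonneg g4.le _)).trans h)
    fun th c₁ C₁ α J _ _ _ _ => small_pow _ _ _ (by linarith)))
  obtain ⟨⟨h1, h2⟩, h3⟩ := h
  intro n hn
  have h4 := dn_sum h1.toPre h2 hn
  have h5 := h3 (V.sg (n + 1)) (sg_pos h1.toPre _) (sg_le h1.toPre _)
  refine le_trans ?_ h5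
  have h6 : (0 : ℝ) ≤ 1 + ∑ i ∈ Finset.range (n + 1), (3 ^ d * V.Dn i : ℝ) := by positivity
  calc K * (1 + ∑ i ∈ Finset.range (n + 1), (3 ^ d * V.Dn i : ℝ)) ≤
      max K 0 * (1 + ∑ i ∈ Finset.range (n + 1), (3 ^ d * V.Dn i : ℝ)) :=
        mul_le_mul_of_nonneg_right (le_max_left _ _) h6
    _ ≤ max K 0 * ((1 + 3 ^ d / (1 - (V.th : ℝ))) * V.sg (n + 1) ^ (-(9 / 4) : ℝ)) :=
        mul_le_mul_of_nonneg_left h4 (le_max_right _ _)
    _ = _ := by ring

/-- the constant of the alive distance against the side of the blocks and the radius of the releases -/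
theorem ev_cI (K : ℝ) :
    Ev2 d a es c C fun V => ∀ n ≤ V.N,
      K * (cI d V.Dn (Finset.range (n + 1)) + 1) ≤ V.G.L n ∧
      K * (cI d V.Dn (Finset.range (n + 1)) + 1) ≤ V.G.ρ n := by
  refine Ev2.imp (fun V h => ?_) ((ev_good.and ev_w1).and (ev_dn (2 * K) 3 (by norm_num)))
  obtain ⟨⟨h1, h2⟩, h3⟩ := h
  intro n hn
  have h4 := h3 n hn
  have h5 : K * (cI d V.Dn (Finset.range (n + 1)) + 1) =
      2 * K * (1 + ∑ i ∈ Finset.range (n + 1), (3 ^ d * V.Dn i : ℝ)) := by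
    unfold cI; ring
  rw [h5]
  have hs := sg_pos h1.toPre (n + 1)
  have hs1 : V.sg (n + 1) ≤ 1 := (sg_le h1.toPre _).trans h2
  constructor
  · refine h4.trans ?_
    have h6 := h1.sc.llow n hn
    have h7 : V.sg (n + 1) ^ (-(3 : ℝ)) ≤ V.sg (n + 1) ^ (-(5 : ℝ)) :=
      Real.rpow_le_rpow_of_exponent_ge hs hs1 (by norm_num)
    have h8 : ((V.G.L n : ℕ) : ℝ) = 2 ^ V.l n := by
      show (((2 ^ V.l n : ℕ)) : ℝ) = 2 ^ V.l n
      push_cast; rfl
    rw [h8]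
    exact h7.trans h6
  · refine h4.trans ?_
    have h6 := h1.sc.rlow n hn
    have h8 : ((V.G.ρ n : ℕ) : ℝ) = 2 ^ V.r n := by
      show (((2 ^ V.r n : ℕ)) : ℝ) = 2 ^ V.r n
      push_cast; rfl
    rw [h8]
    exact h6

/-! ### Locality -/

/-- LOCALITY FOR THE CONCRETE NUMBERS -/
theorem lclZ (d : ℕ) (hd : 1 ≤ d) (a es c C : ℝ) (hc : 0 < c) (hc1 : c ≤ 2) :
    Ev2 d a es c C fun V => ∀ n ≤ V.N, ∀ k, V.kk n ≤ k → k < V.kk (n + 1) →
      ∀ (P run : Finset V.X) (T : Cfg V.X) (B : V.X), (∀ x ∈ Al T, c / 2 ≤ gg T x) →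
        V.Fc n k P T run → Old (toE V c C) n T → Ded (toE V c C) n T → V.G.bl n B = B →
        (run ∩ V.G.blk n B).Nonempty →
        AHH.H67.Lcl (toE V c C) T (run ∩ V.G.blk n B) (AHH.H67.Q1s (toE V c C) n T B)
          (AHH.H67.Yo (toE V c C) n T) k (AHH.H17.parZ V c C n k) := by
  have hd' : (1 : ℝ) ≤ d := by exact_mod_cast hd
  have hd0 : (0 : ℝ) < d := by linarith
  refine Ev2.imp (fun V h => ?_) (((ev_good.and ev_w1).and (ev_cI 4)).and
    (ev_small (fun _ _ α _ s =>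
      (4 / (c / 2) ^ 4 * s ^ (-(4 : ℝ)) * Real.exp (-((c / 2) / (16 * d) * s ^ (-(4 : ℝ)))) ≤
        s ^ (1 : ℝ) ∧
      4 / (c / 2) * s ^ (-(1 : ℝ)) * Real.exp (-((c / 2) / (16 * d) * s ^ (-(4 : ℝ)))) ≤
        s ^ (1 : ℝ)) ∧
      2 / (c / 2) * s ^ (-((α : ℝ) + 1)) *
        Real.exp (-((c / 2) / (4 * d) * s ^ (-(2 : ℝ)))) ≤ s ^ (10 * ((α : ℝ) + 1)))
    fun th c₁ C₁ α J _ _ _ _ => ((small_exp_pow _ _ _ _ _ (by positivity) (by norm_num)).and
      (small_exp_pow _ _ _ _ _ (by positivity) (by norm_num))).and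
      (small_exp_pow _ _ _ _ _ (by positivity) (by norm_num))))
  obtain ⟨⟨⟨h1, hw1⟩, hcI⟩, hsm⟩ := h
  intro n hn k hk1 hk2 P run T B hg hF hO hD hB hne
  have hp := h1.toPre
  have hth : V.th ≤ 1 := h1.th.2.le
  have hth0 := th_pos hp
  have hσ := sg_pos hp (n + 1)
  have hσ1 : V.sg (n + 1) ≤ 1 := (sg_le hp _).trans hw1
  have hsm1 := (hsm (V.sg (n + 1)) hσ (sg_le hp _)).1
  have hclk1 : V.sg (n + 1) ≤ V.cl (k + 1) := cl_anti' hp (by omega)
  have hclk : V.sg (n + 1) ≤ V.cl k := cl_anti' hp (by omega)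
  have hclk0 : (0 : ℝ) < V.cl (k + 1) := cl_pos' hp _
  have hLn : ((V.G.L n : ℕ) : ℝ) = 2 ^ V.l n := by
    show (((2 ^ V.l n : ℕ)) : ℝ) = 2 ^ V.l n
    push_cast; rfl
  have hll := h1.sc.llow n hn
  rw [← hLn] at hll
  -- the exponent
  have hexp : Real.exp (-(c / 2 * V.cl (k + 1) / (16 * d) * V.G.L n)) ≤
      Real.exp (-((c / 2) / (16 * d) * V.sg (n + 1) ^ (-(4 : ℝ)))) := by
    apply Real.exp_le_exp.2
    rw [neg_le_neg_iff]
    have e1 : V.sg (n + 1) ^ (-(4 : ℝ)) = V.sg (n + 1) * V.sg (n + 1) ^ (-(5 : ℝ)) := by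
      have := Real.rpow_add hσ 1 (-5)
      rw [Real.rpow_one] at this
      rw [← this]; norm_num
    rw [e1]
    calc c / 2 / (16 * d) * (V.sg (n + 1) * V.sg (n + 1) ^ (-(5 : ℝ))) ≤
        c / 2 / (16 * d) * (V.cl (k + 1) * V.G.L n) := by
          refine mul_le_mul_of_nonneg_left ?_ (by positivity)
          exact mul_le_mul hclk1 hll (Real.rpow_nonneg hσ.le _) hclk0.le
      _ = _ := by ring
  have hinv : ∀ q : ℕ, 1 / (V.cl (k + 1) : ℝ) ^ q ≤ V.sg (n + 1) ^ (-(q : ℝ)) := fun q => by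
    rw [Real.rpow_neg hσ.le, Real.rpow_natCast, one_div]
    exact inv_anti₀ (by positivity) (pow_le_pow_left₀ hσ.le hclk1 q)
  refine lcl (V := toE V c C) (geoF_T d V.μ V.J V.N V.l V.r h1.sc.lm) hth
    (fun k => AHH.cl_succ V k) (fun k => AHH.cl_pos V h1.w hth0 k) ?_ h1.e0 (by
      show 0 < c / 2
      positivity) (by show c / 2 ≤ 1; linarith) hg hF ?_ h1.sc.k0 hO hD
    (hsum_G hp (by omega)) (hcI n hn).1 ?_ hB hne ?_ ?_ ?_ ?_
  · show V.cl 0 ≤ 1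
    rw [AHH.cl_zero]
    exact_mod_cast hw1
  · show V.kk (n - 1) ≤ k
    exact (kk_mono hp (by omega)).trans hk1
  · intro m hm
    have e1 := (hcI m (by omega)).2
    have e2 := cI_pos d V.Dn (Finset.range (m + 1))
    show cI d V.Dn (Finset.range (m + 1)) + 1 / 2 ≤ (V.G.ρ m : ℝ) / 2
    linarith
  · -- `L`
    show 4 / (c / 2 * V.cl (k + 1)) ^ 4 * Real.exp (-(c / 2 * V.cl (k + 1) / (16 * d) * V.G.L n)) ≤
      4 * (AHH.qq V n k).lam
    have e1 : (1 : ℝ) ≤ 4 * (AHH.qq V n k).lam := by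
      show (1 : ℝ) ≤ 4 * (1 / 4 * (V.cl k : ℝ) ^ (-(3 / 4) : ℝ) * (2 - V.sg n ^ (1 / 400 : ℝ)))
      have e2 : (1 : ℝ) ≤ (V.cl k : ℝ) ^ (-(3 / 4) : ℝ) :=
        Real.one_le_rpow_of_pos_of_le_one_of_nonpos (cl_pos' hp k)
          ((cl_le' hp k).trans hw1) (by norm_num)
      have e3 : V.sg n ^ (1 / 400 : ℝ) ≤ 1 :=
        Real.rpow_le_one (sg_pos hp n).le ((sg_le hp n).trans hw1) (by norm_num)
      nlinarith
    refine le_trans ?_ e1
    have e4 : V.sg (n + 1) ^ (1 : ℝ) ≤ 1 := by rw [Real.rpow_one]; exact hσ1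
    refine le_trans ?_ (hsm1.1.trans e4)
    have e5 := hinv 4
    push_cast at e5
    calc 4 / (c / 2 * V.cl (k + 1)) ^ 4 *
          Real.exp (-(c / 2 * V.cl (k + 1) / (16 * d) * V.G.L n)) =
        4 / (c / 2) ^ 4 * (1 / (V.cl (k + 1) : ℝ) ^ 4) *
          Real.exp (-(c / 2 * V.cl (k + 1) / (16 * d) * V.G.L n)) := by
          rw [mul_pow]; field_simp
      _ ≤ _ := by
          refine mul_le_mul ?_ hexp (Real.exp_pos _).le (by positivity)
          exact mul_le_mul_of_nonneg_left e5 (by positivity)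
  · -- `δ`
    show 4 / (c / 2 * V.cl (k + 1)) * Real.exp (-(c / 2 * V.cl (k + 1) / (16 * d) * V.G.L n)) ≤
      (V.cl k : ℝ) ^ (1 / 8 - 1 / 200 : ℝ)
    have e1 : V.sg (n + 1) ^ (1 : ℝ) ≤ (V.cl k : ℝ) ^ (1 / 8 - 1 / 200 : ℝ) :=
      (Real.rpow_le_rpow_of_exponent_ge hσ hσ1 (by norm_num)).trans
        (Real.rpow_le_rpow hσ.le hclk (by norm_num))
    refine le_trans ?_ (hsm1.2.trans e1)
    have e5 := hinv 1
    push_cast at e5
    rw [pow_one] at e5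
    calc 4 / (c / 2 * V.cl (k + 1)) *
          Real.exp (-(c / 2 * V.cl (k + 1) / (16 * d) * V.G.L n)) =
        4 / (c / 2) * (1 / (V.cl (k + 1) : ℝ)) *
          Real.exp (-(c / 2 * V.cl (k + 1) / (16 * d) * V.G.L n)) := by
          field_simp
      _ ≤ _ := by
          refine mul_le_mul ?_ hexp (Real.exp_pos _).le (by positivity)
          exact mul_le_mul_of_nonneg_left e5 (by positivity)
  · show 0 ≤ (V.cl k : ℝ) ^ (10 : ℝ)
    exact Real.rpow_nonneg (NNReal.coe_nonneg _) _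
  · -- the old sites
    intro m hm
    show 2 / (c / 2 * V.cl (k + 1)) *
      Real.exp (-(c / 2 * V.cl (V.kk (m + 1)) / (4 * d) * V.G.ρ m)) ≤ (V.cl k : ℝ) ^ (10 : ℝ)
    subst hm
    have hy := sg_pos hp (m + 1)
    have hsm2 := (hsm (V.sg (m + 1)) hy (sg_le hp _)).2
    have hlow := h1.sc.low (m + 1) hn
    have hlow' : V.sg (m + 1) ^ ((V.α : ℝ) + 1) ≤ V.sg (m + 1 + 1) := by
      have e1 : V.sg (m + 1) ^ ((V.α : ℝ) + 1) = V.sg (m + 1) ^ (V.α + 1) := by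
        rw [← Real.rpow_natCast]; push_cast; rfl
      rw [e1]; exact hlow
    have hρ : V.sg (m + 1) ^ (-(3 : ℝ)) ≤ V.G.ρ m := by
      have e1 := h1.sc.rlow m (by omega)
      have h8 : ((V.G.ρ m : ℕ) : ℝ) = 2 ^ V.r m := by
        show (((2 ^ V.r m : ℕ)) : ℝ) = 2 ^ V.r m
        push_cast; rfl
      rw [h8]; exact e1
    have e0 : V.sg (m + 1) ^ (10 * ((V.α : ℝ) + 1)) ≤ (V.cl k : ℝ) ^ (10 : ℝ) := by
      have e1 : V.sg (m + 1) ^ (10 * ((V.α : ℝ) + 1)) =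
          (V.sg (m + 1) ^ ((V.α : ℝ) + 1)) ^ (10 : ℝ) := by
        rw [← Real.rpow_mul hy.le]; ring_nf
      rw [e1]
      exact Real.rpow_le_rpow (Real.rpow_nonneg hy.le _) (hlow'.trans hclk) (by norm_num)
    refine le_trans ?_ (hsm2.trans e0)
    have e5 : 1 / (V.cl (k + 1) : ℝ) ≤ V.sg (m + 1) ^ (-((V.α : ℝ) + 1)) := by
      rw [Real.rpow_neg hy.le, one_div]
      exact inv_anti₀ (Real.rpow_pos_of_pos hy _) (hlow'.trans hclk1)
    have e6 : Real.exp (-(c / 2 * V.cl (V.kk (m + 1)) / (4 * d) * V.G.ρ m)) ≤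
        Real.exp (-((c / 2) / (4 * d) * V.sg (m + 1) ^ (-(2 : ℝ)))) := by
      apply Real.exp_le_exp.2
      rw [neg_le_neg_iff]
      have e1 : V.sg (m + 1) ^ (-(2 : ℝ)) = V.sg (m + 1) * V.sg (m + 1) ^ (-(3 : ℝ)) := by
        have := Real.rpow_add hy 1 (-3)
        rw [Real.rpow_one] at this
        rw [← this]; norm_num
      rw [e1]
      have e2 : (V.cl (V.kk (m + 1)) : ℝ) = V.sg (m + 1) := rfl
      rw [e2]
      calc c / 2 / (4 * d) * (V.sg (m + 1) * V.sg (m + 1) ^ (-(3 : ℝ))) ≤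
          c / 2 / (4 * d) * (V.sg (m + 1) * V.G.ρ m) := by
            refine mul_le_mul_of_nonneg_left ?_ (by positivity)
            exact mul_le_mul_of_nonneg_left hρ hy.le
        _ = _ := by ring
    calc 2 / (c / 2 * V.cl (k + 1)) *
          Real.exp (-(c / 2 * V.cl (V.kk (m + 1)) / (4 * d) * V.G.ρ m)) =
        2 / (c / 2) * (1 / (V.cl (k + 1) : ℝ)) *
          Real.exp (-(c / 2 * V.cl (V.kk (m + 1)) / (4 * d) * V.G.ρ m)) := by
          field_simp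
      _ ≤ _ := by
          refine mul_le_mul ?_ e6 (Real.exp_pos _).le (by positivity)
          exact mul_le_mul_of_nonneg_left e5 (by positivity)

end Pool.Agent.QDU.H89
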