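import Pool.Agent.Helper58_AHH.FloZ
import Pool.Agent.Helper22_QDU.Zf
import Pool.Agent.Helper22_QDU.H17NumZ
import Pool.Agent.Helper22_QDU.H61Num
import Pool.Agent.Helper22_QDU.H61Zn
import Pool.Agent.Helper22_QDU.H67FNz
import Pool.Agent.Helper22_QDU.H89LclZ
/-!
# The field `flo` (helper58)

`floF`: the field `flo` for the concrete budget, from the block lemma (`AFL.FloStmt`), the form part of the
increments (`FrmZStmt`) and the numbers of the increments (`FlowNStmt`).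
-/

set_option autoImplicit false

open MeasureTheory ProbabilityTheory

open scoped BigOperators NNReal ENNReal Matrix

noncomputable section

namespace Pool.Agent.QDU.H58

open Pool.Agent.AHH hiding BegF FinF FloF IniF KilF MmonF OutF RbegF RfinF RmonF ana0
open Pool.Agent.AHH.H58 hiding FlowNStmt FrmZStmt StZ floF

open Pool.Agent.LE.QF (BB KK)
open Pool.Agent.AND2B (net kap Viol Hr Vef Prd)
open Pool.Agent.ANP (Cfg Geo Fc gm)
open Pool.Agent.AFL (Fl)
open Pool.Agent.LTG (Box)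
open Pool.Agent.ANR.H89 (GeoF)
open Pool.Agent.AHH.H67 (Par flOf Yo Q1s Qs aB EOk GOk FNum BNum Lcl flOf_ok den_Z box_of_D
  box_mono fc_alv)
open Pool.Agent.AHH.H17 (parZ)

/-- a numeric fact for all stages -/
def StZ (Q : (d : ℕ) → ℝ → ℝ → AND2B.Env d → ℕ → ℕ → Prop) : Prop :=
  ∀ (d : ℕ) (a c C : ℝ), 3 ≤ d → 0 < a → 0 < c → c ≤ 1 / 2 → 1 ≤ C →
    Ev2 d a es c C fun V => ∀ n k, n ≤ V.N → V.kk n ≤ k → k < V.kk (n + 1) → Q d c C V n k

/-- the numbers of the increments -/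
def FlowNStmt : Prop := StZ fun _ c C V n k => FlowN (toE V c C) (bud V) n k (parZ V c C n k)

/-- the form part -/
def FrmZStmt : Prop := StZ fun _ c C V n k => ∀ (T₀ T : Cfg V.X) (run₀ run P : Finset V.X)
  (B : V.X) (ζ : V.X → ℝ), Md (toE V c C) (bud V) n k T₀ run₀ P T run →
    Fc V.G V.kk V.cl V.Dn n k P T run → V.G.bl n B = B → (run ∩ V.G.blk n B).Nonempty →
    Disjoint P (V.G.blk n B) → (flB V c C n k P T run B).Good (fun x => ζ x) →
      FrmI (toE V c C) (bud V) n k B T (T.hf V.th (run ∩ V.G.blk n B) ζ)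

/-- THE FIELD FLO -/
theorem floF (hfl : AFL.FloStmt) (h1 : FlowNStmt) (h6 : FrmZStmt) : FloF := by
  intro d a c C hd ha hc hc' hC
  obtain ⟨Cf, hCf, hfl⟩ := hfl (c / 2) (2 * C)
  have e1 := h1 d a c C hd ha hc hc' hC
  have e2 := H89.lclZ d (by omega) a es c C hc (by linarith)
  have e3 := H17.numZ d (a := a) (c := c) (C := C) (Cf := Cf) hc hc' hC (by linarith)
  have e4 := H67.fnum d a c C hd hc hC
  have e6 := h6 d a c C hd ha hc hc' hC
  have e7 := H61.nm d a c C hc hC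
  have e9 : Ev2 d a es c C fun V => ∀ s : ℝ, 0 < s → s ≤ V.w → s ≤ 1 :=
    H61.ev_small (fun _ _ _ _ s => s ≤ 1) fun _ _ _ _ _ _ _ _ _ =>
      AND.Num.small_le 1 one_pos
  refine (((((((H61.ev_good.and e1).and e2).and e3).and e4).and e6).and e7).and
    e9).imp fun V hV => ?_
  obtain ⟨⟨⟨⟨⟨⟨⟨hG, e1⟩, e2⟩, e3⟩, e4⟩, e6⟩, e7⟩, e9⟩ := hV
  have hP : V.Pre a := hG.toPre
  have hw1 : (V.w : ℝ) ≤ 1 := e9 V.w (H61.w_pos hP) le_rfl
  intro n k T₀ run₀ P T run B hn hk hk' hB hdj hV0 hVT hS0 hF0 hF hM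
  have hN := e7 n k
  obtain ⟨hE, hBN, hpr⟩ := e3 n k hn hk hk'
  have hGo := gok (c := c) (C := C) hG hw1
  have hcla : Antitone (toE V c C).cl := fun i j hij => cl_anti V hP.th.2.le hij
  have hkk : Monotone (toE V c C).kk := fun i j hij => H61.kk_mono hP hij
  have hPsi : ∀ x, Psi (toE V c C).Γ n (P ∪ V.G.blk n B) x ≤ (toE V c C).Cp := fun x =>
    H61.Psi_le_Gt d V.μ V.J V.N V.l V.r n _ x
  have hPsi' : ∀ x, Psi (toE V c C).Γ n P x ≤ (toE V c C).Cp := fun x =>
    H61.Psi_le_Gt d V.μ V.J V.N V.l V.r n _ x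
  have hM' : Md (toE V c C) (bud V) n k T₀ run₀ P T run := hM
  have hF' : Fc (toE V c C).Γ (toE V c C).kk (toE V c C).cl (toE V c C).Dn n k P T run := hF
  have hu0 : (toE V c C).u₀ < 1 := by
    show 1 - 1 / (2 * C) < 1
    have : 0 < 1 / (2 * C) := by positivity
    linarith
  show FloB (toE V c C) (bud V) (V.p n) n k T₀ run₀ P T run B
  rcases Finset.eq_empty_or_nonempty (run ∩ V.G.blk n B) with hb | hb
  · -- no running site
    refine flow_empty hN hB hdj hPsi ?_ hcla hkk hF' hM' (H67.md_al hM' hE) (H67.fc_alv hF' hE)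
      hu0 ?_ hb
    · exact exp_le_cpd d
    · show 0 < gr V (ka V / 4) n k
      exact lt_of_lt_of_le (Real.rpow_pos_of_pos (H61.w_pos hP) _)
        (gr_bd V hP.th.2.le (by have := H61.ka_pos (V := V); linarith) n k).1
  · obtain ⟨J1, J2, hFN⟩ := e4 n k hn hk hk'
    have hBN' := hBN C (by linarith)
    have hloc := e2 n hn k hk hk' P run T B (fun x hx => (H67.md_gau hM' hE x hx).1) hF' hM'.old
      hM'.ded hB hb
    have hlμ : V.l n + 4 ≤ V.μ := by
      have h1 := hP.sc.lN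
      have h2 := hP.sc.lm hn
      omega
    have hok := okL (l := V.l) (r := V.r) (J := V.J) (N := V.N) hd (V := toE V c C) rfl
      hP.sc.lm hlμ hM' hE hF' hFN hBN' (ANR.H89.hsum_G hP (by omega)) hloc
      (fun x => hG.st.hG x x) hPsi' hVT hB hdj
    have hcard : ((Qs T (aB (V.l n) B) (2 ^ (V.l n + 3))).card : ℝ) ≤
        ((2 : ℝ) ^ (V.l n + 4)) ^ d := by
      have h1 : (Qs T (aB (V.l n) B) (2 ^ (V.l n + 3))).card ≤
          (Finset.univ.filter fun x => Box (aB (V.l n) B) (2 ^ (V.l n + 4)) x).card := by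
        refine Finset.card_le_card fun x hx => ?_
        have h2 := (Finset.mem_filter.1 hx).2
        exact Finset.mem_filter.2 ⟨Finset.mem_univ _,
          H67.box_mono _ (Nat.pow_le_pow_right (by norm_num) (by omega)) h2⟩
      have h2 := H67.card_Box (2 ^ V.μ) (aB (V.l n) B) (L := 2 ^ (V.l n + 4))
        (Nat.pow_le_pow_right (by norm_num) hlμ)
      have h3 : ((Qs T (aB (V.l n) B) (2 ^ (V.l n + 3))).card : ℝ) ≤
          ((Finset.univ.filter fun x => Box (aB (V.l n) B) (2 ^ (V.l n + 4)) x).card : ℝ) := by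
        exact_mod_cast h1
      refine h3.trans (le_of_eq ?_)
      rw [h2]
      push_cast
      rfl
    have hQQ : (Q1s (toE V c C) n T B) ⊆ Qs T (aB (V.l n) B) (2 ^ (V.l n + 3)) := hok.hQ.2.1
    have hcard1 : ((Q1s (toE V c C) n T B).card : ℝ) ≤ ((2 : ℝ) ^ (V.l n + 4)) ^ d :=
      le_trans (by exact_mod_cast Finset.card_le_card hQQ) hcard
    exact flow hN (ANR.H89.geoF_T d V.μ V.J V.N V.l V.r hP.sc.lm) hE hGo.cl hGo.clp hGo.cl1
      hcla hkk hM' hF' (e1 n k hn hk hk') (mul_nonneg hBN'.num.2.2.2.1.le hBN'.num.2.2.1.le)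
      hB hb hdj hPsi hQQ (hfl _ _ hok) (hpr T _ _ _ run _ _ hcard1 hcard)
      (fun ζ hGd => e6 n k hn hk hk' T₀ T run₀ run P B ζ hM' hF' hB hb hdj hGd)

end Pool.Agent.QDU.H58
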