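import Pool.Agent.Helper22_AHH.FrmZ
import Pool.Agent.Helper22_QDU.Zf
import Pool.Agent.Helper22_QDU.H17NumZ
import Pool.Agent.Helper22_QDU.H58FloZ
import Pool.Agent.Helper22_QDU.H61Num
import Pool.Agent.Helper22_QDU.H61Zn
import Pool.Agent.Helper22_QDU.H67FNz
import Pool.Agent.Helper22_QDU.H89LclZ
/-!
# The form part of the field flo, for the concrete numbers
-/

set_option autoImplicit false

open scoped BigOperators NNReal Matrix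

noncomputable section

namespace Pool.Agent.QDU.H22

open Pool.Agent.AHH hiding BegF FinF FloF IniF KilF MmonF OutF RbegF RfinF RmonF ana0
open Pool.Agent.AHH.H22 hiding frmZ

open Pool.Agent.ANP (Cfg Geo Fc)
open Pool.Agent.ANR.H89 (cI geoF_T hsum_G)
open Pool.Agent.QDU.H89 (ev_w1 ev_cI)
open Pool.Agent.AHH.H61 hiding budOk ev_be ev_c1 ev_e0 ev_good ev_small ev_small_be ev_th ev_thr nm
open Pool.Agent.QDU.H61

/-- (FLO.frm) -/
theorem frmZ : H58.FrmZStmt := by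
  intro d a c C hd ha hc hc' hC
  have h1 : Ev2 d a es c C fun V => ∀ s : ℝ, 0 < s → s ≤ V.w → s ≤ 1 ∧
      (∀ (w q r0 : ℝ) (ℓ : ℕ), s ≤ w → w ≤ 1 → s / 2 ≤ q →
      s ^ (-(5 : ℝ)) ≤ ℓ → 8 * r0 ≤ ℓ →
      NumF d (c * w ^ (8 * (1 / 10000) - 1 : ℝ)) (4 * C ^ 3 / w) (1 - 1 / (2 * C))
        (s ^ kaf V.α)
        (2 * (w ^ (1 / 50 : ℝ) * s ^ (2 * kaf V.α))) (w ^ (1 / 50 : ℝ) * s ^ (2 * kaf V.α))
        (uN d C (w ^ (1 / 50 : ℝ) * s ^ (2 * kaf V.α))) (c / 2 * q / (8 * d)) r0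
        (1 / (c / 2 * (c / 2 * q))) (c / 2 * q * (c / 2)) ℓ ((2 * ℓ + 1) ^ d) ∧
      704 * d ≤ c / 2 * q / (8 * d) * ℓ) ∧ 2 * s ^ (5 : ℝ) ≤ 1 * s ^ (0 : ℝ) :=
    ev_small (fun _ _ α _ s => s ≤ 1 ∧
      (∀ (w q r0 : ℝ) (ℓ : ℕ), s ≤ w → w ≤ 1 → s / 2 ≤ q →
      s ^ (-(5 : ℝ)) ≤ ℓ → 8 * r0 ≤ ℓ →
      NumF d (c * w ^ (8 * (1 / 10000) - 1 : ℝ)) (4 * C ^ 3 / w) (1 - 1 / (2 * C))
        (s ^ kaf α)
        (2 * (w ^ (1 / 50 : ℝ) * s ^ (2 * kaf α))) (w ^ (1 / 50 : ℝ) * s ^ (2 * kaf α))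
        (uN d C (w ^ (1 / 50 : ℝ) * s ^ (2 * kaf α))) (c / 2 * q / (8 * d)) r0
        (1 / (c / 2 * (c / 2 * q))) (c / 2 * q * (c / 2)) ℓ ((2 * ℓ + 1) ^ d) ∧
      704 * d ≤ c / 2 * q / (8 * d) * ℓ) ∧ 2 * s ^ (5 : ℝ) ≤ 1 * s ^ (0 : ℝ))
      fun th c₁ C₁ α J _ _ _ hα => (AND.Num.small_le 1 one_pos).and
        ((small_num d (by omega) c C (kaf α) hc hc' hC (kaf_pos α) (kaf_le hα)).and
          (AND.Num.small_pow' 2 1 5 0 one_pos (by norm_num)))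
  refine (((ev_good.and ev_w1).and (ev_cI 8)).and h1).imp fun V hV => ?_
  obtain ⟨⟨⟨hG, hw1⟩, hcI⟩, hs⟩ := hV
  have hP : V.Pre a := hG.toPre
  intro n k hn hk1 hk2 T₀ T run₀ run P B ζ hMd hF hB hne hPB hGd
  have hth := hP.th
  have hs0 := cl_pos' hP k
  have hsw := cl_le' hP k
  obtain ⟨hs1, hnum, h5⟩ := hs (V.cl k) hs0 hsw
  -- the side of the blocks
  have hLn : ((V.G.L n : ℕ) : ℝ) = 2 ^ V.l n := by
    show (((2 ^ V.l n : ℕ)) : ℝ) = 2 ^ V.l n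
    push_cast
    rfl
  have hL5 : (V.cl k : ℝ) ^ (-(5 : ℝ)) ≤ V.G.L n := by
    rw [hLn]
    refine le_trans ?_ (hP.sc.llow n hn)
    exact Real.rpow_le_rpow_of_nonpos (sg_pos hP _) (cl_anti' hP hk2.le) (by norm_num)
  have hl1 : 1 ≤ V.l n := by
    by_contra hc0
    have hl0 : V.l n = 0 := by omega
    rw [hLn, hl0, pow_zero] at hL5
    rw [Real.rpow_zero, mul_one] at h5
    have h6 : (V.cl k : ℝ) ^ (-(5 : ℝ)) * (V.cl k : ℝ) ^ (5 : ℝ) = 1 := by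
      rw [← Real.rpow_add hs0]
      norm_num
    have h7 := mul_le_mul_of_nonneg_right hL5 (Real.rpow_nonneg hs0.le (5 : ℝ))
    rw [h6] at h7
    linarith
  have hR : 2 * 2 ^ (V.l n - 1) = V.G.L n := by
    show 2 * 2 ^ (V.l n - 1) = 2 ^ V.l n
    rw [← pow_succ']
    congr 1
    omega
  have hq : (V.cl k : ℝ) / 2 ≤ V.cl (k + 1) := by
    have h6 : (V.cl (k + 1) : ℝ) = V.th * V.cl k := by
      rw [cl_succ]
      push_cast
      rfl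
    have h7 : (1 / 2 : ℝ) ≤ V.th := by exact_mod_cast hth.1
    rw [h6]
    have h8 := mul_le_mul_of_nonneg_right h7 hs0.le
    linarith
  obtain ⟨hN, h704⟩ := hnum V.w (V.cl (k + 1)) (cI d V.Dn (Finset.range (n + 1)) + 1) (V.G.L n)
    hsw hw1 hq hL5 (hcI n hn).1
  have hth23 : V.th ≤ 1 := hth.2.le
  -- the gauge
  have hg : ∀ x ∈ Al T, c / 2 ≤ gg T x := by
    intro x hx
    have h6 : T.mb = T₀.mb := hMd.mb
    have h7 : x ∈ Al T₀ := by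
      rw [H67.mem_Al] at hx ⊢
      rcases hMd.clk x with h8 | ⟨-, -, h8⟩
      · rwa [h8] at hx
      · rcases eq_zero_or_pos (a := T₀.s x) with h0 | h0
        · rw [h8, h0, mul_zero] at hx
          exact absurd hx (lt_irrefl 0)
        · exact h0
    have h8 := (hMd.st0.gau x h7).1
    show c / 2 ≤ (T.mb x).im
    rw [h6]
    exact h8
  have hlμ : V.l n + 4 ≤ V.μ := by
    have h1 := hP.sc.lN
    have h2 := hP.sc.lm hn
    omega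
  refine frm_of (V := toE V c C) (bd := bud V) (p := H17.parZ V c C n k) (P := P) (run := run)
    (m := (V.w : ℝ) ^ (1 / 50 : ℝ) * (V.cl k : ℝ) ^ (2 * ka V))
    (u := uN d C ((V.w : ℝ) ^ (1 / 50 : ℝ) * (V.cl k : ℝ) ^ (2 * ka V)))
    (R := 2 ^ (V.l n - 1)) (by omega) (geoF_T d V.μ V.J V.N V.l V.r hP.sc.lm)
    (fun x y => rfl) (th_pos hP) hth23 (fun k => cl_succ V k)
    (fun k => cl_pos V hP.w (th_pos hP) k) ?_ hG.e0 ?_ ?_ hg hF hPB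
    (hsum_G hP (by omega)) (hcI n hn).1 hB hne hR ?_ h704 hN (fun x hx hxB => ?_) ζ hGd
  · show V.cl 0 ≤ 1
    rw [cl_zero]
    exact_mod_cast hw1
  · show 0 < c / 2
    positivity
  · show c / 2 ≤ 1
    linarith
  · show 0 < 2 ^ V.l n
    positivity
  · exact Finset.mem_filter.2 ⟨hx, H67.box_of_D (V.l n) B x hlμ hxB⟩

end Pool.Agent.QDU.H22
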