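import Pool.Agent.Helper90_AHH.FlowNZ
import Pool.Agent.Helper22_QDU.Zf
import Pool.Agent.Helper22_QDU.H17NumZ
import Pool.Agent.Helper22_QDU.H58FloZ
import Pool.Agent.Helper22_QDU.H61Num
import Pool.Agent.Helper22_QDU.H61Zn
import Pool.Agent.Helper22_QDU.H67FNz
import Pool.Agent.Helper22_QDU.H89LclZ
import Pool.Agent.Helper22_QDU.H90IncNum
/-!
# AHH: `FlowNStmt`
-/

set_option autoImplicit false

namespace Pool.Agent.QDU.H90

open Pool.Agent.AHH hiding BegF FinF FloF IniF KilF MmonF OutF RbegF RfinF RmonF ana0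
open Pool.Agent.AHH.H90 hiding cI_num eokZ flowN flowNStmt geoN omL

/-- THE NUMBERS OF THE INCREMENTS -/
theorem flowNStmt : H58.FlowNStmt := fun d a c C hd _ hc _ _ => flowN d a c C (by omega) hc

end Pool.Agent.QDU.H90
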