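import Pool.Agent.Helper58_AHH.FloFin
import Pool.Agent.Helper22_QDU.Zf
import Pool.Agent.Helper22_QDU.H17NumZ
import Pool.Agent.Helper22_QDU.H22FrmZ
import Pool.Agent.Helper22_QDU.H58FloZ
import Pool.Agent.Helper22_QDU.H61Num
import Pool.Agent.Helper22_QDU.H61Zn
import Pool.Agent.Helper22_QDU.H67FNz
import Pool.Agent.Helper22_QDU.H89LclZ
import Pool.Agent.Helper22_QDU.H90FlowNZ
import Pool.Agent.Helper22_QDU.H90IncNum
/-!
# The field `flo` without hypotheses (helper58)
-/

set_option autoImplicit false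

namespace Pool.Agent.QDU.H58

open Pool.Agent.AHH hiding BegF FinF FloF IniF KilF MmonF OutF RbegF RfinF RmonF ana0
open Pool.Agent.AHH.H58 hiding FlowNStmt FrmZStmt StZ floF floFin

/-- THE FIELD FLO -/
theorem floFin : FloF :=
  floF Pool.Agent.AFL.H48.floT Pool.Agent.QDU.H90.flowNStmt Pool.Agent.QDU.H22.frmZ

end Pool.Agent.QDU.H58
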