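import Pool.Agent.Helper42_AHH.Fin
import Pool.Agent.Helper22_QDU.Zf
import Pool.Agent.Helper22_QDU.H61Num
import Pool.Agent.Helper22_QDU.H61RegN
import Pool.Agent.Helper22_QDU.H61Zn
/-!
# AHH, field FIN: the end of a stage
-/

set_option autoImplicit false

open scoped BigOperators NNReal Matrix

noncomputable section

namespace Pool.Agent.QDU.H42

open Pool.Agent.AHH hiding BegF FinF FloF IniF KilF MmonF OutF RbegF RfinF RmonF ana0
open Pool.Agent.AHH.H42 hiding StpFStmt finF sumD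

open Pool.Agent.BED (Tor)
open Pool.Agent.AND2B (net kap Prd Viol)
open Pool.Agent.ANP (Cfg Geo Fc)
open Pool.Agent.AND.Num
open Pool.Agent.AHH.H61 hiding bse_f bse_r budOk ev_be ev_c1 ev_e0 ev_good ev_small ev_small_be ev_th ev_thr im_G0 nm ratio regH
open Pool.Agent.QDU.H61

open Pool.Agent.AHH.H28 (Nm fia mem_Al)

variable {d : ℕ}

/-- the dead sites of the levels `j < n` -/
theorem sumD (d : ℕ) (a es c C : ℝ) :
    Ev2 d a es c C fun V => ∀ n ≤ V.N + 1, ∀ s : ℝ, 0 < s → s ≤ V.sg n → s ≤ 1 ∧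
      ∑ j ∈ Finset.range n, (3 ^ d * V.Dn j : ℝ) / 2 ^ V.l j ≤ 1 / 4 ∧
      2 + 4 * ∑ j ∈ Finset.range n, (3 ^ d * V.Dn j : ℝ) ≤ s ^ (-2 : ℝ) := by
  have h1 : Ev2 d a es c C fun V => ∀ s : ℝ, 0 < s → s ≤ V.w →
      (s ≤ 1 ∧ 2 * s ^ (0 : ℝ) ≤ 1 / 2 * s ^ (-2 : ℝ)) ∧
      (4 * 3 ^ d * (1 / (1 - (V.th : ℝ) ^ (5 / 4 : ℝ)))) * s ^ (-(5 / 4) : ℝ) ≤
        1 / 2 * s ^ (-2 : ℝ) := by
    refine ev_smallm (fun th _ _ _ _ s =>
      (s ≤ 1 ∧ 2 * s ^ (0 : ℝ) ≤ 1 / 2 * s ^ (-2 : ℝ)) ∧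
      (4 * 3 ^ d * (1 / (1 - (th : ℝ) ^ (5 / 4 : ℝ)))) * s ^ (-(5 / 4) : ℝ) ≤
        1 / 2 * s ^ (-2 : ℝ)) ?_ ?_
    · rintro th b _ _ _ _ s _ g2 g3 g4 ⟨x1, x2⟩
      refine ⟨x1, le_trans ?_ x2⟩
      exact mul_le_mul_of_nonneg_right (mul_le_mul_of_nonneg_left
        (gapip g2 g3 zero_le_one (by norm_num)) (by positivity)) (Real.rpow_nonneg g4.le _)
    intro th c₁ C₁ α J _ _ _ _
    exact ((small_le 1 one_pos).and (small_pow' _ _ _ _ (by norm_num) (by norm_num))).and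
      (small_pow' _ _ _ _ (by norm_num) (by norm_num))
  refine (h1.and ev_good).imp fun V hV n hn s hs hs' => ?_
  obtain ⟨h1, hG⟩ := hV
  have hP := hG.toPre
  have hsw := hs'.trans (sg_le hP n)
  obtain ⟨⟨g1, g2⟩, g3⟩ := h1 s hs hsw
  have hth0 : (0 : ℝ) < V.th := by exact_mod_cast th_pos hP
  have hth1 : (V.th : ℝ) ^ (5 / 4 : ℝ) < 1 := th_rpow_lt hP (by norm_num)
  have hK : 0 < 1 - (V.th : ℝ) ^ (5 / 4 : ℝ) := by linarith
  refine ⟨g1, ?_, ?_⟩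
  · refine le_trans ?_ hP.sc.ds
    refine Finset.sum_le_sum_of_subset_of_nonneg ?_ fun i _ _ => by positivity
    intro i hi
    rw [Finset.mem_range] at hi ⊢
    omega
  · have hS : ∀ n ≤ V.N + 1, ∑ j ∈ Finset.range n, (V.Dn j : ℝ) ≤
        1 / (1 - (V.th : ℝ) ^ (5 / 4 : ℝ)) * V.sg n ^ (-(5 / 4) : ℝ) := by
      intro n
      induction n with
      | zero =>
        intro _
        rw [Finset.range_zero, Finset.sum_empty]
        have := sg_pos hP 0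
        positivity
      | succ n ih =>
        intro hn
        rw [Finset.sum_range_succ]
        have e1 := ih (by omega)
        have e2 := hP.sc.dl n (by omega)
        have e3 := sg_succ hP n
        have p0 := sg_pos hP n
        have p1 := sg_pos hP (n + 1)
        have e4 : V.sg n ^ (-(5 / 4) : ℝ) ≤
            (V.th : ℝ) ^ (5 / 4 : ℝ) * V.sg (n + 1) ^ (-(5 / 4) : ℝ) := by
          have e5 : (V.th * V.sg n : ℝ) ^ (-(5 / 4) : ℝ) ≤ V.sg (n + 1) ^ (-(5 / 4) : ℝ) :=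
            Real.rpow_le_rpow_of_nonpos p1 e3 (by norm_num)
          rw [Real.mul_rpow hth0.le p0.le] at e5
          have e6 : (V.th : ℝ) ^ (5 / 4 : ℝ) * (V.th : ℝ) ^ (-(5 / 4) : ℝ) = 1 := by
            rw [← Real.rpow_add hth0]
            norm_num
          calc V.sg n ^ (-(5 / 4) : ℝ) =
              (V.th : ℝ) ^ (5 / 4 : ℝ) * ((V.th : ℝ) ^ (-(5 / 4) : ℝ) *
                V.sg n ^ (-(5 / 4) : ℝ)) := by rw [← mul_assoc, e6, one_mul]
            _ ≤ _ := mul_le_mul_of_nonneg_left e5 (by positivity)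
        have e7 : (V.Dn n : ℝ) ≤ V.sg (n + 1) ^ (-(5 / 4) : ℝ) := e2
        have e8 := mul_le_mul_of_nonneg_left e4 (one_div_pos.2 hK).le
        have e9 : 1 / (1 - (V.th : ℝ) ^ (5 / 4 : ℝ)) *
            ((V.th : ℝ) ^ (5 / 4 : ℝ) * V.sg (n + 1) ^ (-(5 / 4) : ℝ)) +
            V.sg (n + 1) ^ (-(5 / 4) : ℝ) =
            1 / (1 - (V.th : ℝ) ^ (5 / 4 : ℝ)) * V.sg (n + 1) ^ (-(5 / 4) : ℝ) := by
          field_simp
          ring
        linarith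
    have e1 := hS n hn
    have e2 : V.sg n ^ (-(5 / 4) : ℝ) ≤ s ^ (-(5 / 4) : ℝ) :=
      Real.rpow_le_rpow_of_nonpos hs hs' (by norm_num)
    have e3 := e1.trans (mul_le_mul_of_nonneg_left e2 (one_div_pos.2 hK).le)
    have e4 : ∑ j ∈ Finset.range n, (3 ^ d * V.Dn j : ℝ) =
        3 ^ d * ∑ j ∈ Finset.range n, (V.Dn j : ℝ) := by
      rw [Finset.mul_sum]
    rw [e4]
    have e5 := mul_le_mul_of_nonneg_left e3 (by positivity : (0 : ℝ) ≤ 4 * 3 ^ d)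
    rw [Real.rpow_zero] at g2
    nlinarith [e5, g2, g3]

/-- the numbers of the field `fin` -/
def StpFStmt : Prop :=
  ∀ (d : ℕ) (a c C Cr Cw : ℝ), 3 ≤ d → 0 < a → 0 < c → c ≤ 1 / 2 → 1 ≤ C → 1 ≤ Cr → 1 ≤ Cw →
    Ev2 d a es c C fun V => ∀ n k, n ≤ V.N → V.kk n ≤ k → k < V.kk (n + 1) →
      Stp (q1f V ((1 + (V.th : ℝ)) / 2) n k) (qq V n (k + 1)) (V.cl (k + 1))
        (Cr * (1 + Real.log (Cw * (V.cl (k + 1) : ℝ) ^ (-Cw))) *
          (q1f V ((1 + (V.th : ℝ)) / 2) n k).mis)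

/-- FIELD FIN -/
theorem finF (hReg : RegStmt) (hWts : WtsStmt) (hNum : StpFStmt) : FinF := by
  intro d a c C hd ha hc hc' hC
  obtain ⟨Cr, hCr, hR⟩ := hReg (c / 2) (2 * C) (by linarith) (by linarith) (by linarith)
  obtain ⟨Cw, hCw, hW⟩ := hWts d (c / 2) (2 * C) hd (by linarith) (by linarith) (by linarith)
  refine ((((hNum d a c C Cr Cw hd ha hc hc' hC hCr hCw).and (sumD d a es c C)).and
    (nm d a c C hc hC)).and ((((regH d a c C hc hc' hC).and (bse_f d a c C hc hc' hC)).and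
      (ratio d a c C hc)).and ev_good)).imp fun V hV => ?_
  obtain ⟨⟨⟨h1, h2⟩, h3⟩, ⟨⟨h4, h5⟩, h6⟩, h7⟩ := hV
  refine fin_core hC hCw hR hW h7 h3 h2 h6 fun n k hn hk hk' => ?_
  have hth : (0 : ℝ) ≤ V.th := NNReal.coe_nonneg _
  have hth1 : (V.th : ℝ) < 1 := by exact_mod_cast h7.th.2
  exact h4 n (k + 1) _ _ _ (cl_pos' h7.toPre _) (h5 _ n k (by linarith) (by linarith) hn)
    (h1 n k hn hk hk')

end Pool.Agent.QDU.H42
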