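import Pool.Agent.Helper22_QDU.H16BegF
import Pool.Agent.Helper22_QDU.H28KilT
import Pool.Agent.Helper22_QDU.H54IniV
import Pool.Agent.Helper22_QDU.H54RfinT
import Pool.Agent.Helper22_QDU.H58FloFin
import Pool.Agent.Helper22_QDU.H96FinT
import Pool.Agent.Helper10_ABY.CMP
import Pool.Agent.Helper82_ABY.VEX
import Pool.Agent.Helper13_ABY.VFR
import Pool.Agent.Helper16_CORE.Env0

/-!
# QDU: ALL THE NINE FIELDS, uniformly in the ratio of the clocks, the energy, the last clock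

`fields`: eventually (`Ev2`), all the fields hold (and also the start with a revealed potential).
`fields_ex`: the same, written out.
-/

set_option autoImplicit false

open scoped BigOperators NNReal

noncomputable section

namespace Pool.Agent.QDU

open Pool.Agent.AND2B (Env)
open Pool.Agent.ACX.CORE (Fields)
open Pool.Agent.AHH (Z es)
open Pool.Agent.AHH.H54 (IniVP)

theorem bud : H16.BudStmt := fun d a c C _ _ hc _ hC => H61.budOk d a c C hc hC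

/-- THE NINE FIELDS, UNIFORMLY -/
theorem fields (d : ℕ) (a c C : ℝ) (hd : 3 ≤ d) (ha : 0 < a) (hc : 0 < c) (hc' : c ≤ 1 / 2)
    (hC : 1 ≤ C) :
    Ev2 d a es c C fun V => V.Good a es c C ∧ Fields (Z d a es c C) V ∧ IniVP (Z d a es c C) V := by
  have h := (((((((((((H61.ev_good (d := d) (a := a) (es := es) (c := c) (C := C)).and
    (H54.ini d a c C hd ha hc hc' hC)).and
    (H16.begF bud ABY.H10.cmp ABY.H82.vex d a c C hd ha hc hc' hC)).and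
    (H16.mmonF bud ABY.H10.cmp ABY.H82.vex ABY.H13.vfr d a c C hd ha hc hc' hC)).and
    (H58.floFin d a c C hd ha hc hc' hC)).and
    (H96.finT d a c C hd ha hc hc' hC)).and
    (H16.rbegF bud d a c C hd ha hc hc' hC)).and
    (H16.rmonF bud ABY.H10.cmp ABY.H82.vex ABY.H13.vfr d a c C hd ha hc hc' hC)).and
    (H28.kilT d a c C hd ha hc hc' hC)).and
    (H54.rfinT d a c C hd ha hc hc' hC)).and
    (H54.iniV d a c C hd ha hc hc' hC))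
  refine h.imp fun V hV => ?_
  obtain ⟨⟨⟨⟨⟨⟨⟨⟨⟨⟨h0, h1⟩, h2⟩, h3⟩, h4⟩, h5⟩, h6⟩, h7⟩, h8⟩, h9⟩, h10⟩ := hV
  exact ⟨h0, ⟨h1, h2, h3, h4, h5, h6, h7, h8, h9⟩, h10⟩

/-- the same, written out -/
theorem fields_ex (d : ℕ) (a c C : ℝ) (hd : 3 ≤ d) (ha : 0 < a) (hc : 0 < c) (hc' : c ≤ 1 / 2)
    (hC : 1 ≤ C) :
    ∃ τ₀ k₁ : ℝ, 0 < τ₀ ∧ 0 < k₁ ∧ ∀ (b : ℝ≥0) (c₁ C₁ : ℝ) (α J : ℕ), b < 1 → 0 < c₁ → c₁ ≤ k₁ →
    2 ≤ α → ∃ β₀ w₀ : ℝ, 0 < β₀ ∧ 0 < w₀ ∧ ∀ V : Env d, V.Pre a → 1 - τ₀ ≤ (V.th : ℝ) → V.th ≤ b →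
      V.c₁ = c₁ → V.C₁ = C₁ → V.α = α → V.J = J → V.β ≤ β₀ → (V.w : ℝ) ≤ w₀ →
      ∃ e₁ : ℝ, 0 < e₁ ∧ ∀ (e₀ : ℝ) (m ζ : ℂ), 0 < e₀ → e₀ ≤ e₁ →
        ({ V with e₀ := e₀, m := m, ζ := ζ } : Env d).Good a es c C →
        Fields (Z d a es c C) { V with e₀ := e₀, m := m, ζ := ζ } ∧
        IniVP (Z d a es c C) { V with e₀ := e₀, m := m, ζ := ζ } := by
  obtain ⟨τ, k, hτ, hk, h⟩ := fields d a c C hd ha hc hc' hC
  refine ⟨τ, k, hτ, hk, fun b c₁ C₁ α J h1 h2 h3 h4 => ?_⟩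
  obtain ⟨β₀, w₀, b1, b2, h⟩ := h b c₁ C₁ α J h1 h2 h3 h4
  refine ⟨β₀, w₀, b1, b2, fun V hV g1 g2 g3 g4 g5 g6 g7 g8 => ?_⟩
  obtain ⟨e₁, he, h⟩ := h V hV g1 g2 g3 g4 g5 g6 g7 g8
  exact ⟨e₁, he, fun e₀ m ζ q1 q2 hG => (h e₀ m ζ q1 q2 hG).2⟩

end Pool.Agent.QDU
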