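import Pool.Agent.Helper16_AHH.BegF
import Pool.Agent.Helper22_QDU.Zf
/-!
# AND2B: the fields `beg`, `mmon`, `rbeg`, `rmon` in the final form
-/

set_option autoImplicit false

open scoped BigOperators NNReal Matrix

noncomputable section

namespace Pool.Agent.QDU.H16

open Pool.Agent.AHH hiding BegF FinF FloF IniF KilF MmonF OutF RbegF RfinF RmonF ana0
open Pool.Agent.AHH.H16 hiding BudStmt begF mmonF rbegF rmonF

open Pool.Agent.ABY
open Pool.Agent.AND2B (Prd)

/-- BOK: the budget satisfies `BudOk` -/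
def BudStmt : Prop :=
  ∀ (d : ℕ) (a c C : ℝ), 3 ≤ d → 0 < a → 0 < c → c ≤ 1 / 2 → 1 ≤ C →
    Ev2 d a es c C fun V => BudOk (toE V c C) (bud V)

theorem begF (hBud : BudStmt) (hC : CmpStmt) (hX : VexStmt) : BegF := by
  intro d a c C hd ha hc hc' hC'
  refine (hBud d a c C hd ha hc hc' hC').imp fun V hB => ?_
  intro n k T run h1 h2 h3 h4 _ h6
  exact beg_field hC hX hB n k T run h1 h2 h3 h4 h6

theorem mmonF (hBud : BudStmt) (hC : CmpStmt) (hX : VexStmt) (hVF : VfrStmt) : MmonF := by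
  intro d a c C hd ha hc hc' hC'
  refine (hBud d a c C hd ha hc hc' hC').imp fun V hB => ?_
  intro n k T₀ run₀ P P' T run run' h1 h2 h3 h4 _ _ _ h5
  exact mmon_field hC hX hVF hB n k T₀ run₀ P P' T run run' h1 h2 h3 h4 h5

theorem rbegF (hBud : BudStmt) : RbegF := by
  intro d a c C hd ha hc hc' hC'
  refine (hBud d a c C hd ha hc hc' hC').imp fun V hB => ?_
  intro n T run h1 h2 _ h3
  exact rbeg_field hB n T run h1 h2 h3

theorem rmonF (hBud : BudStmt) (hC : CmpStmt) (hX : VexStmt) (hVF : VfrStmt) : RmonF := by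
  intro d a c C hd ha hc hc' hC'
  refine (hBud d a c C hd ha hc hc' hC').imp fun V hB => ?_
  intro n T₀ run₀ P P' T run run' h1 h2 h3 h4 _ _ _ h5
  exact rmon_field hC hX hVF hB n T₀ run₀ P P' T run run' h1 h2 h3 h4 h5

end Pool.Agent.QDU.H16
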